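import Pool.Agent.Q246.BI.Ind

/-! Characters and the Clifford decomposition along a normal abelian subgroup. -/

set_option autoImplicit false
set_option linter.unusedSectionVars false

namespace Pool.Agent.Q246.BI

open scoped Classical

/-- characters of finite-dimensional complex representations -/
def IsCh {G : Type} [Group G] (χ : G → ℂ) : Prop :=
  ∃ (n : ℕ) (τ : G →* Matrix (Fin n) (Fin n) ℂ), ∀ g, χ g = (τ g).trace

theorem isCh_of_rep {G : Type} [Group G] {V : Type} [AddCommGroup V] [Module ℂ V]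
    [FiniteDimensional ℂ V] (ρ : G →* Module.End ℂ V) :
    IsCh (fun g => LinearMap.trace ℂ V (ρ g)) := by
  let b := Module.finBasis ℂ V
  refine ⟨_, (MonoidHomClass.toMonoidHom (LinearMap.toMatrixAlgEquiv b)).comp ρ, fun g => ?_⟩
  change LinearMap.trace ℂ V (ρ g) = _
  rw [LinearMap.trace_eq_matrix_trace ℂ b]
  rfl

theorem IsCh.rep {G : Type} [Group G] {χ : G → ℂ} (h : IsCh χ) :
    ∃ (n : ℕ) (ρ : G →* Module.End ℂ (Fin n → ℂ)), ∀ g, χ g = LinearMap.trace ℂ _ (ρ g) := by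
  obtain ⟨n, τ, hτ⟩ := h
  refine ⟨n, (MonoidHomClass.toMonoidHom (Matrix.toLinAlgEquiv' (R := ℂ) (n := Fin n))).comp τ,
    fun g => ?_⟩
  rw [hτ]
  exact (Matrix.trace_toLin'_eq (τ g)).symm

/-- duality of finite abelian groups -/
theorem dual_sum (A : Type) [Group A] [Finite A] (hA : ∀ a b : A, a * b = b * a) :
    Finite (A →* ℂˣ) ∧ Nat.card (A →* ℂˣ) = Nat.card A ∧
      ∀ a : A, a ≠ 1 → ∑ᶠ ψ : A →* ℂˣ, (((ψ a)⁻¹ : ℂˣ) : ℂ) = 0 := by
  let _ : CommGroup A := { ‹Group A› with mul_comm := hA }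
  have hne : NeZero (Monoid.exponent A) := ⟨Monoid.exponent_ne_zero_of_finite⟩
  obtain ⟨e⟩ := CommGroup.monoidHom_mulEquiv_of_hasEnoughRootsOfUnity A ℂ
  have hfin : Finite (A →* ℂˣ) := Finite.of_equiv _ e.toEquiv.symm
  refine ⟨hfin, Nat.card_congr e.toEquiv, fun a ha => ?_⟩
  obtain ⟨φ, hφ⟩ := CommGroup.exists_apply_ne_one_of_hasEnoughRootsOfUnity A ℂ ha
  have : Fintype (A →* ℂˣ) := Fintype.ofFinite _
  rw [finsum_eq_sum_of_fintype]
  have h1 : ∑ ψ : A →* ℂˣ, (((ψ a)⁻¹ : ℂˣ) : ℂ) =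
      (((φ a)⁻¹ : ℂˣ) : ℂ) * ∑ ψ : A →* ℂˣ, (((ψ a)⁻¹ : ℂˣ) : ℂ) := by
    rw [Finset.mul_sum, ← Equiv.sum_comp (Equiv.mulLeft φ)
      (fun ψ : A →* ℂˣ => (((ψ a)⁻¹ : ℂˣ) : ℂ))]
    refine Finset.sum_congr rfl fun ψ _ => ?_
    rw [← Units.val_mul, ← mul_inv]
    rfl
  have h2 : (1 - (((φ a)⁻¹ : ℂˣ) : ℂ)) * ∑ ψ : A →* ℂˣ, (((ψ a)⁻¹ : ℂˣ) : ℂ) = 0 := by
    rw [sub_mul, one_mul, ← h1, sub_self]
  refine (mul_eq_zero.1 h2).resolve_left fun h3 => hφ ?_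
  have h4 : (((φ a)⁻¹ : ℂˣ) : ℂ) = 1 := (sub_eq_zero.1 h3).symm
  have h5 : (φ a)⁻¹ = 1 := Units.ext h4
  rwa [inv_eq_one] at h5

section
variable {G : Type} [Group G] [Finite G]

/-- the stabilizer of a linear character of a normal subgroup -/
def St (A : Subgroup G) (hn : ∀ g a : G, a ∈ A → g⁻¹ * a * g ∈ A) (ψ : A →* ℂˣ) : Subgroup G where
  carrier := {g | ∀ a : A, ψ ⟨g⁻¹ * a * g, hn g a a.2⟩ = ψ a}
  one_mem' := fun a => by
    congr 1
    apply Subtype.ext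
    simp
  mul_mem' := by
    intro g h hg hh a
    have h1 := hh ⟨g⁻¹ * a * g, hn g a a.2⟩
    rw [← hg a, ← h1]
    congr 1
    apply Subtype.ext
    simp only
    group
  inv_mem' := by
    intro g hg a
    have h1 := hg ⟨g⁻¹⁻¹ * a * g⁻¹, hn g⁻¹ a a.2⟩
    rw [← h1]
    congr 1
    apply Subtype.ext
    simp only
    group

variable {A : Subgroup G} {hn : ∀ g a : G, a ∈ A → g⁻¹ * a * g ∈ A}
variable {V : Type} [AddCommGroup V] [Module ℂ V] [FiniteDimensional ℂ V]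

/-- the projection to an isotypic part -/
noncomputable def proj (A : Subgroup G) (ρ : G →* Module.End ℂ V) (ψ : A →* ℂˣ) : Module.End ℂ V :=
  (Nat.card A : ℂ)⁻¹ • ∑ᶠ a : A, ((((ψ a)⁻¹ : ℂˣ) : ℂ)) • ρ (a : G)

theorem proj_eq [Fintype A] (ρ : G →* Module.End ℂ V) (ψ : A →* ℂˣ) :
    proj A ρ ψ = (Nat.card A : ℂ)⁻¹ • ∑ a : A, ((((ψ a)⁻¹ : ℂˣ) : ℂ)) • ρ (a : G) := by
  unfold proj
  rw [finsum_eq_sum_of_fintype]

theorem rho_proj (ρ : G →* Module.End ℂ V) (ψ : A →* ℂˣ) (a : A) :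
    ρ (a : G) * proj A ρ ψ = ((ψ a : ℂˣ) : ℂ) • proj A ρ ψ := by
  have : Fintype A := Fintype.ofFinite _
  rw [proj_eq, mul_smul_comm, smul_comm]
  congr 1
  rw [Finset.mul_sum, Finset.smul_sum, ← Equiv.sum_comp (Equiv.mulLeft a)
    (fun b : A => ((ψ a : ℂˣ) : ℂ) • ((((ψ b)⁻¹ : ℂˣ) : ℂ)) • ρ (b : G))]
  refine Finset.sum_congr rfl fun b _ => ?_
  rw [mul_smul_comm, ← map_mul, smul_smul]
  congr 1
  change _ = ((ψ a : ℂˣ) : ℂ) * (((ψ (a * b))⁻¹ : ℂˣ) : ℂ)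
  rw [← Units.val_mul]
  congr 1
  rw [map_mul, mul_inv, mul_comm (ψ a)⁻¹, mul_comm (ψ a), mul_assoc, inv_mul_cancel, mul_one]

theorem proj_idem (ρ : G →* Module.End ℂ V) (ψ : A →* ℂˣ) :
    proj A ρ ψ * proj A ρ ψ = proj A ρ ψ := by
  have : Fintype A := Fintype.ofFinite _
  nth_rewrite 1 [proj_eq]
  rw [smul_mul_assoc, Finset.sum_mul]
  have h1 : ∀ a : A, ((((ψ a)⁻¹ : ℂˣ) : ℂ)) • ρ (a : G) * proj A ρ ψ = proj A ρ ψ := by
    intro a
    rw [smul_mul_assoc, rho_proj, smul_smul, ← Units.val_mul, inv_mul_cancel, Units.val_one,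
      one_smul]
  rw [Finset.sum_congr rfl fun a _ => h1 a, Finset.sum_const, ← Nat.cast_smul_eq_nsmul ℂ,
    Finset.card_univ, ← Nat.card_eq_fintype_card, smul_smul, inv_mul_cancel₀ (card_ne A), one_smul]

/-- conjugation of linear characters -/
def tw (hn : ∀ g a : G, a ∈ A → g⁻¹ * a * g ∈ A) (g : G) (ψ : A →* ℂˣ) : A →* ℂˣ where
  toFun a := ψ ⟨g⁻¹ * a * g, hn g a a.2⟩
  map_one' := by
    rw [← map_one ψ]
    congr 1
    apply Subtype.ext
    simp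
  map_mul' := by
    intro a b
    rw [← map_mul]
    congr 1
    apply Subtype.ext
    simp only [Subgroup.coe_mul]
    group

theorem rho_tw (ρ : G →* Module.End ℂ V) (ψ : A →* ℂˣ) (g : G) :
    ρ g * proj A ρ ψ = proj A ρ (tw hn g ψ) * ρ g := by
  have : Fintype A := Fintype.ofFinite _
  rw [proj_eq, proj_eq, mul_smul_comm, smul_mul_assoc]
  congr 1
  rw [Finset.mul_sum, Finset.sum_mul]
  have hn' : ∀ a : A, g * a * g⁻¹ ∈ A := by
    intro a
    have := hn g⁻¹ a a.2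
    rwa [inv_inv] at this
  let e : A ≃ A :=
    { toFun := fun a => ⟨g * a * g⁻¹, hn' a⟩
      invFun := fun a => ⟨g⁻¹ * a * g, hn g a a.2⟩
      left_inv := fun a => by
        apply Subtype.ext
        simp only
        group
      right_inv := fun a => by
        apply Subtype.ext
        simp only
        group }
  rw [← Equiv.sum_comp e (fun a : A => ((((tw hn g ψ a)⁻¹ : ℂˣ) : ℂ)) • ρ (a : G) * ρ g)]
  refine Finset.sum_congr rfl fun a _ => ?_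
  rw [mul_smul_comm, smul_mul_assoc, ← map_mul, ← map_mul]
  have h1 : tw hn g ψ (e a) = ψ a := by
    change ψ ⟨g⁻¹ * (g * a * g⁻¹) * g, _⟩ = ψ a
    congr 1
    apply Subtype.ext
    simp only
    group
  have h2 : ((e a : A) : G) * g = g * a := by
    change g * a * g⁻¹ * g = g * a
    group
  rw [h1, h2]

theorem sum_proj (hA : ∀ a b : A, a * b = b * a) (ρ : G →* Module.End ℂ V) :
    ∑ᶠ ψ : A →* ℂˣ, proj A ρ ψ = 1 := by
  have : Fintype A := Fintype.ofFinite _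
  obtain ⟨hf, hc, h0⟩ := dual_sum A hA
  have : Fintype (A →* ℂˣ) := Fintype.ofFinite _
  rw [finsum_eq_sum_of_fintype, Finset.sum_congr rfl fun ψ _ => proj_eq ρ ψ, ← Finset.smul_sum,
    Finset.sum_comm]
  have h1 : ∀ a : A, ∑ ψ : A →* ℂˣ, ((((ψ a)⁻¹ : ℂˣ) : ℂ)) • ρ (a : G) =
      if a = 1 then (Nat.card A : ℂ) • (1 : Module.End ℂ V) else 0 := by
    intro a
    rw [← Finset.sum_smul]
    split_ifs with ha
    · subst ha
      simp only [map_one, inv_one, Units.val_one, Finset.sum_const, nsmul_eq_mul, mul_one,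
        Finset.card_univ, OneMemClass.coe_one]
      rw [← Nat.card_eq_fintype_card, hc]
    · have h2 := h0 a ha
      rw [finsum_eq_sum_of_fintype] at h2
      rw [h2, zero_smul]
  rw [Finset.sum_congr rfl fun a _ => h1 a, Finset.sum_ite_eq' Finset.univ (1 : A),
    if_pos (Finset.mem_univ _), smul_smul, inv_mul_cancel₀ (card_ne A), one_smul]

theorem trace_zero (hA : ∀ a b : A, a * b = b * a) (ρ : G →* Module.End ℂ V) (ψ : A →* ℂˣ) (g : G)
    (h : tw hn g ψ ≠ ψ) : LinearMap.trace ℂ V (ρ g * proj A ρ ψ) = 0 := by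
  -- `e_ψ` is idempotent and `e_(gψ) e_ψ = 0`
  have : Fintype A := Fintype.ofFinite _
  have h1 : proj A ρ ψ * proj A ρ (tw hn g ψ) = 0 := by
    obtain ⟨a, ha⟩ : ∃ a, tw hn g ψ a ≠ ψ a := by
      by_contra hcon
      push Not at hcon
      exact h (MonoidHom.ext hcon)
    have hcomm : ρ (a : G) * proj A ρ ψ = proj A ρ ψ * ρ (a : G) := by
      rw [proj_eq, mul_smul_comm, smul_mul_assoc, Finset.mul_sum, Finset.sum_mul]
      congr 1
      refine Finset.sum_congr rfl fun b _ => ?_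
      rw [mul_smul_comm, smul_mul_assoc, ← map_mul, ← map_mul]
      have h3 := congrArg Subtype.val (hA a b)
      simp only [Subgroup.coe_mul] at h3
      rw [h3]
    have h2 : ((ψ a : ℂˣ) : ℂ) • (proj A ρ ψ * proj A ρ (tw hn g ψ)) =
        ((tw hn g ψ a : ℂˣ) : ℂ) • (proj A ρ ψ * proj A ρ (tw hn g ψ)) := by
      rw [← smul_mul_assoc, ← rho_proj, hcomm, mul_assoc, rho_proj, mul_smul_comm]
    have h4 : (((ψ a : ℂˣ) : ℂ) - ((tw hn g ψ a : ℂˣ) : ℂ)) •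
        (proj A ρ ψ * proj A ρ (tw hn g ψ)) = 0 := by
      rw [sub_smul, h2, sub_self]
    refine (smul_eq_zero.1 h4).resolve_left fun h5 => ha ?_
    exact (Units.ext (sub_eq_zero.1 h5)).symm
  have h2 : LinearMap.trace ℂ V (ρ g * proj A ρ ψ) =
      LinearMap.trace ℂ V ((proj A ρ (tw hn g ψ) * ρ g) * proj A ρ ψ) := by
    rw [← rho_tw, mul_assoc, proj_idem]
  rw [h2, mul_assoc, LinearMap.trace_mul_comm, mul_assoc, h1, mul_zero, map_zero]

/-- the isotypic part as a representation of the stabilizer -/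
theorem exists_part (hA : ∀ a b : A, a * b = b * a) (ρ : G →* Module.End ℂ V) (ψ : A →* ℂˣ) :
    ∃ (W : Type) (_ : AddCommGroup W) (_ : Module ℂ W) (_ : FiniteDimensional ℂ W)
      (ρ' : St A hn ψ →* Module.End ℂ W),
      (∀ h : St A hn ψ, LinearMap.trace ℂ W (ρ' h) = LinearMap.trace ℂ V (ρ h * proj A ρ ψ)) ∧
      ∀ (h : St A hn ψ) (ha : (h : G) ∈ A), ρ' h = ((ψ ⟨h, ha⟩ : ℂˣ) : ℂ) • (1 : Module.End ℂ W) := by
  let e := proj A ρ ψ
  let W := LinearMap.range e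
  let i : W →ₗ[ℂ] V := W.subtype
  let p : V →ₗ[ℂ] W := e.rangeRestrict
  have hip : i ∘ₗ p = e := rfl
  have hpi : p ∘ₗ i = LinearMap.id := by
    apply LinearMap.ext
    rintro ⟨_, ⟨v, rfl⟩⟩
    apply Subtype.ext
    change e (e v) = e v
    exact LinearMap.congr_fun (proj_idem ρ ψ) v
  have hcomm : ∀ h : St A hn ψ, ρ (h : G) * e = e * ρ (h : G) := by
    intro h
    have h1 : tw hn h ψ = ψ := MonoidHom.ext h.2
    have h2 := rho_tw (hn := hn) ρ ψ (h : G)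
    rw [h1] at h2
    exact h2
  have hei : e ∘ₗ i = i := by
    rw [← hip, LinearMap.comp_assoc, hpi, LinearMap.comp_id]
  have hpe : p ∘ₗ e = p := by
    rw [← hip, ← LinearMap.comp_assoc, hpi, LinearMap.id_comp]
  refine ⟨W, inferInstance, inferInstance, inferInstance,
    { toFun := fun h => p ∘ₗ (ρ (h : G)) ∘ₗ i
      map_one' := by
        rw [OneMemClass.coe_one, map_one]
        exact hpi
      map_mul' := fun h h' => by
        rw [Subgroup.coe_mul, map_mul]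
        change p ∘ₗ (ρ (h : G) * ρ (h' : G)) ∘ₗ i =
          (p ∘ₗ ρ (h : G) ∘ₗ i) ∘ₗ (p ∘ₗ ρ (h' : G) ∘ₗ i)
        have h3 : (p ∘ₗ ρ (h : G) ∘ₗ i) ∘ₗ (p ∘ₗ ρ (h' : G) ∘ₗ i) =
            p ∘ₗ (ρ (h : G) * (e * ρ (h' : G))) ∘ₗ i := by
          rw [← hip]
          rfl
        rw [h3, ← hcomm]
        have h4 : (ρ (h' : G) * e) ∘ₗ i = ρ (h' : G) ∘ₗ i := by
          change (ρ (h' : G) ∘ₗ e) ∘ₗ i = _
          rw [LinearMap.comp_assoc, hei]
        change p ∘ₗ (ρ (h : G) ∘ₗ ρ (h' : G)) ∘ₗ i = p ∘ₗ (ρ (h : G) ∘ₗ (ρ (h' : G) * e)) ∘ₗ i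
        rw [LinearMap.comp_assoc, LinearMap.comp_assoc, h4] }, fun h => ?_, fun h ha => ?_⟩
  · change LinearMap.trace ℂ W (p ∘ₗ ((ρ (h : G)) ∘ₗ i)) = _
    rw [LinearMap.trace_comp_comm', LinearMap.comp_assoc, hip]
    rfl
  · change p ∘ₗ ((ρ (h : G)) ∘ₗ i) = _
    have h1 : ρ (h : G) ∘ₗ i = ((ψ ⟨h, ha⟩ : ℂˣ) : ℂ) • i := by
      have h2 := rho_proj (A := A) ρ ψ ⟨h, ha⟩
      calc ρ (h : G) ∘ₗ i = ρ (h : G) ∘ₗ (e ∘ₗ i) := by rw [hei]
        _ = (ρ (h : G) * e) ∘ₗ i := by rfl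
        _ = (((ψ ⟨h, ha⟩ : ℂˣ) : ℂ) • e) ∘ₗ i := by rw [h2]
        _ = ((ψ ⟨h, ha⟩ : ℂˣ) : ℂ) • i := by rw [LinearMap.smul_comp, hei]
    rw [h1, LinearMap.comp_smul, hpi]
    rfl

/-- **Clifford decomposition** -/
theorem clifford (A : Subgroup G) (hn : ∀ g a : G, a ∈ A → g⁻¹ * a * g ∈ A)
    (hA : ∀ a b : A, a * b = b * a) (N : AddSubgroup (G → ℂ))
    (hN : ∀ (ψ : A →* ℂˣ) (W : Type) (_ : AddCommGroup W) (_ : Module ℂ W)
      (_ : FiniteDimensional ℂ W) (ρ : St A hn ψ →* Module.End ℂ W),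
      (∀ (h : St A hn ψ) (ha : (h : G) ∈ A), ρ h = ((ψ ⟨h, ha⟩ : ℂˣ) : ℂ) • (1 : Module.End ℂ W)) →
      Ind (St A hn ψ) (fun h => LinearMap.trace ℂ W (ρ h)) ∈ N)
    (χ : G → ℂ) (hχ : IsCh χ) : χ ∈ N := by
  obtain ⟨n, ρ, hρ⟩ := hχ.rep
  obtain ⟨hf, -, -⟩ := dual_sum A hA
  let _ : MulAction G (A →* ℂˣ) :=
    { smul := fun g ψ => tw hn g ψ
      one_smul := fun ψ => by
        apply MonoidHom.ext
        intro a
        change ψ ⟨(1 : G)⁻¹ * a * 1, _⟩ = ψ a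
        congr 1
        apply Subtype.ext
        simp
      mul_smul := fun g h ψ => by
        apply MonoidHom.ext
        intro a
        change ψ ⟨(g * h)⁻¹ * a * (g * h), _⟩ = ψ ⟨h⁻¹ * (g⁻¹ * a * g) * h, _⟩
        congr 1
        apply Subtype.ext
        simp only
        group }
  have hsm : ∀ (g : G) (ψ : A →* ℂˣ), g • ψ = tw hn g ψ := fun g ψ => rfl
  have hst : ∀ ψ : A →* ℂˣ, MulAction.stabilizer G ψ = St A hn ψ := by
    intro ψ
    ext g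
    rw [MulAction.mem_stabilizer_iff, hsm]
    constructor
    · intro h a
      exact DFunLike.congr_fun h a
    · intro h
      exact MonoidHom.ext h
  let F : (A →* ℂˣ) → G → ℂ := fun ψ g => LinearMap.trace ℂ _ (ρ g * proj A ρ ψ)
  have h1 : χ = fun g => ∑ᶠ ψ : A →* ℂˣ, F ψ g := by
    have : Fintype (A →* ℂˣ) := Fintype.ofFinite _
    funext g
    rw [hρ, finsum_eq_sum_of_fintype]
    change _ = ∑ ψ : A →* ℂˣ, LinearMap.trace ℂ _ (ρ g * proj A ρ ψ)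
    rw [← map_sum, ← Finset.mul_sum]
    have h2 := sum_proj (A := A) hA ρ
    rw [finsum_eq_sum_of_fintype] at h2
    rw [h2, mul_one]
  rw [h1]
  refine bundle F (fun ψ g hg => trace_zero (hn := hn) hA ρ ψ g hg) (fun h ψ g => ?_) N fun ψ => ?_
  · change LinearMap.trace ℂ _ (ρ (h * g * h⁻¹) * proj A ρ (tw hn h ψ)) = _
    have h2 : ρ (h * g * h⁻¹) * proj A ρ (tw hn h ψ) =
        ρ h * ((ρ g * proj A ρ ψ) * ρ h⁻¹) := by
      have h3 : ρ h⁻¹ * proj A ρ (tw hn h ψ) = proj A ρ ψ * ρ h⁻¹ := by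
        have h4 := rho_tw (hn := hn) ρ ψ h
        calc ρ h⁻¹ * proj A ρ (tw hn h ψ)
            = ρ h⁻¹ * (proj A ρ (tw hn h ψ) * ρ h) * ρ h⁻¹ := by
              rw [mul_assoc, mul_assoc, ← map_mul, mul_inv_cancel, map_one, mul_one]
          _ = ρ h⁻¹ * (ρ h * proj A ρ ψ) * ρ h⁻¹ := by rw [h4]
          _ = proj A ρ ψ * ρ h⁻¹ := by
              rw [← mul_assoc (ρ h⁻¹), ← map_mul, inv_mul_cancel, map_one, one_mul]
      rw [map_mul, map_mul, mul_assoc, h3]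
      simp only [mul_assoc]
    rw [h2, LinearMap.trace_mul_comm]
    change _ = LinearMap.trace ℂ _ (ρ g * proj A ρ ψ)
    rw [mul_assoc, ← map_mul, inv_mul_cancel, map_one, mul_one]
  · obtain ⟨W, i1, i2, i3, ρ', h2, h3⟩ := exists_part (hn := hn) hA ρ ψ
    have h4 := hN ψ W i1 i2 i3 ρ' h3
    rw [hst ψ]
    have h5 : (fun h : St A hn ψ => F ψ h) = fun h => LinearMap.trace ℂ W (ρ' h) := by
      funext h
      exact (h2 h).symm
    rw [h5]
    exact h4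

end

end Pool.Agent.Q246.BI
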