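import Pool.Agent.Q246.BI.Solo

/-! Coset formula for induced functions, induced linear characters are characters. -/

set_option autoImplicit false
set_option linter.unusedSectionVars false

namespace Pool.Agent.Q246.BI

open scoped Classical

section
variable {G : Type} [Group G] [Finite G]

theorem ext_conj {H : Subgroup G} {ψ : H → ℂ} (hψ : ∀ a b : H, ψ (b⁻¹ * a * b) = ψ a) (y : G)
    (h : G) (hh : h ∈ H) : ext H ψ (h⁻¹ * y * h) = ext H ψ y := by
  by_cases hy : y ∈ H
  · have h1 : h⁻¹ * y * h ∈ H := H.mul_mem (H.mul_mem (H.inv_mem hh) hy) hh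
    rw [ext_mem hy, ext_mem h1, ← hψ ⟨y, hy⟩ ⟨h, hh⟩]
    rfl
  · have h1 : h⁻¹ * y * h ∉ H := by
      intro h2
      apply hy
      have h3 := H.mul_mem (H.mul_mem hh h2) (H.inv_mem hh)
      have h4 : h * (h⁻¹ * y * h) * h⁻¹ = y := by group
      rwa [h4] at h3
    rw [ext_not_mem hy, ext_not_mem h1]

theorem sum_coset [Fintype G] (H : Subgroup G) [Fintype (G ⧸ H)] (Φ : G → ℂ)
    (hΦ : ∀ y, ∀ h ∈ H, Φ (y * h) = Φ y) :
    ∑ y : G, Φ y = (Nat.card H : ℂ) * ∑ z : G ⧸ H, Φ z.out := by
  rw [← Finset.sum_fiberwise_of_maps_to (s := Finset.univ) (t := Finset.univ)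
    (g := fun y : G => (y : G ⧸ H)) (fun _ _ => Finset.mem_univ _), Finset.mul_sum]
  refine Finset.sum_congr rfl fun z _ => ?_
  have hcard : (Finset.univ.filter fun y : G => (y : G ⧸ H) = z).card = Nat.card H := by
    rw [← Fintype.card_subtype, ← Nat.card_eq_fintype_card]
    refine Nat.card_congr ?_
    exact
      { toFun := fun y => ⟨z.out⁻¹ * y, by
          rw [← QuotientGroup.eq, QuotientGroup.out_eq']
          exact y.2.symm⟩
        invFun := fun h => ⟨z.out * h, by
          have h1 : ((z.out * (h : G) : G) : G ⧸ H) = (z.out : G ⧸ H) := by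
            rw [eq_comm, QuotientGroup.eq]
            simp
          rw [h1, QuotientGroup.out_eq']⟩
        left_inv := fun y => by
          apply Subtype.ext
          change z.out * (z.out⁻¹ * (y : G)) = y
          rw [mul_inv_cancel_left]
        right_inv := fun h => by
          apply Subtype.ext
          change z.out⁻¹ * (z.out * (h : G)) = h
          rw [inv_mul_cancel_left] }
  rw [← hcard]
  rw [Finset.sum_congr rfl (g := fun _ => Φ z.out) (fun y hy => ?_), Finset.sum_const,
    nsmul_eq_mul]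
  have h1 : (y : G ⧸ H) = z := (Finset.mem_filter.1 hy).2
  have h2 : z.out⁻¹ * y ∈ H := by
    rw [← QuotientGroup.eq, QuotientGroup.out_eq']
    exact h1.symm
  have h3 := hΦ z.out _ h2
  rw [mul_inv_cancel_left] at h3
  exact h3

/-- the coset formula -/
theorem ind_coset {V : Type} [Group V] (q : V →* G) (hq : Function.Surjective q)
    (H : Subgroup G) (ψ : H → ℂ) (hψ : ∀ a b : H, ψ (b⁻¹ * a * b) = ψ a) (U : Subgroup V)
    (hU : ∀ v, v ∈ U ↔ q v ∈ H) (g : V) :
    ∑ᶠ x : V ⧸ U, ext H ψ (q (x.out⁻¹ * g * x.out)) = Ind H ψ (q g) := by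
  have : Fintype G := Fintype.ofFinite G
  have : Fintype (G ⧸ H) := Fintype.ofFinite _
  let Φ : G → ℂ := fun y => ext H ψ (y⁻¹ * q g * y)
  have hΦ : ∀ y, ∀ h ∈ H, Φ (y * h) = Φ y := by
    intro y h hh
    have h1 : (y * h)⁻¹ * q g * (y * h) = h⁻¹ * (y⁻¹ * q g * y) * h := by group
    change ext H ψ ((y * h)⁻¹ * q g * (y * h)) = _
    rw [h1, ext_conj hψ _ h hh]
  have h1 : Ind H ψ (q g) = ∑ᶠ z : G ⧸ H, Φ z.out := by
    rw [ind_eq, finsum_eq_sum_of_fintype]
    have h2 := sum_coset H Φ hΦ
    change (Nat.card H : ℂ)⁻¹ * ∑ y : G, Φ y = _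
    rw [h2, inv_mul_cancel_left₀ (card_ne H)]
  rw [h1]
  refine finsum_eq_of_bijective (fun x : V ⧸ U => ((q x.out : G) : G ⧸ H)) ⟨?_, ?_⟩ ?_
  · intro x y hxy
    have h2 : (q x.out)⁻¹ * q y.out ∈ H := QuotientGroup.eq.1 hxy
    rw [← map_inv, ← map_mul, ← hU, ← QuotientGroup.eq, QuotientGroup.out_eq',
      QuotientGroup.out_eq'] at h2
    exact h2
  · intro z
    obtain ⟨v, hv⟩ := hq z.out
    refine ⟨(v : V ⧸ U), ?_⟩
    have h2 : ((v : V ⧸ U).out)⁻¹ * v ∈ U := by
      rw [← QuotientGroup.eq, QuotientGroup.out_eq']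
    have h3 : ((q (v : V ⧸ U).out : G) : G ⧸ H) = (q v : G ⧸ H) := by
      rw [QuotientGroup.eq, ← map_inv, ← map_mul, ← hU]
      exact h2
    change ((q (v : V ⧸ U).out : G) : G ⧸ H) = z
    rw [h3, hv, QuotientGroup.out_eq']
  · intro x
    have h2 : ((q x.out : G) : G ⧸ H).out⁻¹ * q x.out ∈ H := by
      rw [← QuotientGroup.eq, QuotientGroup.out_eq']
    have h3 := hΦ ((q x.out : G) : G ⧸ H).out _ h2
    rw [mul_inv_cancel_left] at h3
    rw [← h3, map_mul, map_mul, map_inv]

/-- induced linear characters are characters -/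
theorem isCh_ind (H : Subgroup G) (ψ : H →* ℂˣ) : IsCh (Ind H (fun h => ((ψ h : ℂˣ) : ℂ))) := by
  have : Fintype G := Fintype.ofFinite G
  have : Fintype (G ⧸ H) := Fintype.ofFinite _
  let e : G → ℂ := ext H (fun h => ((ψ h : ℂˣ) : ℂ))
  have hmul : ∀ a b : G, a ∈ H → e (a * b) = e a * e b := by
    intro a b ha
    by_cases hb : b ∈ H
    · change ext H _ (a * b) = ext H _ a * ext H _ b
      rw [ext_mem (H.mul_mem ha hb), ext_mem ha, ext_mem hb, ← Units.val_mul, ← map_mul]
      rfl
    · have hab : a * b ∉ H := fun h => hb ((Subgroup.mul_mem_cancel_left H ha).1 h)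
      change ext H _ (a * b) = ext H _ a * ext H _ b
      rw [ext_not_mem hab, ext_not_mem hb, mul_zero]
  let τ : G →* Matrix (G ⧸ H) (G ⧸ H) ℂ :=
    { toFun := fun g => Matrix.of fun x y => e (x.out⁻¹ * g * y.out)
      map_one' := by
        ext x y
        rw [Matrix.of_apply, mul_one, Matrix.one_apply]
        split_ifs with hxy
        · subst hxy
          rw [inv_mul_cancel]
          change ext H _ 1 = 1
          rw [ext_mem H.one_mem]
          change ((ψ 1 : ℂˣ) : ℂ) = 1
          rw [map_one, Units.val_one]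
        · apply ext_not_mem
          intro h
          apply hxy
          rw [← QuotientGroup.eq, QuotientGroup.out_eq', QuotientGroup.out_eq'] at h
          exact h
      map_mul' := fun g g' => by
        ext x z
        rw [Matrix.of_apply, Matrix.mul_apply]
        simp only [Matrix.of_apply]
        let y₀ : G ⧸ H := ((g' * z.out : G) : G ⧸ H)
        have hy₀ : y₀.out⁻¹ * g' * z.out ∈ H := by
          rw [mul_assoc, ← QuotientGroup.eq, QuotientGroup.out_eq']
        rw [Finset.sum_eq_single y₀]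
        · by_cases hx : x.out⁻¹ * g * y₀.out ∈ H
          · rw [← hmul _ _ hx]
            congr 1
            group
          · have hx' : x.out⁻¹ * (g * g') * z.out ∉ H := by
              intro h
              apply hx
              have h2 := H.mul_mem h (H.inv_mem hy₀)
              have h3 : x.out⁻¹ * (g * g') * z.out * (y₀.out⁻¹ * g' * z.out)⁻¹ =
                  x.out⁻¹ * g * y₀.out := by group
              rwa [h3] at h2
            have h4 : e (x.out⁻¹ * (g * g') * z.out) = 0 := ext_not_mem hx'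
            have h5 : e (x.out⁻¹ * g * y₀.out) = 0 := ext_not_mem hx
            rw [h4, h5, zero_mul]
        · intro y _ hy
          have h2 : y.out⁻¹ * g' * z.out ∉ H := by
            intro h
            apply hy
            rw [mul_assoc, ← QuotientGroup.eq, QuotientGroup.out_eq'] at h
            exact h
          have h3 : e (y.out⁻¹ * g' * z.out) = 0 := ext_not_mem h2
          rw [h3, mul_zero]
        · intro h
          exact absurd (Finset.mem_univ _) h }
  have h1 := isCh_of_rep ((MonoidHomClass.toMonoidHom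
    (Matrix.toLinAlgEquiv' (R := ℂ) (n := G ⧸ H))).comp τ)
  refine cast (congrArg IsCh ?_) h1
  funext g
  change LinearMap.trace ℂ _ (Matrix.toLin' (τ g)) = _
  rw [Matrix.trace_toLin'_eq, ind_eq]
  have h2 := sum_coset H (fun y => e (y⁻¹ * g * y)) (fun y h hh => by
    have h3 : (y * h)⁻¹ * g * (y * h) = h⁻¹ * (y⁻¹ * g * y) * h := by group
    rw [h3]
    refine ext_conj (fun a b => ?_) _ h hh
    rw [map_mul, map_mul, map_inv, mul_comm, mul_inv_cancel_left])
  change _ = (Nat.card H : ℂ)⁻¹ * ∑ y : G, e (y⁻¹ * g * y)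
  rw [h2, inv_mul_cancel_left₀ (card_ne H)]
  rfl

end

end Pool.Agent.Q246.BI
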