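import Pool.Agent.Q246.BI.Cos
import Pool.Agent.Q246.RP.Conj

/-! Complex conjugations have trivial centralizers; a finite level with small centralizers. -/

set_option autoImplicit false
set_option linter.unusedSectionVars false

namespace Pool.Agent.Q246.BI

open NumberField Pool.Agent.Q246.RP
open scoped Classical ComplexConjugate

section
variable {K : Type} [Field K] [NumberField K]

theorem cc_sq {t : Gal(AlgebraicClosure K/K)} (ht : IsCC t) : t * t = 1 := by
  obtain ⟨ι, hι⟩ := ht
  apply AlgEquiv.ext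
  intro x
  apply ι.injective
  change ι (t (t x)) = ι x
  rw [hι, hι, Complex.conj_conj]

/-- the centralizer of a complex conjugation -/
theorem centralizer {t g : Gal(AlgebraicClosure K/K)} (ht : IsCC t) (h : g * t = t * g) :
    g = 1 ∨ g = t := by
  obtain ⟨ι, hι⟩ := ht
  have hcomm : ∀ x, (t : AlgebraicClosure K →ₐ[K] AlgebraicClosure K) (g x) =
      g ((t : AlgebraicClosure K →ₐ[K] AlgebraicClosure K) x) := fun x =>
    (DFunLike.congr_fun h x).symm
  have hfix := fix_real g ι (t : AlgebraicClosure K →ₐ[K] AlgebraicClosure K) hι hcomm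
  obtain ⟨i, hi⟩ := IsAlgClosed.exists_pow_nat_eq (-1 : AlgebraicClosure K) (n := 2) (by norm_num)
  have hιi : ι i ^ 2 = -1 := by rw [← map_pow, hi, map_neg, map_one]
  have hI : ι i = Complex.I ∨ ι i = -Complex.I := by
    have : ι i ^ 2 = Complex.I ^ 2 := by rw [hιi, Complex.I_sq]
    exact sq_eq_sq_iff_eq_or_eq_neg.1 this
  have hti : t i = -i := by
    apply ι.injective
    rw [hι, map_neg]
    rcases hI with h1 | h1
    · rw [h1, Complex.conj_I]
    · rw [h1, map_neg, Complex.conj_I]
  have hi0 : i ≠ 0 := by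
    rintro rfl
    norm_num at hi
  have htt : ∀ x, t (t x) = x := fun x => ι.injective (by rw [hι, hι, Complex.conj_conj])
  have hgi : g i = i ∨ g i = -i := by
    have h1 : (g i) ^ 2 = i ^ 2 := by rw [← map_pow, hi, map_neg, map_one]
    exact sq_eq_sq_iff_eq_or_eq_neg.1 h1
  have hu : ∀ x, g (x + t x) = x + t x := fun x => hfix _ (by rw [← hι, map_add, htt, add_comm])
  have hv : ∀ x, g ((x - t x) * i) = (x - t x) * i := fun x => hfix _ (by
    rw [← hι, map_mul, map_sub, htt, hti]
    congr 1
    ring)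
  rcases hgi with h1 | h1
  · left
    apply AlgEquiv.ext
    intro x
    have h2 := hv x
    rw [map_mul, h1] at h2
    have h3 := mul_right_cancel₀ hi0 h2
    have h4 := hu x
    rw [map_sub] at h3
    rw [map_add] at h4
    change g x = x
    have h5 : (2 : AlgebraicClosure K) * g x = 2 * x := by linear_combination h3 + h4
    exact mul_left_cancel₀ two_ne_zero h5
  · right
    apply AlgEquiv.ext
    intro x
    have h2 := hv x
    rw [map_mul, h1] at h2
    have h3 : g (x - t x) = -(x - t x) := by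
      have h4 : (g (x - t x) + (x - t x)) * i = 0 := by linear_combination -h2
      have h5 := (mul_eq_zero.1 h4).resolve_right hi0
      linear_combination h5
    have h4 := hu x
    rw [map_sub] at h3
    rw [map_add] at h4
    have h5 : (2 : AlgebraicClosure K) * g x = 2 * t x := by linear_combination h3 + h4
    exact mul_left_cancel₀ two_ne_zero h5

/-- real embeddings come from complex conjugations -/
theorem real_cc (F : IntermediateField K (AlgebraicClosure K)) (h : Nonempty (F →+* ℝ)) :
    ∃ t : Gal(AlgebraicClosure K/K), IsCC t ∧ ∀ x ∈ F, t x = x := by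
  obtain ⟨ρ⟩ := h
  let _ : Algebra F ℂ := (Complex.ofRealHom.comp ρ).toAlgebra
  have hint : Algebra.IsAlgebraic F (AlgebraicClosure K) :=
    Algebra.IsAlgebraic.tower_top (K := K) F
  let ι : AlgebraicClosure K →ₐ[F] ℂ := IsAlgClosed.lift
  have hF : ∀ x : F, ι (x : AlgebraicClosure K) = ((ρ x : ℝ) : ℂ) := fun x => ι.commutes x
  obtain ⟨c, hc⟩ := exists_conj (K := K) (ι : AlgebraicClosure K →+* ℂ) (fun k => by
    have h1 := hF (algebraMap K F k)
    change conj (ι (algebraMap K (AlgebraicClosure K) k)) = ι (algebraMap K (AlgebraicClosure K) k)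
    have h2 : ((algebraMap K F k : F) : AlgebraicClosure K) = algebraMap K (AlgebraicClosure K) k := rfl
    rw [← h2, h1, Complex.conj_ofReal])
  have hb : Function.Bijective c := AlgHom.normal_bijective K (AlgebraicClosure K)
    (AlgebraicClosure K) c
  refine ⟨AlgEquiv.ofBijective c hb, ⟨(ι : AlgebraicClosure K →+* ℂ), fun x => hc x⟩, fun x hx => ?_⟩
  apply (ι : AlgebraicClosure K →+* ℂ).injective
  change (ι : AlgebraicClosure K →+* ℂ) (c x) = ι x
  rw [hc]
  change conj (ι x) = ι x
  have h1 := hF ⟨x, hx⟩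
  rw [h1, Complex.conj_ofReal]

theorem cc_iff (t : Gal(AlgebraicClosure K/K)) : IsCC t ↔
    ∀ F : IntermediateField K (AlgebraicClosure K), FiniteDimensional K F →
      (∀ x ∈ F, t x = x) → Nonempty (F →+* ℝ) := by
  refine ⟨?_, isCC_of_real t⟩
  rintro ⟨ι, hι⟩ F _ hF
  have hr : ComplexEmbedding.IsReal (ι.comp F.val.toRingHom) := by
    rw [ComplexEmbedding.isReal_iff]
    ext x
    change conj (ι x) = ι x
    rw [← hι, hF x x.2]
  exact ⟨hr.embedding⟩

theorem isClosed_cc : IsClosed {t : Gal(AlgebraicClosure K/K) | IsCC t} := by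
  have h1 : {t : Gal(AlgebraicClosure K/K) | IsCC t} =
      ⋂ F : {F : IntermediateField K (AlgebraicClosure K) // FiniteDimensional K F ∧
        ¬ Nonempty (F →+* ℝ)}, {t | ¬ ∀ x ∈ F.1, t x = x} := by
    ext t
    rw [Set.mem_iInter, Set.mem_setOf_eq, cc_iff]
    constructor
    · intro h F hF
      exact F.2.2 (h F.1 F.2.1 hF)
    · intro h F hfd hF
      by_contra hne
      exact h ⟨F, hfd, hne⟩ hF
  rw [h1]
  refine isClosed_iInter fun F => ⟨?_⟩
  have hfd := F.2.1
  have h2 : {t : Gal(AlgebraicClosure K/K) | ¬ ∀ x ∈ F.1, t x = x}ᶜ =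
      (F.1.fixingSubgroup : Set (Gal(AlgebraicClosure K/K))) := by
    ext t
    simp only [Set.mem_compl_iff, Set.mem_setOf_eq, not_not]
    exact (IntermediateField.mem_fixingSubgroup_iff _ _).symm
  rw [h2]
  exact IntermediateField.fixingSubgroup_isOpen F.1

/-- **A finite level with small centralizers.** -/
theorem exists_big (L : IntermediateField K (AlgebraicClosure K)) [FiniteDimensional K L] :
    ∃ L' : IntermediateField K (AlgebraicClosure K), FiniteDimensional K L' ∧ Normal K L' ∧
      L ≤ L' ∧ ∀ t g : Gal(AlgebraicClosure K/K), IsCC t → (∀ x ∈ L', g (t x) = t (g x)) →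
        (∀ x ∈ L, g x = x) ∨ (∀ x ∈ L, g x = t x) := by
  by_contra hcon
  push Not at hcon
  let I : Type := {L' : IntermediateField K (AlgebraicClosure K) //
    FiniteDimensional K L' ∧ Normal K L' ∧ L ≤ L'}
  let Z : I → Set (Gal(AlgebraicClosure K/K) × Gal(AlgebraicClosure K/K)) := fun L' =>
    {p | IsCC p.1} ∩ {p | ¬ ∀ x ∈ L, p.2 x = x} ∩ {p | ¬ ∀ x ∈ L, p.2 x = p.1 x} ∩
      ⋂ x : L'.1, {p | p.2 (p.1 x) = p.1 (p.2 x)}
  have hfdN : FiniteDimensional K (IntermediateField.normalClosure K L (AlgebraicClosure K)) :=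
    inferInstance
  have hne : Nonempty I := ⟨⟨IntermediateField.normalClosure K L (AlgebraicClosure K), hfdN,
    inferInstance, IntermediateField.le_normalClosure L⟩⟩
  have hopL : IsOpen (L.fixingSubgroup : Set (Gal(AlgebraicClosure K/K))) :=
    IntermediateField.fixingSubgroup_isOpen L
  have hZc : ∀ i, IsClosed (Z i) := by
    intro i
    refine ((IsClosed.inter (isClosed_cc.preimage continuous_fst) ?_).inter ?_).inter ?_
    · refine ⟨?_⟩
      have h2 : {p : Gal(AlgebraicClosure K/K) × Gal(AlgebraicClosure K/K) |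
          ¬ ∀ x ∈ L, p.2 x = x}ᶜ = Prod.snd ⁻¹'
          (L.fixingSubgroup : Set (Gal(AlgebraicClosure K/K))) := by
        ext t
        simp only [Set.mem_compl_iff, Set.mem_setOf_eq, not_not]
        exact (IntermediateField.mem_fixingSubgroup_iff _ _).symm
      rw [h2]
      exact hopL.preimage continuous_snd
    · refine ⟨?_⟩
      have h2 : {p : Gal(AlgebraicClosure K/K) × Gal(AlgebraicClosure K/K) |
          ¬ ∀ x ∈ L, p.2 x = p.1 x}ᶜ = (fun p => p.1⁻¹ * p.2) ⁻¹'
          (L.fixingSubgroup : Set (Gal(AlgebraicClosure K/K))) := by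
        ext p
        simp only [Set.mem_compl_iff, Set.mem_setOf_eq, not_not]
        rw [Set.mem_preimage, SetLike.mem_coe, IntermediateField.mem_fixingSubgroup_iff]
        refine forall₂_congr fun x _ => ?_
        change _ ↔ p.1.symm (p.2 x) = x
        rw [AlgEquiv.symm_apply_eq]
      rw [h2]
      exact hopL.preimage (by fun_prop)
    · refine isClosed_iInter fun x => ?_
      have h2 : {p : Gal(AlgebraicClosure K/K) × Gal(AlgebraicClosure K/K) |
          p.2 (p.1 x) = p.1 (p.2 x)} = (fun p => (p.1 * p.2)⁻¹ * (p.2 * p.1)) ⁻¹'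
          {τ : Gal(AlgebraicClosure K/K) | τ (x : AlgebraicClosure K) = x} := by
        ext p
        rw [Set.mem_preimage, Set.mem_setOf_eq, Set.mem_setOf_eq]
        change _ ↔ (p.1 * p.2).symm (p.2 (p.1 x)) = x
        rw [AlgEquiv.symm_apply_eq]
        rfl
      rw [h2]
      exact (isClopen_eval (x : AlgebraicClosure K) fun y => y = x).1.preimage (by fun_prop)
  have hZn : ∀ i, (Z i).Nonempty := by
    intro i
    obtain ⟨t, g, ht, hc, ⟨x, hx, hx'⟩, ⟨y, hy, hy'⟩⟩ := hcon i.1 i.2.1 i.2.2.1 i.2.2.2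
    refine ⟨(t, g), ⟨⟨ht, fun h => hx' (h x hx)⟩, fun h => hy' (h y hy)⟩, ?_⟩
    rw [Set.mem_iInter]
    exact fun z => hc z z.2
  have hdir : Directed (· ⊇ ·) Z := by
    intro i j
    have h1 := i.2.1
    have h2 := j.2.1
    have h3 := i.2.2.1
    have h4 := j.2.2.1
    refine ⟨⟨i.1 ⊔ j.1, IntermediateField.finiteDimensional_sup _ _,
      IntermediateField.normal_sup K (AlgebraicClosure K) i.1 j.1,
      i.2.2.2.trans le_sup_left⟩, ?_, ?_⟩
    · rintro p ⟨hp1, hp2⟩
      refine ⟨hp1, ?_⟩
      rw [Set.mem_iInter] at hp2 ⊢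
      exact fun x => hp2 ⟨x, (le_sup_left : i.1 ≤ i.1 ⊔ j.1) x.2⟩
    · rintro p ⟨hp1, hp2⟩
      refine ⟨hp1, ?_⟩
      rw [Set.mem_iInter] at hp2 ⊢
      exact fun x => hp2 ⟨x, (le_sup_right : j.1 ≤ i.1 ⊔ j.1) x.2⟩
  obtain ⟨⟨t, g⟩, hp⟩ := IsCompact.nonempty_iInter_of_directed_nonempty_isCompact_isClosed Z hdir
    hZn (fun i => (hZc i).isCompact) hZc
  rw [Set.mem_iInter] at hp
  have hcomm : g * t = t * g := by
    apply AlgEquiv.ext
    intro x
    have hfd : FiniteDimensional K (IntermediateField.adjoin K {x}) :=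
      IntermediateField.adjoin.finiteDimensional (Algebra.IsIntegral.isIntegral x)
    let S : IntermediateField K (AlgebraicClosure K) := L ⊔ IntermediateField.adjoin K {x}
    let M : IntermediateField K (AlgebraicClosure K) :=
      IntermediateField.normalClosure K S (AlgebraicClosure K)
    have hfd2 : FiniteDimensional K S := IntermediateField.finiteDimensional_sup _ _
    have hM : S ≤ M := IntermediateField.le_normalClosure S
    have hLM : L ≤ M := (le_sup_left : L ≤ S).trans hM
    have h1 := (hp ⟨M, inferInstance, inferInstance, hLM⟩).2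
    rw [Set.mem_iInter] at h1
    exact h1 ⟨x, hM ((le_sup_right : IntermediateField.adjoin K {x} ≤ S)
      (IntermediateField.mem_adjoin_simple_self K x))⟩
  obtain ⟨i⟩ := hne
  have h1 := hp i
  rcases centralizer h1.1.1.1 hcomm with h2 | h2
  · exact h1.1.1.2 fun x _ => by change g x = x; rw [h2]; rfl
  · exact h1.1.2 fun x _ => by change g x = t x; rw [h2]

end

end Pool.Agent.Q246.BI
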