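import Mathlib

/-! Induced functions on finite groups: transitivity, inflation, equivariant families. -/

set_option autoImplicit false
set_option linter.unusedSectionVars false

namespace Pool.Agent.Q246.BI

open scoped Classical

section
variable {G : Type} [Group G] [Finite G]

/-- extension by zero -/
noncomputable def ext (H : Subgroup G) (η : H → ℂ) (g : G) : ℂ :=
  if h : g ∈ H then η ⟨g, h⟩ else 0

theorem ext_mem {H : Subgroup G} {η : H → ℂ} {g : G} (h : g ∈ H) : ext H η g = η ⟨g, h⟩ := dif_pos h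

theorem ext_not_mem {H : Subgroup G} {η : H → ℂ} {g : G} (h : g ∉ H) : ext H η g = 0 := dif_neg h

/-- the induced function -/
noncomputable def Ind (H : Subgroup G) (η : H → ℂ) (g : G) : ℂ :=
  (Nat.card H : ℂ)⁻¹ * ∑ᶠ x : G, ext H η (x⁻¹ * g * x)

theorem ind_eq [Fintype G] (H : Subgroup G) (η : H → ℂ) (g : G) :
    Ind H η g = (Nat.card H : ℂ)⁻¹ * ∑ x : G, ext H η (x⁻¹ * g * x) := by
  unfold Ind
  rw [finsum_eq_sum_of_fintype]

theorem card_ne (H : Subgroup G) : (Nat.card H : ℂ) ≠ 0 := by
  exact_mod_cast Nat.card_pos.ne'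

theorem ind_zero (H : Subgroup G) : Ind H (0 : H → ℂ) = 0 := by
  have : Fintype G := Fintype.ofFinite G
  funext g
  rw [ind_eq]
  have : ∀ x : G, ext H (0 : H → ℂ) (x⁻¹ * g * x) = 0 := by
    intro x
    unfold ext
    split_ifs <;> rfl
  simp [this]

theorem ind_add (H : Subgroup G) (η η' : H → ℂ) : Ind H (η + η') = Ind H η + Ind H η' := by
  have : Fintype G := Fintype.ofFinite G
  funext g
  rw [Pi.add_apply, ind_eq, ind_eq, ind_eq, ← mul_add, ← Finset.sum_add_distrib]
  congr 1
  refine Finset.sum_congr rfl fun x _ => ?_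
  unfold ext
  split_ifs
  · rfl
  · rw [add_zero]

theorem ind_neg (H : Subgroup G) (η : H → ℂ) : Ind H (-η) = -Ind H η := by
  have h1 := ind_add H η (-η)
  rw [add_neg_cancel, ind_zero] at h1
  exact (neg_eq_of_add_eq_zero_right h1.symm).symm

/-- transitivity of induction -/
theorem ind_trans (H : Subgroup G) (K : Subgroup H) (η : K → ℂ) (K' : Subgroup G)
    (hK : ∀ g : G, g ∈ K' ↔ ∃ h : g ∈ H, (⟨g, h⟩ : H) ∈ K) (η' : K' → ℂ)
    (hη : ∀ (k : H) (hk : k ∈ K) (hk' : (k : G) ∈ K'), η' ⟨k, hk'⟩ = η ⟨k, hk⟩) :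
    Ind H (Ind K η) = Ind K' η' := by
  have : Fintype G := Fintype.ofFinite G
  have : Fintype H := Fintype.ofFinite H
  have hcard : Nat.card K' = Nat.card K := by
    refine Nat.card_congr ?_
    exact
      { toFun := fun k => ⟨⟨k, ((hK _).1 k.2).choose⟩, ((hK _).1 k.2).choose_spec⟩
        invFun := fun k => ⟨((k : H) : G), (hK _).2 ⟨(k : H).2, k.2⟩⟩
        left_inv := fun k => rfl
        right_inv := fun k => rfl }
  have h1 : ∀ y : G, ext H (Ind K η) y = (Nat.card K : ℂ)⁻¹ *
      ∑ h : H, ext K' η' ((h : G)⁻¹ * y * h) := by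
    intro y
    by_cases hy : y ∈ H
    · rw [ext_mem hy, ind_eq]
      congr 1
      refine Finset.sum_congr rfl fun h _ => ?_
      by_cases hz : h⁻¹ * (⟨y, hy⟩ : H) * h ∈ K
      · have hz' : (h : G)⁻¹ * y * h ∈ K' := (hK _).2 ⟨(h⁻¹ * (⟨y, hy⟩ : H) * h).2, hz⟩
        rw [ext_mem hz, ext_mem hz']
        exact (hη _ hz hz').symm
      · have hz' : (h : G)⁻¹ * y * h ∉ K' := by
          intro h'
          obtain ⟨h2, h3⟩ := (hK _).1 h'
          exact hz h3
        rw [ext_not_mem hz, ext_not_mem hz']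
    · rw [ext_not_mem hy]
      have : ∀ h : H, ext K' η' ((h : G)⁻¹ * y * h) = 0 := by
        intro h
        apply ext_not_mem
        intro h'
        obtain ⟨h2, -⟩ := (hK _).1 h'
        apply hy
        have h3 := H.mul_mem (H.mul_mem h.2 h2) (H.inv_mem h.2)
        have : (h : G) * ((h : G)⁻¹ * y * h) * (h : G)⁻¹ = y := by group
        rwa [this] at h3
      simp [this]
  funext g
  rw [ind_eq, ind_eq, hcard]
  have h2 : ∑ x : G, ext H (Ind K η) (x⁻¹ * g * x) =
      (Nat.card K : ℂ)⁻¹ * (Nat.card H * ∑ x : G, ext K' η' (x⁻¹ * g * x)) := by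
    rw [Finset.sum_congr rfl fun x _ => h1 _, ← Finset.mul_sum, Finset.sum_comm]
    congr 1
    have h3 : ∀ h : H, ∑ x : G, ext K' η' ((h : G)⁻¹ * (x⁻¹ * g * x) * h) =
        ∑ x : G, ext K' η' (x⁻¹ * g * x) := by
      intro h
      rw [← Equiv.sum_comp (Equiv.mulRight (h : G)) (fun x => ext K' η' (x⁻¹ * g * x))]
      refine Finset.sum_congr rfl fun x _ => ?_
      congr 1
      change _ = (x * (h : G))⁻¹ * g * (x * h)
      group
    rw [Finset.sum_congr rfl fun h _ => h3 h, Finset.sum_const, nsmul_eq_mul, Finset.card_univ,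
      Nat.card_eq_fintype_card]
  rw [h2]
  have h4 := card_ne H
  field_simp

/-- sums over fibres of a surjective homomorphism -/
theorem sum_fib {R : Type} [Group R] [Finite R] [Fintype G] [Fintype R] (π : G →* R)
    (hπ : Function.Surjective π) (F : R → ℂ) :
    ∑ x : G, F (π x) = (Nat.card π.ker : ℂ) * ∑ r : R, F r := by
  have h1 : ∀ r : R, ((Finset.univ.filter fun x : G => π x = r).card : ℂ) = Nat.card π.ker := by
    intro r
    obtain ⟨g, rfl⟩ := hπ r
    rw [← Fintype.card_subtype, ← Nat.card_eq_fintype_card]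
    congr 1
    refine Nat.card_congr ?_
    exact
      { toFun := fun x => ⟨g⁻¹ * x, by rw [MonoidHom.mem_ker, map_mul, map_inv, x.2, inv_mul_cancel]⟩
        invFun := fun k => ⟨g * k, by rw [map_mul, MonoidHom.mem_ker.1 k.2, mul_one]⟩
        left_inv := fun x => by
          apply Subtype.ext
          change g * (g⁻¹ * x) = x
          rw [mul_inv_cancel_left]
        right_inv := fun k => by
          apply Subtype.ext
          change g⁻¹ * (g * k) = k
          rw [inv_mul_cancel_left] }
  rw [← Finset.sum_fiberwise_of_maps_to (s := Finset.univ) (t := Finset.univ) (g := π)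
    (fun _ _ => Finset.mem_univ _), Finset.mul_sum]
  refine Finset.sum_congr rfl fun r _ => ?_
  rw [← h1 r]
  rw [Finset.sum_congr rfl (g := fun _ => F r)
    (fun x hx => by rw [(Finset.mem_filter.1 hx).2]), Finset.sum_const, nsmul_eq_mul]

/-- inflation of induced functions -/
theorem ind_infl {R : Type} [Group R] [Finite R] (π : G →* R)
    (hπ : Function.Surjective π) (H : Subgroup R) (η : H → ℂ) (H' : Subgroup G)
    (hH' : ∀ g, g ∈ H' ↔ π g ∈ H) (η' : H' → ℂ)
    (hη : ∀ (g : G) (h' : g ∈ H') (h : π g ∈ H), η' ⟨g, h'⟩ = η ⟨π g, h⟩) (g : G) :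
    Ind H η (π g) = Ind H' η' g := by
  have : Fintype G := Fintype.ofFinite G
  have : Fintype R := Fintype.ofFinite R
  have hext : ∀ x : G, ext H' η' x = ext H η (π x) := by
    intro x
    by_cases hx : π x ∈ H
    · rw [ext_mem hx, ext_mem ((hH' x).2 hx), hη]
    · rw [ext_not_mem hx, ext_not_mem (fun h => hx ((hH' x).1 h))]
  have hcard : (Nat.card H' : ℂ) = Nat.card π.ker * Nat.card H := by
    have h1 := sum_fib π hπ (fun r => if r ∈ H then (1 : ℂ) else 0)
    rw [← Finset.sum_filter, ← Finset.sum_filter, Finset.sum_const, Finset.sum_const,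
      nsmul_eq_mul, nsmul_eq_mul, mul_one, mul_one, ← Fintype.card_subtype,
      ← Fintype.card_subtype, ← Nat.card_eq_fintype_card, ← Nat.card_eq_fintype_card] at h1
    rw [Nat.card_congr (Equiv.subtypeEquivRight (fun x => (hH' x).symm))] at h1
    exact h1
  rw [ind_eq, ind_eq, hcard]
  have h2 : ∑ x : G, ext H' η' (x⁻¹ * g * x) =
      (Nat.card π.ker : ℂ) * ∑ r : R, ext H η (r⁻¹ * π g * r) := by
    rw [← sum_fib π hπ (fun r => ext H η (r⁻¹ * π g * r))]
    refine Finset.sum_congr rfl fun x _ => ?_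
    rw [hext, map_mul, map_mul, map_inv]
  rw [h2]
  have h3 := card_ne π.ker
  have h4 := card_ne H
  field_simp

/-- the sum over an orbit of an equivariant family is an induced function -/
theorem orbit_sum {Y : Type} [MulAction G Y] [Finite Y] (F : Y → G → ℂ)
    (h0 : ∀ y g, g • y ≠ y → F y g = 0) (heq : ∀ (h : G) y g, F (h • y) (h * g * h⁻¹) = F y g)
    (y₀ : Y) (g : G) :
    Ind (MulAction.stabilizer G y₀) (fun h => F y₀ h) g = ∑ᶠ y : MulAction.orbit G y₀, F y g := by
  have : Fintype G := Fintype.ofFinite G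
  have : Fintype Y := Fintype.ofFinite Y
  have : Fintype (MulAction.orbit G y₀) := Fintype.ofFinite _
  have : Fintype (MulAction.stabilizer G y₀) := Fintype.ofFinite _
  have hext : ∀ z : G, ext (MulAction.stabilizer G y₀) (fun h => F y₀ h) z = F y₀ z := by
    intro z
    by_cases hz : z ∈ MulAction.stabilizer G y₀
    · rw [ext_mem hz]
    · rw [ext_not_mem hz, h0 y₀ z hz]
  rw [ind_eq, finsum_eq_sum_of_fintype]
  have h1 : ∀ x : G, ext (MulAction.stabilizer G y₀) (fun h => F y₀ h) (x⁻¹ * g * x) =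
      F (x • y₀) g := by
    intro x
    rw [hext, ← heq x y₀ (x⁻¹ * g * x)]
    congr 1
    group
  rw [Finset.sum_congr rfl fun x _ => h1 x]
  let q : G → MulAction.orbit G y₀ := fun x => ⟨x • y₀, MulAction.mem_orbit _ _⟩
  have hfib : ∀ y : MulAction.orbit G y₀,
      (Finset.univ.filter fun x : G => q x = y).card = Nat.card (MulAction.stabilizer G y₀) := by
    rintro ⟨_, ⟨x₀, rfl⟩⟩
    rw [← Fintype.card_subtype, ← Nat.card_eq_fintype_card]
    refine Nat.card_congr ?_
    exact
      { toFun := fun x => ⟨x₀⁻¹ * x, by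
          have h2 : (x : G) • y₀ = x₀ • y₀ := congrArg Subtype.val x.2
          rw [MulAction.mem_stabilizer_iff, mul_smul, h2, inv_smul_smul]⟩
        invFun := fun k => ⟨x₀ * k, by
          apply Subtype.ext
          change (x₀ * (k : G)) • y₀ = x₀ • y₀
          rw [mul_smul, MulAction.mem_stabilizer_iff.1 k.2]⟩
        left_inv := fun x => by
          apply Subtype.ext
          change x₀ * (x₀⁻¹ * x) = x
          rw [mul_inv_cancel_left]
        right_inv := fun k => by
          apply Subtype.ext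
          change x₀⁻¹ * (x₀ * k) = k
          rw [inv_mul_cancel_left] }
  have h2 : ∑ x : G, F (x • y₀) g = (Nat.card (MulAction.stabilizer G y₀) : ℂ) *
      ∑ y : MulAction.orbit G y₀, F y g := by
    rw [← Finset.sum_fiberwise_of_maps_to (s := Finset.univ) (t := Finset.univ) (g := q)
      (fun _ _ => Finset.mem_univ _), Finset.mul_sum]
    refine Finset.sum_congr rfl fun y _ => ?_
    rw [← hfib y]
    rw [Finset.sum_congr rfl (g := fun _ => F (y : Y) g)
      (fun x hx => by rw [← (Finset.mem_filter.1 hx).2]), Finset.sum_const, nsmul_eq_mul]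
  rw [h2, inv_mul_cancel_left₀ (card_ne _)]

/-- **equivariant families**: the sum of the family lies in every subgroup which contains the
functions induced from the stabilizers -/
theorem bundle {Y : Type} [MulAction G Y] [Finite Y] (F : Y → G → ℂ)
    (h0 : ∀ y g, g • y ≠ y → F y g = 0) (heq : ∀ (h : G) y g, F (h • y) (h * g * h⁻¹) = F y g)
    (N : AddSubgroup (G → ℂ))
    (hN : ∀ y, Ind (MulAction.stabilizer G y) (fun h => F y h) ∈ N) :
    (fun g => ∑ᶠ y : Y, F y g) ∈ N := by
  have : Fintype G := Fintype.ofFinite G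
  have : Fintype Y := Fintype.ofFinite Y
  have : Fintype (Quotient (MulAction.orbitRel G Y)) := Fintype.ofFinite _
  have h1 : (fun g => ∑ᶠ y : Y, F y g) = ∑ ω : Quotient (MulAction.orbitRel G Y),
      Ind (MulAction.stabilizer G ω.out) (fun h => F ω.out h) := by
    funext g
    rw [Finset.sum_apply, finsum_eq_sum_of_fintype]
    let mk : Y → Quotient (MulAction.orbitRel G Y) := Quotient.mk _
    rw [← Finset.sum_fiberwise_of_maps_to (s := Finset.univ) (t := Finset.univ) (g := mk)
      (fun _ _ => Finset.mem_univ _)]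
    refine Finset.sum_congr rfl fun ω _ => ?_
    rw [orbit_sum F h0 heq]
    have : Fintype (MulAction.orbit G ω.out) := Fintype.ofFinite _
    rw [finsum_eq_sum_of_fintype]
    refine Finset.sum_subtype _ (fun y => ?_) (fun y => F y g)
    rw [Finset.mem_filter]
    constructor
    · rintro ⟨-, h2⟩
      have h3 : mk y = mk ω.out := by rw [h2]; exact (Quotient.out_eq ω).symm
      exact MulAction.orbitRel_apply.1 (Quotient.exact h3)
    · intro h2
      refine ⟨Finset.mem_univ _, ?_⟩
      have h3 : mk y = mk ω.out := Quotient.sound (MulAction.orbitRel_apply.2 h2)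
      rw [h3]
      exact Quotient.out_eq ω
  rw [h1]
  exact N.sum_mem fun ω _ => hN _

end

end Pool.Agent.Q246.BI
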