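import Pool.Agent.Q246.BI.Gal

/-! Characters of absolute Galois groups, induction, passage from finite levels. -/

set_option autoImplicit false
set_option linter.unusedSectionVars false

namespace Pool.Agent.Q246.BI

open NumberField Pool.Agent.Q246.RP
open scoped Classical

section defs
variable {K : Type} [Field K] [NumberField K]

/-- a homomorphism of `Gal(K̄/F)` is smooth if it is trivial on `Gal(K̄/E)` for a finite
extension `E` -/
def Smooth (F : IntermediateField K (AlgebraicClosure K)) {M : Type} [Group M]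
    (τ : F.fixingSubgroup →* M) : Prop :=
  ∃ E : IntermediateField K (AlgebraicClosure K), FiniteDimensional K E ∧
    ∀ g : F.fixingSubgroup, (g : Gal(AlgebraicClosure K/K)) ∈ E.fixingSubgroup → τ g = 1

/-- characters of smooth finite-dimensional complex representations of `Gal(K̄/F)` -/
def IsCharacter (F : IntermediateField K (AlgebraicClosure K)) (χ : F.fixingSubgroup → ℂ) : Prop :=
  ∃ (n : ℕ) (τ : F.fixingSubgroup →* GL (Fin n) ℂ), Smooth F τ ∧
    ∀ g, χ g = (τ g : Matrix (Fin n) (Fin n) ℂ).trace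

/-- induction from `Gal(K̄/F')` to `Gal(K̄/F)`, `F ⊆ F'` -/
noncomputable def induced (F F' : IntermediateField K (AlgebraicClosure K))
    (χ : F'.fixingSubgroup → ℂ) (g : F.fixingSubgroup) : ℂ :=
  ∑ᶠ x : F.fixingSubgroup ⧸ F'.fixingSubgroup.subgroupOf F.fixingSubgroup,
    if h : ((x.out⁻¹ * g * x.out : F.fixingSubgroup) : Gal(AlgebraicClosure K/K)) ∈
      F'.fixingSubgroup then χ ⟨_, h⟩ else 0

end defs

section
variable {K : Type} [Field K] [NumberField K]

/-- open subgroups come from finite extensions -/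
theorem exists_fixed (U : Subgroup (Gal(AlgebraicClosure K/K)))
    (L : IntermediateField K (AlgebraicClosure K)) [FiniteDimensional K L]
    (hU : L.fixingSubgroup ≤ U) :
    ∃ F : IntermediateField K (AlgebraicClosure K), F ≤ L ∧ F.fixingSubgroup = U := by
  have h1 : IsOpen (U : Set (Gal(AlgebraicClosure K/K))) :=
    Subgroup.isOpen_mono hU (IntermediateField.fixingSubgroup_isOpen L)
  have h2 : IsClosed (U : Set (Gal(AlgebraicClosure K/K))) := U.isClosed_of_isOpen h1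
  refine ⟨IntermediateField.fixedField U, ?_, ?_⟩
  · have h3 : IntermediateField.fixedField U ≤ IntermediateField.fixedField L.fixingSubgroup := by
      intro x hx
      rw [IntermediateField.mem_fixedField_iff] at hx ⊢
      exact fun g hg => hx g (hU hg)
    rwa [InfiniteGalois.fixedField_fixingSubgroup] at h3
  · exact InfiniteGalois.fixingSubgroup_fixedField (⟨U, h2⟩ : ClosedSubgroup _)

variable (F₀ L : IntermediateField K (AlgebraicClosure K))

/-- the kernel of `Gal(K̄/F₀) → Gal(L/F₀)` -/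
noncomputable abbrev NN : Subgroup F₀.fixingSubgroup := L.fixingSubgroup.subgroupOf F₀.fixingSubgroup

instance nn_normal [Normal K L] : (NN F₀ L).Normal := by
  have hg : IsGalois K L := {}
  have h1 : L.fixingSubgroup.Normal := inferInstance
  infer_instance

theorem mem_nn (v : F₀.fixingSubgroup) : v ∈ NN F₀ L ↔ ∀ x ∈ L, (v : Gal(AlgebraicClosure K/K)) x = x := by
  rw [Subgroup.mem_subgroupOf, IntermediateField.mem_fixingSubgroup_iff]

theorem fin_index [FiniteDimensional K L] : L.fixingSubgroup.FiniteIndex := by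
  refine ⟨?_⟩
  rw [← IntermediateField.finrank_eq_fixingSubgroup_index]
  exact Module.finrank_pos.ne'

instance nn_finite [FiniteDimensional K L] : Finite (F₀.fixingSubgroup ⧸ NN F₀ L) := by
  have h1 := fin_index L
  have h2 : (NN F₀ L).FiniteIndex := inferInstance
  exact Subgroup.finite_quotient_of_finiteIndex

/-- the field of a subgroup at a finite level -/
theorem exists_field [FiniteDimensional K L] [Normal K L] (hle : F₀ ≤ L)
    (H : Subgroup (F₀.fixingSubgroup ⧸ NN F₀ L)) :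
    ∃ F : IntermediateField K (AlgebraicClosure K), F₀ ≤ F ∧ F ≤ L ∧
      ∀ g : Gal(AlgebraicClosure K/K), g ∈ F.fixingSubgroup ↔
        ∃ hv : g ∈ F₀.fixingSubgroup, QuotientGroup.mk' (NN F₀ L) ⟨g, hv⟩ ∈ H := by
  let U : Subgroup (Gal(AlgebraicClosure K/K)) :=
    (H.comap (QuotientGroup.mk' (NN F₀ L))).map F₀.fixingSubgroup.subtype
  have hU : ∀ g : Gal(AlgebraicClosure K/K), g ∈ U ↔
      ∃ hv : g ∈ F₀.fixingSubgroup, QuotientGroup.mk' (NN F₀ L) ⟨g, hv⟩ ∈ H := by
    intro g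
    constructor
    · rintro ⟨v, hv, rfl⟩
      exact ⟨v.2, hv⟩
    · rintro ⟨hv, h⟩
      exact ⟨⟨g, hv⟩, h, rfl⟩
  have hLU : L.fixingSubgroup ≤ U := by
    intro g hg
    have hv : g ∈ F₀.fixingSubgroup := IntermediateField.fixingSubgroup_antitone hle hg
    refine (hU g).2 ⟨hv, ?_⟩
    have h1 : QuotientGroup.mk' (NN F₀ L) ⟨g, hv⟩ = 1 :=
      (QuotientGroup.eq_one_iff _).2 (Subgroup.mem_subgroupOf.2 hg)
    rw [h1]
    exact H.one_mem
  obtain ⟨F, hFL, hF⟩ := exists_fixed U L hLU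
  refine ⟨F, ?_, hFL, fun g => by rw [hF]; exact hU g⟩
  have h1 : F.fixingSubgroup ≤ F₀.fixingSubgroup := by
    intro g hg
    rw [hF] at hg
    exact ((hU g).1 hg).choose
  have h2 : IntermediateField.fixedField F₀.fixingSubgroup ≤
      IntermediateField.fixedField F.fixingSubgroup := by
    intro x hx
    rw [IntermediateField.mem_fixedField_iff] at hx ⊢
    exact fun g hg => hx g (h1 hg)
  rwa [InfiniteGalois.fixedField_fixingSubgroup, InfiniteGalois.fixedField_fixingSubgroup] at h2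

/-- the linear character of a subgroup at a finite level -/
theorem exists_lin [FiniteDimensional K L] [Normal K L] (hle : F₀ ≤ L)
    (H : Subgroup (F₀.fixingSubgroup ⧸ NN F₀ L)) (ψ : H →* ℂˣ)
    (F : IntermediateField K (AlgebraicClosure K))
    (hF : ∀ g : Gal(AlgebraicClosure K/K), g ∈ F.fixingSubgroup ↔
        ∃ hv : g ∈ F₀.fixingSubgroup, QuotientGroup.mk' (NN F₀ L) ⟨g, hv⟩ ∈ H) :
    ∃ ψ' : F.fixingSubgroup →* ℂˣ, Smooth F ψ' ∧
      (∀ g : F.fixingSubgroup, ∃ h : H, ψ' g = ψ h) ∧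
      ∀ v : F₀.fixingSubgroup, induced F₀ F (fun g => ((ψ' g : ℂˣ) : ℂ)) v =
        Ind H (fun h => ((ψ h : ℂˣ) : ℂ)) (QuotientGroup.mk' (NN F₀ L) v) := by
  let ψ' : F.fixingSubgroup →* ℂˣ :=
    { toFun := fun g => ψ ⟨QuotientGroup.mk' (NN F₀ L) ⟨g, ((hF g).1 g.2).choose⟩,
        ((hF g).1 g.2).choose_spec⟩
      map_one' := map_one ψ
      map_mul' := fun a b => by
        rw [← map_mul]
        rfl }
  have hψ' : ∀ (g : Gal(AlgebraicClosure K/K)) (hg : g ∈ F.fixingSubgroup)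
      (hv : g ∈ F₀.fixingSubgroup) (h : QuotientGroup.mk' (NN F₀ L) ⟨g, hv⟩ ∈ H),
      ψ' ⟨g, hg⟩ = ψ ⟨QuotientGroup.mk' (NN F₀ L) ⟨g, hv⟩, h⟩ := fun g hg hv h => rfl
  refine ⟨ψ', ⟨L, inferInstance, fun g hg => ?_⟩, fun g => ⟨_, rfl⟩, fun v => ?_⟩
  · have hv : (g : Gal(AlgebraicClosure K/K)) ∈ F₀.fixingSubgroup := ((hF g).1 g.2).choose
    have h1 : QuotientGroup.mk' (NN F₀ L) ⟨g, hv⟩ = 1 :=
      (QuotientGroup.eq_one_iff _).2 (Subgroup.mem_subgroupOf.2 hg)
    have h2 : QuotientGroup.mk' (NN F₀ L) ⟨g, hv⟩ ∈ H := by rw [h1]; exact H.one_mem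
    rw [show ψ' g = ψ ⟨QuotientGroup.mk' (NN F₀ L) ⟨g, hv⟩, h2⟩ from hψ' g g.2 hv h2, ← map_one ψ]
    congr 1
    exact Subtype.ext h1
  · rw [← ind_coset (QuotientGroup.mk' (NN F₀ L)) (QuotientGroup.mk'_surjective _) H _
      (fun a b => by rw [map_mul, map_mul, map_inv, mul_comm, mul_inv_cancel_left])
      (F.fixingSubgroup.subgroupOf F₀.fixingSubgroup) (fun w => ?_) v]
    · unfold induced
      refine finsum_congr fun x => ?_
      by_cases hx : ((x.out⁻¹ * v * x.out : F₀.fixingSubgroup) : Gal(AlgebraicClosure K/K)) ∈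
        F.fixingSubgroup
      · rw [dif_pos hx]
        obtain ⟨hv, h⟩ := (hF _).1 hx
        rw [ext_mem h]
        exact congrArg Units.val (hψ' _ hx hv h)
      · rw [dif_neg hx]
        symm
        apply ext_not_mem
        intro h
        exact hx ((hF _).2 ⟨(x.out⁻¹ * v * x.out : F₀.fixingSubgroup).2, h⟩)
    · rw [Subgroup.mem_subgroupOf, hF]
      exact ⟨fun ⟨_, h⟩ => h, fun h => ⟨w.2, h⟩⟩

/-- inflation of characters -/
theorem isCharacter_of_isCh [FiniteDimensional K L] [Normal K L]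
    {χ : (F₀.fixingSubgroup ⧸ NN F₀ L) → ℂ} (h : IsCh χ) :
    IsCharacter F₀ (fun v => χ (QuotientGroup.mk' (NN F₀ L) v)) := by
  obtain ⟨n, τ, hτ⟩ := h
  refine ⟨n, (τ.comp (QuotientGroup.mk' (NN F₀ L))).toHomUnits, ⟨L, inferInstance, fun g hg => ?_⟩,
    fun g => hτ _⟩
  apply Units.ext
  change τ (QuotientGroup.mk' (NN F₀ L) g) = 1
  have h1 : QuotientGroup.mk' (NN F₀ L) g = 1 :=
    (QuotientGroup.eq_one_iff _).2 (Subgroup.mem_subgroupOf.2 hg)
  rw [h1, map_one]

/-- descent of characters -/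
theorem isCh_of_isCharacter [Normal K L]
    {χ : F₀.fixingSubgroup → ℂ} {n : ℕ} {τ : F₀.fixingSubgroup →* GL (Fin n) ℂ}
    (hτ : ∀ g, χ g = (τ g : Matrix (Fin n) (Fin n) ℂ).trace)
    (hL : ∀ g : F₀.fixingSubgroup, (g : Gal(AlgebraicClosure K/K)) ∈ L.fixingSubgroup → τ g = 1) :
    ∃ χ' : (F₀.fixingSubgroup ⧸ NN F₀ L) → ℂ, IsCh χ' ∧
      ∀ v, χ v = χ' (QuotientGroup.mk' (NN F₀ L) v) := by
  let τ' : (F₀.fixingSubgroup ⧸ NN F₀ L) →* GL (Fin n) ℂ :=
    QuotientGroup.lift (NN F₀ L) τ fun g hg => hL g (Subgroup.mem_subgroupOf.1 hg)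
  refine ⟨fun v => (τ' v : Matrix (Fin n) (Fin n) ℂ).trace,
    ⟨n, (Units.coeHom _).comp τ', fun g => rfl⟩, fun v => ?_⟩
  rw [hτ]
  rfl

/-- the image of the complex conjugations -/
def SS [Normal K L] : Set (F₀.fixingSubgroup ⧸ NN F₀ L) :=
  {s | ∃ t : F₀.fixingSubgroup, IsCC (t : Gal(AlgebraicClosure K/K)) ∧
    QuotientGroup.mk' (NN F₀ L) t = s}

theorem totally_complex [FiniteDimensional K L] [Normal K L]
    (H : Subgroup (F₀.fixingSubgroup ⧸ NN F₀ L)) (hH : ∀ s ∈ SS F₀ L, s ∉ H)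
    (F : IntermediateField K (AlgebraicClosure K))
    (hF : ∀ g : Gal(AlgebraicClosure K/K), g ∈ F.fixingSubgroup ↔
        ∃ hv : g ∈ F₀.fixingSubgroup, QuotientGroup.mk' (NN F₀ L) ⟨g, hv⟩ ∈ H) :
    IsEmpty (F →+* ℝ) := by
  by_contra hne
  rw [not_isEmpty_iff] at hne
  obtain ⟨t, ht, htF⟩ := real_cc F hne
  obtain ⟨hv, h⟩ := (hF t).1 ((IntermediateField.mem_fixingSubgroup_iff _ _).2 htF)
  exact hH _ ⟨⟨t, hv⟩, ht, rfl⟩ h

end

end Pool.Agent.Q246.BI
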