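import Pool.Agent.Q246.BI.Cos

/-! The rational (Artin type) version at a finite level. -/

set_option autoImplicit false
set_option linter.unusedSectionVars false

namespace Pool.Agent.Q246.BI

open MulAction
open scoped Classical

section
variable {G : Type} [Group G] [Finite G]

/-- fixed point counts of finite `G`-sets with cyclic stabilizers -/
def PermCyc {G : Type} [Group G] (f : G → ℕ) : Prop :=
  ∃ (X : Type) (_ : MulAction G X) (_ : Finite X),
    (∀ x : X, IsCyclic (stabilizer G x)) ∧ ∀ g : G, f g = Nat.card {x : X // g • x = x}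

theorem PermCyc.zero : PermCyc (fun _ : G => 0) := by
  let _ : MulAction G Empty := { smul := fun _ x => x, one_smul := fun x => rfl, mul_smul := fun _ _ x => rfl }
  exact ⟨Empty, inferInstance, inferInstance, fun x => x.elim, fun g => by simp⟩

theorem cyc_inj {W V : Type} [Group W] [Group V] (f : W →* V) (hf : Function.Injective f)
    (h : IsCyclic V) : IsCyclic W := isCyclic_of_injective f hf

theorem PermCyc.add {f f' : G → ℕ} (hf : PermCyc f) (hf' : PermCyc f') :
    PermCyc (fun g => f g + f' g) := by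
  obtain ⟨X, _, _, h1, h2⟩ := hf
  obtain ⟨X', _, _, h1', h2'⟩ := hf'
  refine ⟨X ⊕ X', inferInstance, inferInstance, ?_, fun g => ?_⟩
  · rintro (x | x)
    · have hle : stabilizer G (Sum.inl x : X ⊕ X') ≤ stabilizer G x := by
        intro g hg
        rw [mem_stabilizer_iff] at hg ⊢
        exact Sum.inl_injective hg
      exact cyc_inj (Subgroup.inclusion hle) (Subgroup.inclusion_injective hle) (h1 x)
    · have hle : stabilizer G (Sum.inr x : X ⊕ X') ≤ stabilizer G x := by
        intro g hg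
        rw [mem_stabilizer_iff] at hg ⊢
        exact Sum.inr_injective hg
      exact cyc_inj (Subgroup.inclusion hle) (Subgroup.inclusion_injective hle) (h1' x)
  · rw [Nat.card_congr (Equiv.subtypeSum (α := X) (β := X') (p := fun c => g • c = c)),
      Nat.card_sum]
    simp only
    rw [h2, h2']
    congr 1
    · refine Nat.card_congr (Equiv.subtypeEquivRight fun x => ?_)
      exact ⟨fun h => by rw [Sum.smul_inl, h], fun h => Sum.inl_injective h⟩
    · refine Nat.card_congr (Equiv.subtypeEquivRight fun x => ?_)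
      exact ⟨fun h => by rw [Sum.smul_inr, h], fun h => Sum.inr_injective h⟩

theorem PermCyc.mul {f f' : G → ℕ} (hf : PermCyc f) (hf' : PermCyc f') :
    PermCyc (fun g => f g * f' g) := by
  obtain ⟨X, _, _, h1, h2⟩ := hf
  obtain ⟨X', _, _, h1', h2'⟩ := hf'
  refine ⟨X × X', inferInstance, inferInstance, ?_, fun g => ?_⟩
  · rintro ⟨x, y⟩
    have hle : stabilizer G ((x, y) : X × X') ≤ stabilizer G x := by
      intro g hg
      rw [mem_stabilizer_iff] at hg ⊢
      exact congrArg Prod.fst hg
    exact cyc_inj (Subgroup.inclusion hle) (Subgroup.inclusion_injective hle) (h1 x)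
  · simp only
    rw [h2, h2', ← Nat.card_prod]
    refine Nat.card_congr (Equiv.trans (Equiv.subtypeProdEquivProd).symm
      (Equiv.subtypeEquivRight fun x => ?_))
    rw [Prod.ext_iff]
    rfl

theorem PermCyc.nsmul {f : G → ℕ} (hf : PermCyc f) (n : ℕ) : PermCyc (fun g => n * f g) := by
  induction n with
  | zero => simpa using PermCyc.zero
  | succ n ih =>
    have h1 := ih.add hf
    refine cast (congrArg PermCyc ?_) h1
    funext g
    ring

theorem permCyc_at (a : G) : ∃ f : G → ℕ, PermCyc f ∧ 0 < f a := by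
  let C := Subgroup.zpowers a
  refine ⟨fun h => Nat.card {x : G ⧸ C // h • x = x}, ⟨G ⧸ C, inferInstance, inferInstance, ?_,
    fun h => rfl⟩, ?_⟩
  · intro q
    induction q using QuotientGroup.induction_on with | _ x => ?_
    let f : stabilizer G ((x : G) : G ⧸ C) →* C :=
      { toFun := fun y => ⟨x⁻¹ * y * x, by
          have h2 := y.2
          rw [mem_stabilizer_iff] at h2
          have h3 : ((↑((y : G) * x) : G ⧸ C)) = x := h2
          rw [QuotientGroup.eq] at h3
          have h4 := C.inv_mem h3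
          have : (((y : G) * x)⁻¹ * x)⁻¹ = x⁻¹ * y * x := by group
          rwa [this] at h4⟩
        map_one' := by apply Subtype.ext; simp
        map_mul' := by
          intro y z
          apply Subtype.ext
          simp only [Subgroup.coe_mul]
          group }
    refine cyc_inj f ?_ inferInstance
    intro y z hyz
    apply Subtype.ext
    have h2 := congrArg Subtype.val hyz
    change x⁻¹ * (y : G) * x = x⁻¹ * (z : G) * x at h2
    exact mul_left_cancel (mul_right_cancel h2)
  · have hfin : Finite {x : G ⧸ C // a • x = x} := inferInstance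
    have h1 : Nonempty {x : G ⧸ C // a • x = x} := ⟨⟨((1 : G) : G ⧸ C), by
      change ((a * 1 : G) : G ⧸ C) = ((1 : G) : G ⧸ C)
      rw [mul_one, eq_comm, QuotientGroup.eq, inv_one, one_mul]
      exact Subgroup.mem_zpowers a⟩⟩
    exact Nat.card_pos

/-- **Artin's theorem** -/
theorem artin_cyc : ∃ (m : ℕ) (f₁ f₂ : G → ℕ), 0 < m ∧ PermCyc f₁ ∧ PermCyc f₂ ∧
    ∀ g, f₁ g = f₂ g + m := by
  have : Fintype G := Fintype.ofFinite G
  have key : ∀ s : Finset G, ∃ (m : ℕ) (f₁ f₂ : G → ℕ), 0 < m ∧ PermCyc f₁ ∧ PermCyc f₂ ∧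
      ∀ g ∈ s, f₁ g = f₂ g + m := by
    intro s
    induction s using Finset.induction_on with
    | empty => exact ⟨1, _, _, Nat.one_pos, PermCyc.zero, PermCyc.zero,
        fun g hg => absurd hg (Finset.notMem_empty g)⟩
    | insert a s ha ih =>
      obtain ⟨m, f₁, f₂, hm, h1, h2, h3⟩ := ih
      obtain ⟨e, he, hea⟩ := permCyc_at a
      -- `(m - d)(k - e) = m k - (k d + m e - d e)`
      refine ⟨m * e a, fun g => (e a * f₁ g + m * e g) + f₂ g * e g,
        fun g => (e a * f₂ g + f₁ g * e g), Nat.mul_pos hm hea,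
        ((h1.nsmul _).add (he.nsmul _)).add (h2.mul he), (h2.nsmul _).add (h1.mul he),
        fun g hg => ?_⟩
      rcases Finset.mem_insert.1 hg with rfl | hg
      · ring
      · change e a * f₁ g + m * e g + f₂ g * e g = e a * f₂ g + f₁ g * e g + m * e a
        rw [h3 g hg]
        ring
  obtain ⟨m, f₁, f₂, hm, h1, h2, h3⟩ := key Finset.univ
  exact ⟨m, f₁, f₂, hm, h1, h2, fun g => h3 g (Finset.mem_univ g)⟩

/-- characters of abelian groups -/
theorem abel_mem (hab : ∀ a b : G, a * b = b * a) (χ : G → ℂ) (hχ : IsCh χ) :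
    χ ∈ AddSubgroup.closure {f : G → ℂ | ∃ ψ : G →* ℂˣ, f = fun g => ((ψ g : ℂˣ) : ℂ)} := by
  have : Fintype G := Fintype.ofFinite G
  refine clifford (⊤ : Subgroup G) (fun g a _ => Subgroup.mem_top _)
    (fun a b => Subtype.ext (hab a b)) _ ?_ χ hχ
  intro ψ W _ _ _ ρ hρ
  let ψ' : G →* ℂˣ :=
    { toFun := fun h => ψ ⟨h, Subgroup.mem_top _⟩
      map_one' := map_one ψ
      map_mul' := fun a b => by
        rw [← map_mul]
        rfl }
  have htop : ∀ g : G, g ∈ St (⊤ : Subgroup G) (fun g a _ => Subgroup.mem_top _) ψ := by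
    intro g a
    have h1 : (⟨g⁻¹ * a * g, Subgroup.mem_top _⟩ : (⊤ : Subgroup G)) = a := by
      apply Subtype.ext
      change g⁻¹ * (a : G) * g = a
      rw [hab g⁻¹, mul_assoc, inv_mul_cancel, mul_one]
    rw [h1]
  have hval : ∀ (g : G) (hg : g ∈ St (⊤ : Subgroup G) (fun g a _ => Subgroup.mem_top _) ψ),
      LinearMap.trace ℂ W (ρ ⟨g, hg⟩) = Module.finrank ℂ W * ((ψ' g : ℂˣ) : ℂ) := by
    intro g hg
    rw [hρ ⟨g, hg⟩ (Subgroup.mem_top _), map_smul, LinearMap.trace_one, smul_eq_mul, mul_comm]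
    rfl
  have h1 : Ind (St (⊤ : Subgroup G) (fun g a _ => Subgroup.mem_top _) ψ)
      (fun h => LinearMap.trace ℂ W (ρ h)) = Module.finrank ℂ W • fun g => ((ψ' g : ℂˣ) : ℂ) := by
    funext g
    rw [ind_eq]
    have h2 : ∀ x : G, ext (St (⊤ : Subgroup G) (fun g a _ => Subgroup.mem_top _) ψ)
        (fun h => LinearMap.trace ℂ W (ρ h)) (x⁻¹ * g * x) =
        Module.finrank ℂ W * ((ψ' g : ℂˣ) : ℂ) := by
      intro x
      rw [ext_mem (htop _), hval, hab x⁻¹, mul_assoc, inv_mul_cancel, mul_one]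
    rw [Finset.sum_congr rfl fun x _ => h2 x, Finset.sum_const, nsmul_eq_mul, Finset.card_univ,
      ← Nat.card_eq_fintype_card, ← mul_assoc]
    have h3 : Nat.card (St (⊤ : Subgroup G) (fun g a _ => Subgroup.mem_top _) ψ) = Nat.card G := by
      refine Nat.card_congr ?_
      exact
        { toFun := fun g => g
          invFun := fun g => ⟨g, htop g⟩
          left_inv := fun g => rfl
          right_inv := fun g => rfl }
    have h4 : (Nat.card G : ℂ) ≠ 0 := by exact_mod_cast Nat.card_pos.ne'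
    rw [h3, inv_mul_cancel₀ h4, one_mul, Pi.smul_apply, nsmul_eq_mul]
  rw [h1]
  refine AddSubgroup.nsmul_mem _ (AddSubgroup.subset_closure ?_) _
  exact ⟨ψ', rfl⟩

/-- the group generated by functions induced from linear characters of the subgroups with a
property and by the permutation characters -/
def Tor (P : Subgroup G → Prop) : AddSubgroup (G → ℂ) :=
  AddSubgroup.closure {f | ∃ (H : Subgroup G) (ψ : H →* ℂˣ), (P H ∨ ψ = 1) ∧
    f = Ind H (fun h => ((ψ h : ℂˣ) : ℂ))}

theorem lin_ind (ψ : G →* ℂˣ) :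
    (fun g => ((ψ g : ℂˣ) : ℂ)) = Ind ⊤ (fun h => ((ψ h : ℂˣ) : ℂ)) := by
  have : Fintype G := Fintype.ofFinite G
  funext g
  rw [ind_eq]
  have h1 : ∀ x : G, ext (⊤ : Subgroup G) (fun h => ((ψ h : ℂˣ) : ℂ)) (x⁻¹ * g * x) =
      ((ψ g : ℂˣ) : ℂ) := by
    intro x
    rw [ext_mem (Subgroup.mem_top _)]
    change ((ψ (x⁻¹ * g * x) : ℂˣ) : ℂ) = _
    rw [map_mul, map_mul, map_inv, mul_comm, mul_inv_cancel_left]
  rw [Finset.sum_congr rfl fun x _ => h1 x, Finset.sum_const, nsmul_eq_mul, Finset.card_univ,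
    ← Nat.card_eq_fintype_card, ← mul_assoc]
  have h2 : Nat.card (⊤ : Subgroup G) = Nat.card G := Nat.card_congr Subgroup.topEquiv.toEquiv
  have h3 : (Nat.card G : ℂ) ≠ 0 := by exact_mod_cast Nat.card_pos.ne'
  rw [h2, inv_mul_cancel₀ h3, one_mul]

/-- quadratic characters are differences of permutation characters -/
theorem quad_ind (ψ : G →* ℂˣ) (h2 : ∀ g, ψ g * ψ g = 1) (hne : ψ ≠ 1) :
    (fun g => ((ψ g : ℂˣ) : ℂ)) = Ind ψ.ker (fun _ => 1) - Ind ⊤ (fun _ => 1) := by
  have : Fintype G := Fintype.ofFinite G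
  have htop := lin_ind (1 : G →* ℂˣ)
  simp only [MonoidHom.one_apply, Units.val_one] at htop
  have hval : ∀ g, ψ g = 1 ∨ ((ψ g : ℂˣ) : ℂ) = -1 := by
    intro g
    have h3 : ((ψ g : ℂˣ) : ℂ) * ((ψ g : ℂˣ) : ℂ) = 1 := by
      rw [← Units.val_mul, h2, Units.val_one]
    rcases mul_self_eq_one_iff.1 h3 with h | h
    · left
      exact Units.ext h
    · right
      exact h
  obtain ⟨g₀, hg₀⟩ : ∃ g₀, ψ g₀ ≠ 1 := by
    by_contra hcon
    push Not at hcon
    exact hne (MonoidHom.ext hcon)
  have hg₀' : ((ψ g₀ : ℂˣ) : ℂ) = -1 := (hval g₀).resolve_left hg₀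
  -- the index of the kernel is two
  have hcard : (Nat.card G : ℂ) = 2 * Nat.card ψ.ker := by
    have h3 : ∑ g : G, ((ψ g : ℂˣ) : ℂ) = 0 := by
      have h4 : ∑ g : G, ((ψ g : ℂˣ) : ℂ) = -∑ g : G, ((ψ g : ℂˣ) : ℂ) := by
        nth_rewrite 1 [← Equiv.sum_comp (Equiv.mulLeft g₀) (fun g => ((ψ g : ℂˣ) : ℂ))]
        rw [← Finset.sum_neg_distrib]
        refine Finset.sum_congr rfl fun g _ => ?_
        change ((ψ (g₀ * g) : ℂˣ) : ℂ) = _
        rw [map_mul, Units.val_mul, hg₀', neg_one_mul]
      have h5 : (2 : ℂ) * ∑ g : G, ((ψ g : ℂˣ) : ℂ) = 0 := by linear_combination h4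
      exact (mul_eq_zero.1 h5).resolve_left two_ne_zero
    have h6 : ∑ g : G, (((ψ g : ℂˣ) : ℂ) + 1) = Nat.card G := by
      rw [Finset.sum_add_distrib, h3, zero_add, Finset.sum_const, nsmul_eq_mul, mul_one,
        Finset.card_univ, Nat.card_eq_fintype_card]
    rw [← h6]
    have h7 : ∀ g : G, ((ψ g : ℂˣ) : ℂ) + 1 = if g ∈ ψ.ker then 2 else 0 := by
      intro g
      split_ifs with hg
      · rw [MonoidHom.mem_ker.1 hg, Units.val_one]
        norm_num
      · rw [(hval g).resolve_left hg]
        norm_num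
    rw [Finset.sum_congr rfl fun g _ => h7 g, ← Finset.sum_filter, Finset.sum_const, nsmul_eq_mul,
      ← Fintype.card_subtype, ← Nat.card_eq_fintype_card, mul_comm]
  rw [← htop]
  funext g
  rw [Pi.sub_apply, ind_eq]
  have hconj : ∀ x : G, ext ψ.ker (fun _ => (1 : ℂ)) (x⁻¹ * g * x) = if ψ g = 1 then 1 else 0 := by
    intro x
    have h3 : ψ (x⁻¹ * g * x) = ψ g := by
      rw [map_mul, map_mul, map_inv, mul_comm, mul_inv_cancel_left]
    split_ifs with hg
    · exact ext_mem (MonoidHom.mem_ker.2 (h3.trans hg))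
    · exact ext_not_mem (fun h => hg (by rw [← h3]; exact MonoidHom.mem_ker.1 h))
  rw [Finset.sum_congr rfl fun x _ => hconj x, Finset.sum_const, nsmul_eq_mul, Finset.card_univ,
    ← Nat.card_eq_fintype_card, hcard]
  have hk := card_ne ψ.ker
  split_ifs with hg
  · rw [hg, Units.val_one]
    field_simp
    norm_num
  · rw [(hval g).resolve_left hg]
    simp

theorem tor_perm (P : Subgroup G → Prop) (H : Subgroup G) : Ind H (fun _ => 1) ∈ Tor P := by
  refine AddSubgroup.subset_closure ⟨H, 1, Or.inr rfl, ?_⟩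
  simp

theorem ind_sub (H : Subgroup G) (η η' : H → ℂ) : Ind H (η - η') = Ind H η - Ind H η' := by
  rw [sub_eq_add_neg, ind_add, ind_neg, ← sub_eq_add_neg]

theorem ind_perm (H : Subgroup G) (K : Subgroup H) :
    Ind H (Ind K (fun _ => 1)) = Ind (K.map H.subtype) (fun _ => 1) := by
  refine ind_trans H K _ _ ?_ _ fun k hk hk' => rfl
  intro g
  constructor
  · rintro ⟨k, hk, rfl⟩
    exact ⟨k.2, hk⟩
  · rintro ⟨h, hk⟩
    exact ⟨⟨g, h⟩, hk, rfl⟩

variable {R : Type} [Group R] [Finite R]

/-- **The rational theorem at a finite level.** -/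
theorem tor_main (π : G →* R) (S : Set G) (hS2 : ∀ t ∈ S, t * t = 1)
    (hcent : ∀ t ∈ S, ∀ g, g * t = t * g → π g = 1 ∨ π g = π t)
    (P : Subgroup G → Prop) (hP : ∀ H : Subgroup G, IsCyclic H → (∀ s ∈ S, s ∉ H) → P H)
    (χ : R → ℂ) (hχ : IsCh χ) : ∃ m : ℕ, 0 < m ∧ (m • fun g => χ (π g)) ∈ Tor P := by
  obtain ⟨m, f₁, f₂, hm, ⟨X, i1, i2, h1, h2⟩, ⟨X', i3, i4, h3, h4⟩, h5⟩ := artin_cyc (G := G)
  have hcl : ∀ g h : G, χ (π (h * g * h⁻¹)) = χ (π g) := by
    intro g h
    rw [map_mul, map_mul, map_inv, ch_conj hχ]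
  have key : ∀ H : Subgroup G, IsCyclic H → Ind H (fun h => χ (π h)) ∈ Tor P := by
    intro H hH
    have hab : ∀ a b : H, a * b = b * a := by
      obtain ⟨c, hc⟩ := hH
      intro a b
      obtain ⟨i, rfl⟩ := hc a
      obtain ⟨j, rfl⟩ := hc b
      change c ^ i * c ^ j = c ^ j * c ^ i
      rw [← zpow_add, ← zpow_add, add_comm]
    by_cases hST : ∃ t ∈ S, t ∈ H
    · obtain ⟨t, ht, htH⟩ := hST
      let f : H →* R := π.comp H.subtype
      have hf : ∀ u : H, f u = 1 ∨ f u = π t := fun u => by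
        refine hcent t ht u ?_
        exact congrArg Subtype.val (hab u ⟨t, htH⟩)
      have hpt : π t * π t = 1 := by rw [← map_mul, hS2 t ht, map_one]
      have hsq : ∀ r : f.range, r * r = 1 := by
        rintro ⟨_, ⟨u, rfl⟩⟩
        apply Subtype.ext
        change f u * f u = 1
        rcases hf u with h | h
        · rw [h, mul_one]
        · rw [h, hpt]
      have habR : ∀ a b : f.range, a * b = b * a := by
        intro a b
        have h6 := hsq (a * b)
        have ha := hsq a
        have hb := hsq b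
        have h7 : a * b = (a * b)⁻¹ := eq_inv_of_mul_eq_one_left h6
        have ha' : a⁻¹ = a := inv_eq_of_mul_eq_one_left ha
        have hb' : b⁻¹ = b := inv_eq_of_mul_eq_one_left hb
        rw [mul_inv_rev, ha', hb'] at h7
        exact h7
      have h6 := abel_mem habR (fun r : f.range => χ r) (isCh_comp f.range.subtype hχ)
      have h7 : ∀ η : f.range → ℂ, η ∈ AddSubgroup.closure
          {f' : f.range → ℂ | ∃ ψ : f.range →* ℂˣ, f' = fun g => ((ψ g : ℂˣ) : ℂ)} →
          Ind H (fun h => η (f.rangeRestrict h)) ∈ Tor P := by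
        intro η hη
        induction hη using AddSubgroup.closure_induction with
        | mem f' hf' =>
          obtain ⟨ψ, rfl⟩ := hf'
          let ψ' : H →* ℂˣ := ψ.comp f.rangeRestrict
          by_cases hψ : ψ' = 1
          · have h8 : (fun h : H => (fun g => ((ψ g : ℂˣ) : ℂ)) (f.rangeRestrict h)) =
                fun _ => 1 := by
              funext h
              have h9 := DFunLike.congr_fun hψ h
              change ((ψ' h : ℂˣ) : ℂ) = 1
              rw [hψ]
              rfl
            rw [h8]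
            exact tor_perm P H
          · have h8 : (fun h : H => (fun g => ((ψ g : ℂˣ) : ℂ)) (f.rangeRestrict h)) =
                Ind ψ'.ker (fun _ => 1) - Ind ⊤ (fun _ => 1) := by
              refine quad_ind ψ' (fun g => ?_) hψ
              change ψ (f.rangeRestrict g) * ψ (f.rangeRestrict g) = 1
              rw [← map_mul, hsq, map_one]
            rw [h8, ind_sub, ind_perm, ind_perm]
            exact (Tor P).sub_mem (tor_perm P _) (tor_perm P _)
        | zero =>
          have h8 : (fun h : H => (0 : f.range → ℂ) (f.rangeRestrict h)) = 0 := rfl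
          rw [h8, ind_zero]
          exact zero_mem _
        | add a b _ _ ha hb =>
          have h8 : (fun h : H => (a + b) (f.rangeRestrict h)) =
            (fun h : H => a (f.rangeRestrict h)) + fun h : H => b (f.rangeRestrict h) := rfl
          rw [h8, ind_add]
          exact add_mem ha hb
        | neg a _ ha =>
          have h8 : (fun h : H => (-a) (f.rangeRestrict h)) =
            -(fun h : H => a (f.rangeRestrict h)) := rfl
          rw [h8, ind_neg]
          exact neg_mem ha
      exact h7 _ h6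
    · push Not at hST
      have hPH := hP H hH hST
      have h6 := abel_mem hab (fun h : H => χ (π h)) (isCh_comp H.subtype (isCh_comp π hχ))
      have h7 : ∀ η : H → ℂ, η ∈ AddSubgroup.closure
          {f' : H → ℂ | ∃ ψ : H →* ℂˣ, f' = fun g => ((ψ g : ℂˣ) : ℂ)} → Ind H η ∈ Tor P := by
        intro η hη
        induction hη using AddSubgroup.closure_induction with
        | mem f' hf' =>
          obtain ⟨ψ, rfl⟩ := hf'
          exact AddSubgroup.subset_closure ⟨H, ψ, Or.inl hPH, rfl⟩
        | zero => rw [ind_zero]; exact zero_mem _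
        | add a b _ _ ha hb => rw [ind_add]; exact add_mem ha hb
        | neg a _ ha => rw [ind_neg]; exact neg_mem ha
      exact h7 _ h6
  have h6 := perm_mul h2 (fun g => χ (π g)) hcl (Tor P) fun x => key _ (h1 x)
  have h7 := perm_mul h4 (fun g => χ (π g)) hcl (Tor P) fun x => key _ (h3 x)
  refine ⟨m, hm, ?_⟩
  have h8 : (m • fun g => χ (π g)) =
      (fun g => (f₁ g : ℂ) * χ (π g)) - fun g => (f₂ g : ℂ) * χ (π g) := by
    funext g
    rw [Pi.sub_apply, Pi.smul_apply, h5, nsmul_eq_mul]
    push_cast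
    ring
  rw [h8]
  exact (Tor P).sub_mem h6 h7

end

end Pool.Agent.Q246.BI
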