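import Pool.Agent.Q246.BI.Level
import Pool.Agent.Q246.BI.Tor
import Pool.Agent.Q5.HR.Crit

/-! Induction theorems for the characters of absolute Galois groups of number fields. -/

set_option autoImplicit false
set_option linter.unusedSectionVars false

namespace Pool.Agent.Q246.BI

open NumberField Pool.Agent.Q246.RP
open scoped Classical

section
variable {K : Type} [Field K] [NumberField K]

/-- a finite extension containing, for every automorphism, a fixed field of degree divisible by `M` -/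
theorem exists_deg {M : ℕ} (hM : 0 < M) : ∃ L₂ : IntermediateField K (AlgebraicClosure K),
    FiniteDimensional K L₂ ∧ ∀ σ : Gal(AlgebraicClosure K/K),
      ∃ F : IntermediateField K (AlgebraicClosure K), F ≤ L₂ ∧ (∀ x ∈ F, σ x = x) ∧
        FiniteDimensional K F ∧ M ∣ Module.finrank K F := by
  obtain ⟨h1, -, h3⟩ := Pool.Agent.Q5.HR.wide_deg (K := K) hM
  choose f hf hfx using h3
  have hfd : ∀ σ, FiniteDimensional K (f σ) := fun σ => (hf σ).1
  obtain ⟨t, -, ht⟩ := isCompact_univ.elim_nhds_subcover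
    (fun σ => ((f σ).fixingSubgroup : Set (Gal(AlgebraicClosure K/K)))) (fun σ _ =>
      (f σ).fixingSubgroup_isOpen.mem_nhds fun x => hfx σ x.1 x.2)
  have hfin : FiniteDimensional K (⨆ j : t, f j : IntermediateField K (AlgebraicClosure K)) :=
    IntermediateField.finiteDimensional_iSup_of_finite
  refine ⟨⨆ j : t, f j, hfin, fun σ => ?_⟩
  obtain ⟨τ, hτ⟩ := Set.mem_iUnion.1 (ht (Set.mem_univ σ))
  obtain ⟨hτt, hτ'⟩ := Set.mem_iUnion.1 hτ
  exact ⟨f τ, le_iSup (fun j : t => f j) ⟨τ, hτt⟩,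
    (IntermediateField.mem_fixingSubgroup_iff _ _).1 hτ', hfd τ, (hf τ).2⟩

theorem levels (F₀ : IntermediateField K (AlgebraicClosure K)) [FiniteDimensional K F₀]
    {χ : F₀.fixingSubgroup → ℂ} (hχ : IsCharacter F₀ χ) {M : ℕ} (hM : 0 < M) :
    ∃ (L' : IntermediateField K (AlgebraicClosure K)) (_ : FiniteDimensional K L')
      (_ : Normal K L'), F₀ ≤ L' ∧
      ∃ (R : Type) (_ : Group R) (_ : Finite R)
        (π : (F₀.fixingSubgroup ⧸ NN F₀ L') →* R) (χ' : R → ℂ), IsCh χ' ∧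
        (∀ v, χ v = χ' (π (QuotientGroup.mk' (NN F₀ L') v))) ∧
        (∀ t ∈ SS F₀ L', t * t = 1) ∧
        (∀ t ∈ SS F₀ L', ∀ g, g * t = t * g → π g = 1 ∨ π g = π t) ∧
        ∀ H : Subgroup (F₀.fixingSubgroup ⧸ NN F₀ L'), IsCyclic H →
          ∀ F : IntermediateField K (AlgebraicClosure K),
            (∀ g : Gal(AlgebraicClosure K/K), g ∈ F.fixingSubgroup ↔
              ∃ hv : g ∈ F₀.fixingSubgroup, QuotientGroup.mk' (NN F₀ L') ⟨g, hv⟩ ∈ H) →
            M ∣ Module.finrank K F := by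
  obtain ⟨n, τ, ⟨E, hE, hEτ⟩, hτ⟩ := hχ
  obtain ⟨L₂, hL₂, hdeg⟩ := exists_deg (K := K) hM
  let S₀ : IntermediateField K (AlgebraicClosure K) := F₀ ⊔ E
  have hS₀ : FiniteDimensional K S₀ := IntermediateField.finiteDimensional_sup _ _
  let S : IntermediateField K (AlgebraicClosure K) := S₀ ⊔ L₂
  have hS : FiniteDimensional K S := IntermediateField.finiteDimensional_sup _ _
  let L : IntermediateField K (AlgebraicClosure K) :=
    IntermediateField.normalClosure K S (AlgebraicClosure K)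
  have hLfd : FiniteDimensional K L := inferInstance
  have hLn : Normal K L := inferInstance
  have hSL : S ≤ L := IntermediateField.le_normalClosure S
  have hF₀L : F₀ ≤ L := ((le_sup_left : F₀ ≤ S₀).trans (le_sup_left : S₀ ≤ S)).trans hSL
  have hEL : E ≤ L := ((le_sup_right : E ≤ S₀).trans (le_sup_left : S₀ ≤ S)).trans hSL
  have hL₂L : L₂ ≤ L := (le_sup_right : L₂ ≤ S).trans hSL
  obtain ⟨L', hfd', hn', hLL', hbig⟩ := exists_big L
  obtain ⟨χ', hχ', hχχ'⟩ := isCh_of_isCharacter F₀ L hτ (fun g hg => hEτ g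
    (IntermediateField.fixingSubgroup_antitone hEL hg))
  have hle : NN F₀ L' ≤ (NN F₀ L).comap (MonoidHom.id _) := by
    intro v hv
    exact Subgroup.mem_subgroupOf.2 (IntermediateField.fixingSubgroup_antitone hLL'
      (Subgroup.mem_subgroupOf.1 hv))
  let π : (F₀.fixingSubgroup ⧸ NN F₀ L') →* (F₀.fixingSubgroup ⧸ NN F₀ L) :=
    QuotientGroup.map (NN F₀ L') (NN F₀ L) (MonoidHom.id _) hle
  have hπ : ∀ v, π (QuotientGroup.mk' (NN F₀ L') v) = QuotientGroup.mk' (NN F₀ L) v := fun v => rfl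
  refine ⟨L', hfd', hn', hF₀L.trans hLL', _, inferInstance, inferInstance, π, χ', hχ',
    fun v => ?_, ?_, ?_, ?_⟩
  · rw [hπ]
    exact hχχ' v
  · rintro _ ⟨t, ht, rfl⟩
    rw [← map_mul]
    have h1 : t * t = 1 := Subtype.ext (cc_sq ht)
    rw [h1, map_one]
  · rintro _ ⟨t, ht, rfl⟩ g hg
    obtain ⟨g, rfl⟩ := QuotientGroup.mk'_surjective _ g
    rw [hπ, hπ]
    rw [← map_mul, ← map_mul] at hg
    have h1 : (g * t)⁻¹ * (t * g) ∈ NN F₀ L' := QuotientGroup.eq.1 hg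
    rw [mem_nn] at h1
    have h2 : ∀ x ∈ L', (g : Gal(AlgebraicClosure K/K)) ((t : Gal(AlgebraicClosure K/K)) x) =
        (t : Gal(AlgebraicClosure K/K)) ((g : Gal(AlgebraicClosure K/K)) x) := by
      intro x hx
      have h3 := h1 x hx
      change ((g : Gal(AlgebraicClosure K/K)) * (t : Gal(AlgebraicClosure K/K))).symm
        ((t : Gal(AlgebraicClosure K/K)) ((g : Gal(AlgebraicClosure K/K)) x)) = x at h3
      rw [AlgEquiv.symm_apply_eq] at h3
      exact h3.symm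
    rcases hbig t g ht h2 with h3 | h3
    · left
      exact (QuotientGroup.eq_one_iff _).2 ((mem_nn F₀ L g).2 h3)
    · right
      refine (QuotientGroup.eq.2 ?_).symm
      rw [mem_nn]
      intro x hx
      change (t : Gal(AlgebraicClosure K/K)).symm ((g : Gal(AlgebraicClosure K/K)) x) = x
      rw [AlgEquiv.symm_apply_eq]
      exact h3 x hx
  · rintro H ⟨⟨c, hcH⟩, hc⟩ F hF
    obtain ⟨σ, rfl⟩ := QuotientGroup.mk'_surjective _ c
    obtain ⟨F₁, hF₁, hσ, hfd₁, hM₁⟩ := hdeg (σ : Gal(AlgebraicClosure K/K))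
    have hF₁L' : F₁ ≤ L' := (hF₁.trans hL₂L).trans hLL'
    have hle₁ : F.fixingSubgroup ≤ F₁.fixingSubgroup := by
      intro g hg
      obtain ⟨hv, hgH⟩ := (hF g).1 hg
      obtain ⟨k, hk⟩ := hc ⟨_, hgH⟩
      have hk' : QuotientGroup.mk' (NN F₀ L') (σ ^ k) = QuotientGroup.mk' (NN F₀ L') ⟨g, hv⟩ := by
        rw [map_zpow]
        exact congrArg Subtype.val hk
      have h1 : (σ ^ k)⁻¹ * ⟨g, hv⟩ ∈ NN F₀ L' := QuotientGroup.eq.1 hk'
      rw [mem_nn] at h1
      rw [IntermediateField.mem_fixingSubgroup_iff]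
      intro x hx
      have h2 := h1 x (hF₁L' hx)
      change ((σ ^ k : F₀.fixingSubgroup) : Gal(AlgebraicClosure K/K)).symm (g x) = x at h2
      rw [AlgEquiv.symm_apply_eq] at h2
      change g x = x
      rw [h2, Subgroup.coe_zpow]
      have h4 : (σ : Gal(AlgebraicClosure K/K)) ∈
        MulAction.stabilizer (Gal(AlgebraicClosure K/K)) x := hσ x hx
      exact Subgroup.zpow_mem _ h4 k
    have hle₂ : F₁ ≤ F := by
      have h2 : IntermediateField.fixedField F₁.fixingSubgroup ≤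
          IntermediateField.fixedField F.fixingSubgroup := by
        intro x hx
        rw [IntermediateField.mem_fixedField_iff] at hx ⊢
        exact fun g hg => hx g (hle₁ hg)
      rwa [InfiniteGalois.fixedField_fixingSubgroup, InfiniteGalois.fixedField_fixingSubgroup] at h2
    exact hM₁.trans (IntermediateField.finrank_dvd_of_le_right hle₂)

/-- the generators of the integral theorem -/
def Gen (F₀ : IntermediateField K (AlgebraicClosure K)) : Set (F₀.fixingSubgroup → ℂ) :=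
  {f | ∃ (F : IntermediateField K (AlgebraicClosure K)) (ψ : F.fixingSubgroup →* ℂˣ),
    F₀ ≤ F ∧ FiniteDimensional K F ∧ Smooth F ψ ∧
    (IsEmpty (F →+* ℝ) ∨ ∃ k : ℕ, ∀ g, ψ g ^ 2 ^ k = 1) ∧
    f = induced F₀ F (fun g => ((ψ g : ℂˣ) : ℂ))}

/-- the generators of the rational theorem -/
def GenM (F₀ : IntermediateField K (AlgebraicClosure K)) (M : ℕ) : Set (F₀.fixingSubgroup → ℂ) :=
  {f | ∃ (F : IntermediateField K (AlgebraicClosure K)) (ψ : F.fixingSubgroup →* ℂˣ),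
    F₀ ≤ F ∧ FiniteDimensional K F ∧ Smooth F ψ ∧
    ((IsEmpty (F →+* ℝ) ∧ M ∣ Module.finrank K F) ∨ ψ = 1) ∧
    f = induced F₀ F (fun g => ((ψ g : ℂˣ) : ℂ))}

theorem closure_infl {V Q : Type} [Group V] [Group Q] (q : V →* Q) (A : Set (Q → ℂ))
    (B : Set (V → ℂ)) (h : ∀ f ∈ A, (fun v => f (q v)) ∈ B) {f : Q → ℂ}
    (hf : f ∈ AddSubgroup.closure A) : (fun v => f (q v)) ∈ AddSubgroup.closure B := by
  induction hf using AddSubgroup.closure_induction with
  | mem f hf => exact AddSubgroup.subset_closure (h f hf)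
  | zero => exact zero_mem (AddSubgroup.closure B)
  | add a b _ _ ha hb => exact add_mem (S := AddSubgroup (V → ℂ)) ha hb
  | neg a _ ha => exact neg_mem (S := AddSubgroup (V → ℂ)) ha

/-- the finite generators -/
def genFin (F₀ L' : IntermediateField K (AlgebraicClosure K)) [FiniteDimensional K L']
    [Normal K L'] : Set ((F₀.fixingSubgroup ⧸ NN F₀ L') → ℂ) :=
  {f | ∃ (H : Subgroup (F₀.fixingSubgroup ⧸ NN F₀ L')) (ψ : H →* ℂˣ),
    ((∀ s ∈ SS F₀ L', s ∉ H) ∨ ∃ k : ℕ, ∀ h, ψ h ^ 2 ^ k = 1) ∧ f = Ind H (fun h => ((ψ h : ℂˣ) : ℂ))}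

theorem gen_of_fin (F₀ L' : IntermediateField K (AlgebraicClosure K)) [FiniteDimensional K L']
    [Normal K L'] (hle : F₀ ≤ L') (f : (F₀.fixingSubgroup ⧸ NN F₀ L') → ℂ)
    (hf : f ∈ genFin F₀ L') : (fun v => f (QuotientGroup.mk' (NN F₀ L') v)) ∈ Gen F₀ := by
  obtain ⟨H, ψ, h1, rfl⟩ := hf
  obtain ⟨F, hF₀F, hFL, hF⟩ := exists_field F₀ L' hle H
  obtain ⟨ψ', hψ's, hψ'v, hψ'i⟩ := exists_lin F₀ L' hle H ψ F hF
  have hfd : FiniteDimensional K F := FiniteDimensional.of_injective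
    (IntermediateField.inclusion hFL).toLinearMap (IntermediateField.inclusion_injective hFL)
  refine ⟨F, ψ', hF₀F, hfd, hψ's, ?_, (funext hψ'i).symm⟩
  rcases h1 with h1 | ⟨k, hk⟩
  · left
    exact totally_complex F₀ L' H h1 F hF
  · right
    refine ⟨k, fun g => ?_⟩
    obtain ⟨h, hh⟩ := hψ'v g
    rw [hh]
    exact hk h

def torFin (F₀ L' : IntermediateField K (AlgebraicClosure K)) [FiniteDimensional K L']
    [Normal K L'] (M : ℕ) : Set ((F₀.fixingSubgroup ⧸ NN F₀ L') → ℂ) :=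
  {f | ∃ (H : Subgroup (F₀.fixingSubgroup ⧸ NN F₀ L')) (ψ : H →* ℂˣ),
    (((∀ s ∈ SS F₀ L', s ∉ H) ∧ ∀ F : IntermediateField K (AlgebraicClosure K),
            (∀ g : Gal(AlgebraicClosure K/K), g ∈ F.fixingSubgroup ↔
              ∃ hv : g ∈ F₀.fixingSubgroup, QuotientGroup.mk' (NN F₀ L') ⟨g, hv⟩ ∈ H) →
            M ∣ Module.finrank K F) ∨ ψ = 1) ∧ f = Ind H (fun h => ((ψ h : ℂˣ) : ℂ))}

theorem tor_of_fin (F₀ L' : IntermediateField K (AlgebraicClosure K)) [FiniteDimensional K L']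
    [Normal K L'] (hle : F₀ ≤ L') (M : ℕ) (f : (F₀.fixingSubgroup ⧸ NN F₀ L') → ℂ)
    (hf : f ∈ torFin F₀ L' M) :
    (fun v => f (QuotientGroup.mk' (NN F₀ L') v)) ∈ GenM F₀ M := by
  obtain ⟨H, ψ, h1, rfl⟩ := hf
  obtain ⟨F, hF₀F, hFL, hF⟩ := exists_field F₀ L' hle H
  obtain ⟨ψ', hψ's, hψ'v, hψ'i⟩ := exists_lin F₀ L' hle H ψ F hF
  have hfd : FiniteDimensional K F := FiniteDimensional.of_injective
    (IntermediateField.inclusion hFL).toLinearMap (IntermediateField.inclusion_injective hFL)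
  refine ⟨F, ψ', hF₀F, hfd, hψ's, ?_, (funext hψ'i).symm⟩
  rcases h1 with ⟨h1, h2⟩ | h1
  · left
    exact ⟨totally_complex F₀ L' H h1 F hF, h2 F hF⟩
  · right
    apply MonoidHom.ext
    intro g
    obtain ⟨h, hh⟩ := hψ'v g
    rw [hh, h1]
    rfl

/-- a level for both theorems -/
theorem both (F₀ : IntermediateField K (AlgebraicClosure K)) [FiniteDimensional K F₀]
    {χ : F₀.fixingSubgroup → ℂ} (hχ : IsCharacter F₀ χ) {M : ℕ} (hM : 0 < M) :
    ∃ (L' : IntermediateField K (AlgebraicClosure K)) (_ : FiniteDimensional K L')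
      (_ : Normal K L'), F₀ ≤ L' ∧
      ∃ f : (F₀.fixingSubgroup ⧸ NN F₀ L') → ℂ, IsCh f ∧
        (∀ v, χ v = f (QuotientGroup.mk' (NN F₀ L') v)) ∧
        f ∈ AddSubgroup.closure (genFin F₀ L') ∧
        ∃ m : ℕ, 0 < m ∧ m • f ∈ AddSubgroup.closure (torFin F₀ L' M) := by
  obtain ⟨L', hfd, hn, hle, R, _, _, π, χ', hχ', hχχ', hS2, hcent, hcyc⟩ := levels F₀ hχ hM
  refine ⟨L', hfd, hn, hle, fun g => χ' (π g), isCh_comp π hχ', hχχ',
    finite_main π (SS F₀ L') hS2 hcent χ' hχ', ?_⟩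
  exact tor_main π (SS F₀ L') hS2 hcent
    (fun H => (∀ s ∈ SS F₀ L', s ∉ H) ∧ ∀ F : IntermediateField K (AlgebraicClosure K),
            (∀ g : Gal(AlgebraicClosure K/K), g ∈ F.fixingSubgroup ↔
              ∃ hv : g ∈ F₀.fixingSubgroup, QuotientGroup.mk' (NN F₀ L') ⟨g, hv⟩ ∈ H) →
            M ∣ Module.finrank K F)
    (fun H hH h1 => ⟨h1, hcyc H hH⟩) χ' hχ'

/-- **Theorem A.** -/
theorem integral_induction (F₀ : IntermediateField K (AlgebraicClosure K)) [FiniteDimensional K F₀]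
    {χ : F₀.fixingSubgroup → ℂ} (hχ : IsCharacter F₀ χ) : χ ∈ AddSubgroup.closure (Gen F₀) := by
  obtain ⟨L', hfd, hn, hle, f, hf, hχf, h1, -⟩ := both F₀ hχ Nat.one_pos
  have h2 := closure_infl (QuotientGroup.mk' (NN F₀ L')) _ (Gen F₀) (gen_of_fin F₀ L' hle) h1
  rwa [← funext hχf] at h2

/-- **Theorem B.** -/
theorem rational_induction (F₀ : IntermediateField K (AlgebraicClosure K)) [FiniteDimensional K F₀]
    {χ : F₀.fixingSubgroup → ℂ} (hχ : IsCharacter F₀ χ) {M : ℕ} (hM : 0 < M) :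
    ∃ m : ℕ, 0 < m ∧ m • χ ∈ AddSubgroup.closure (GenM F₀ M) := by
  obtain ⟨L', hfd, hn, hle, f, hf, hχf, -, m, hm, h1⟩ := both F₀ hχ hM
  refine ⟨m, hm, ?_⟩
  have h2 := closure_infl (QuotientGroup.mk' (NN F₀ L')) _ (GenM F₀ M)
    (tor_of_fin F₀ L' hle M) h1
  have h3 : m • χ = fun v => (m • f) (QuotientGroup.mk' (NN F₀ L') v) := by
    funext v
    rw [Pi.smul_apply, Pi.smul_apply, hχf]
  rwa [h3]

end

/-! ### Additive inductive functions -/

/-- smooth linear characters are characters -/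
theorem lin_isCharacter {K : Type} [Field K] [NumberField K]
    (F : IntermediateField K (AlgebraicClosure K)) (ψ : F.fixingSubgroup →* ℂˣ)
    (hψ : Smooth F ψ) : IsCharacter F (fun g => ((ψ g : ℂˣ) : ℂ)) := by
  obtain ⟨E, hE, h⟩ := hψ
  refine ⟨1, (Units.map ((Matrix.scalar (Fin 1)).toMonoidHom : ℂ →* _)).comp ψ,
    ⟨E, hE, fun g hg => ?_⟩, fun g => ?_⟩
  · rw [MonoidHom.comp_apply, h g hg, map_one]
  · change _ = (Matrix.scalar (Fin 1) ((ψ g : ℂˣ) : ℂ)).trace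
    simp [Matrix.trace]

theorem IsCh.add {G : Type} [Group G] {χ χ' : G → ℂ} (h : IsCh χ) (h' : IsCh χ') :
    IsCh (χ + χ') := by
  obtain ⟨n, ρ, hρ⟩ := h.rep
  obtain ⟨n', ρ', hρ'⟩ := h'.rep
  let σ : G →* Module.End ℂ ((Fin n → ℂ) × (Fin n' → ℂ)) :=
    { toFun := fun g => LinearMap.prodMap (ρ g) (ρ' g)
      map_one' := by
        rw [map_one, map_one]
        rfl
      map_mul' := fun a b => by
        rw [map_mul, map_mul]
        rfl }
  refine cast (congrArg IsCh ?_) (isCh_of_rep σ)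
  funext g
  change LinearMap.trace ℂ _ (LinearMap.prodMap (ρ g) (ρ' g)) = _
  rw [LinearMap.trace_prodMap', Pi.add_apply, hρ, hρ']

theorem IsCh.zero {G : Type} [Group G] : IsCh (0 : G → ℂ) :=
  ⟨0, 1, fun g => by simp [Matrix.trace]⟩

theorem IsCh.nsmul {G : Type} [Group G] {χ : G → ℂ} (h : IsCh χ) (m : ℕ) : IsCh (m • χ) := by
  induction m with
  | zero => rw [zero_smul]; exact IsCh.zero
  | succ m ih => rw [succ_nsmul]; exact ih.add h

section
variable {K : Type} [Field K] [NumberField K] {A : Type} [AddCommGroup A]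

/-- additive functions which vanish on generators -/
theorem vanish {G : Type} [Group G] (B : Set (G → ℂ)) (D : (G → ℂ) → A)
    (hadd : ∀ χ χ', IsCh χ → IsCh χ' → D (χ + χ') = D χ + D χ')
    (hB : ∀ f ∈ B, IsCh f ∧ D f = 0) {f : G → ℂ} (hf : f ∈ AddSubgroup.closure B) (hfc : IsCh f) :
    D f = 0 := by
  have h0 : D 0 = 0 := by
    have h1 := hadd 0 0 IsCh.zero IsCh.zero
    rw [add_zero] at h1
    exact left_eq_add.1 h1
  have key : ∃ f₁ f₂ : G → ℂ, IsCh f₁ ∧ IsCh f₂ ∧ f + f₂ = f₁ ∧ D f₁ = 0 ∧ D f₂ = 0 := by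
    clear hfc
    induction hf using AddSubgroup.closure_induction with
    | mem f hf => exact ⟨f, 0, (hB f hf).1, IsCh.zero, add_zero f, (hB f hf).2, h0⟩
    | zero => exact ⟨0, 0, IsCh.zero, IsCh.zero, add_zero 0, h0, h0⟩
    | add a b _ _ ha hb =>
      obtain ⟨a₁, a₂, h1, h2, h3, h4, h5⟩ := ha
      obtain ⟨b₁, b₂, k1, k2, k3, k4, k5⟩ := hb
      refine ⟨a₁ + b₁, a₂ + b₂, h1.add k1, h2.add k2, ?_, ?_, ?_⟩
      · rw [← h3, ← k3]
        abel
      · rw [hadd _ _ h1 k1, h4, k4, add_zero]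
      · rw [hadd _ _ h2 k2, h5, k5, add_zero]
    | neg a _ ha =>
      obtain ⟨a₁, a₂, h1, h2, h3, h4, h5⟩ := ha
      refine ⟨a₂, a₁, h2, h1, ?_, h5, h4⟩
      rw [← h3]
      abel
  obtain ⟨f₁, f₂, h1, h2, h3, h4, h5⟩ := key
  have h6 := hadd f f₂ hfc h2
  rw [h3, h4, h5, add_zero] at h6
  exact h6.symm

theorem nsmul_D {G : Type} [Group G] (D : (G → ℂ) → A)
    (hadd : ∀ χ χ', IsCh χ → IsCh χ' → D (χ + χ') = D χ + D χ') {f : G → ℂ} (hf : IsCh f)
    (m : ℕ) : D (m • f) = m • D f := by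
  induction m with
  | zero =>
    have h1 := hadd 0 0 IsCh.zero IsCh.zero
    rw [add_zero] at h1
    rw [zero_smul, zero_smul]
    exact left_eq_add.1 h1
  | succ m ih => rw [succ_nsmul, hadd _ _ (hf.nsmul m) hf, ih, succ_nsmul]

/-- **Theorem C.** -/
theorem defect_zero (D : ∀ F : IntermediateField K (AlgebraicClosure K), (F.fixingSubgroup → ℂ) → A)
    (hadd : ∀ F : IntermediateField K (AlgebraicClosure K), FiniteDimensional K F →
      ∀ χ χ' : F.fixingSubgroup → ℂ, IsCharacter F χ → IsCharacter F χ' →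
        D F (χ + χ') = D F χ + D F χ')
    (hind : ∀ F F' : IntermediateField K (AlgebraicClosure K), F ≤ F' → FiniteDimensional K F' →
      ∀ χ : F'.fixingSubgroup → ℂ, IsCharacter F' χ → D F (induced F F' χ) = D F' χ)
    (hD : ∀ F : IntermediateField K (AlgebraicClosure K), FiniteDimensional K F →
      ∀ ψ : F.fixingSubgroup →* ℂˣ, Smooth F ψ →
        (IsEmpty (F →+* ℝ) ∨ ∃ k : ℕ, ∀ g, ψ g ^ 2 ^ k = 1) →
        D F (fun g => ((ψ g : ℂˣ) : ℂ)) = 0)
    (F₀ : IntermediateField K (AlgebraicClosure K)) (hF₀ : FiniteDimensional K F₀)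
    (χ : F₀.fixingSubgroup → ℂ) (hχ : IsCharacter F₀ χ) : D F₀ χ = 0 := by
  obtain ⟨L', hfd, hn, hle, f, hf, hχf, h1, -⟩ := both F₀ hχ Nat.one_pos
  rw [funext hχf]
  refine vanish (A := A) (genFin F₀ L')
    (fun k => D F₀ (fun v => k (QuotientGroup.mk' (NN F₀ L') v))) (fun a b ha hb => ?_) ?_ h1 hf
  · exact hadd F₀ hF₀ _ _ (isCharacter_of_isCh F₀ L' ha) (isCharacter_of_isCh F₀ L' hb)
  · rintro k hk
    obtain ⟨F, ψ, hF₀F, hfdF, hψs, hψ, hk2⟩ := gen_of_fin F₀ L' hle k hk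
    obtain ⟨H, ψ₀, -, rfl⟩ := hk
    refine ⟨isCh_ind H ψ₀, ?_⟩
    change D F₀ (fun v => Ind H (fun h => ((ψ₀ h : ℂˣ) : ℂ)) (QuotientGroup.mk' (NN F₀ L') v)) = 0
    rw [hk2, hind F₀ F hF₀F hfdF _ (lin_isCharacter F ψ hψs)]
    exact hD F hfdF ψ hψs hψ

/-- **Theorem D.** -/
theorem defect_torsion (D : ∀ F : IntermediateField K (AlgebraicClosure K), (F.fixingSubgroup → ℂ) → A)
    (hadd : ∀ F : IntermediateField K (AlgebraicClosure K), FiniteDimensional K F →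
      ∀ χ χ' : F.fixingSubgroup → ℂ, IsCharacter F χ → IsCharacter F χ' →
        D F (χ + χ') = D F χ + D F χ')
    (hind : ∀ F F' : IntermediateField K (AlgebraicClosure K), F ≤ F' → FiniteDimensional K F' →
      ∀ χ : F'.fixingSubgroup → ℂ, IsCharacter F' χ → D F (induced F F' χ) = D F' χ)
    (h1 : ∀ F : IntermediateField K (AlgebraicClosure K), FiniteDimensional K F →
      ∃ m : ℕ, 0 < m ∧ m • D F (fun _ => 1) = 0) {M : ℕ} (hM : 0 < M)
    (hD : ∀ F : IntermediateField K (AlgebraicClosure K), FiniteDimensional K F →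
      IsEmpty (F →+* ℝ) → M ∣ Module.finrank K F → ∀ ψ : F.fixingSubgroup →* ℂˣ, Smooth F ψ →
        ∃ m : ℕ, 0 < m ∧ m • D F (fun g => ((ψ g : ℂˣ) : ℂ)) = 0)
    (F₀ : IntermediateField K (AlgebraicClosure K)) (hF₀ : FiniteDimensional K F₀)
    (χ : F₀.fixingSubgroup → ℂ) (hχ : IsCharacter F₀ χ) : ∃ m : ℕ, 0 < m ∧ m • D F₀ χ = 0 := by
  obtain ⟨L', hfd, hn, hle, f, hf, hχf, -, m, hm, h2⟩ := both F₀ hχ hM
  let D' : ((F₀.fixingSubgroup ⧸ NN F₀ L') → ℂ) → A :=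
    fun k => D F₀ (fun v => k (QuotientGroup.mk' (NN F₀ L') v))
  let T : AddSubgroup A := AddCommGroup.torsion A
  have hadd' : ∀ a b, IsCh a → IsCh b → D' (a + b) = D' a + D' b := fun a b ha hb =>
    hadd F₀ hF₀ _ _ (isCharacter_of_isCh F₀ L' ha) (isCharacter_of_isCh F₀ L' hb)
  have hT : ∀ a : A, (∃ m : ℕ, 0 < m ∧ m • a = 0) ↔ (QuotientAddGroup.mk a : A ⧸ T) = 0 := by
    intro a
    rw [QuotientAddGroup.eq_zero_iff]
    change _ ↔ IsOfFinAddOrder a
    rw [isOfFinAddOrder_iff_nsmul_eq_zero]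
  have h3 : (QuotientAddGroup.mk (D' (m • f)) : A ⧸ T) = 0 := by
    refine vanish (A := A ⧸ T) (torFin F₀ L' M)
      (fun k => (QuotientAddGroup.mk (D' k) : A ⧸ T)) (fun a b ha hb => ?_) ?_ h2 (hf.nsmul m)
    · change (QuotientAddGroup.mk (D' (a + b)) : A ⧸ T) = _
      rw [hadd' a b ha hb]
      rfl
    · rintro k hk
      obtain ⟨F, ψ, hF₀F, hfdF, hψs, hψ, hk2⟩ := tor_of_fin F₀ L' hle M k hk
      obtain ⟨H, ψ₀, -, rfl⟩ := hk
      refine ⟨isCh_ind H ψ₀, ?_⟩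
      change (QuotientAddGroup.mk (D F₀ (fun v => Ind H (fun h => ((ψ₀ h : ℂˣ) : ℂ))
        (QuotientGroup.mk' (NN F₀ L') v))) : A ⧸ T) = 0
      rw [hk2, hind F₀ F hF₀F hfdF _ (lin_isCharacter F ψ hψs), ← hT]
      rcases hψ with ⟨h4, h5⟩ | rfl
      · exact hD F hfdF h4 h5 ψ hψs
      · have h6 := h1 F hfdF
        simpa using h6
  rw [nsmul_D D' hadd' hf, ← hT] at h3
  obtain ⟨n, hn0, hn1⟩ := h3
  refine ⟨n * m, Nat.mul_pos hn0 hm, ?_⟩
  rw [mul_smul, funext hχf]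
  exact hn1

end

end Pool.Agent.Q246.BI
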