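import Pool.Agent.Q246.BI.Cliff
import Pool.Agent.H302R3.HypP

/-! Hyperelementary groups: characters are combinations of induced linear characters. -/

set_option autoImplicit false
set_option linter.unusedSectionVars false

namespace Pool.Agent.Q246.BI

open Pool.Agent.H302R3
open scoped Classical

section
variable {G : Type} [Group G] [Finite G]

/-- the group generated by the functions induced from linear characters of subgroups which do not
meet `S`, and from linear characters of order a power of two -/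
def Mon (S : Set G) : AddSubgroup (G → ℂ) :=
  AddSubgroup.closure {f | ∃ (H : Subgroup G) (ψ : H →* ℂˣ),
    ((∀ s ∈ S, s ∉ H) ∨ ∃ k : ℕ, ∀ h, ψ h ^ 2 ^ k = 1) ∧ f = Ind H (fun h => ((ψ h : ℂˣ) : ℂ))}

theorem Mon.anti {S S' : Set G} (h : S ⊆ S') : Mon S' ≤ Mon S := by
  apply AddSubgroup.closure_mono
  rintro f ⟨H, ψ, h1, rfl⟩
  exact ⟨H, ψ, h1.imp_left fun h2 s hs => h2 s (h hs), rfl⟩

theorem Mon.ind (H : Subgroup G) (S : Set G) (S' : Set H)
    (hS : ∀ s ∈ S, ∀ h : s ∈ H, (⟨s, h⟩ : H) ∈ S') {η : H → ℂ} (hη : η ∈ Mon S') :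
    Ind H η ∈ Mon S := by
  induction hη using AddSubgroup.closure_induction with
  | mem f hf =>
    obtain ⟨K, ψ, h1, rfl⟩ := hf
    have hK : ∀ g : G, g ∈ K.map H.subtype ↔ ∃ h : g ∈ H, (⟨g, h⟩ : H) ∈ K := by
      intro g
      constructor
      · rintro ⟨k, hk, rfl⟩
        exact ⟨k.2, hk⟩
      · rintro ⟨h, hk⟩
        exact ⟨⟨g, h⟩, hk, rfl⟩
    let ψ' : K.map H.subtype →* ℂˣ :=
      { toFun := fun k => ψ ⟨⟨k, ((hK _).1 k.2).choose⟩, ((hK _).1 k.2).choose_spec⟩
        map_one' := map_one ψ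
        map_mul' := fun a b => by
          rw [← map_mul]
          rfl }
    refine AddSubgroup.subset_closure ⟨K.map H.subtype, ψ', ?_, ?_⟩
    · rcases h1 with h1 | ⟨k, hk⟩
      · left
        intro s hs hsK
        obtain ⟨h2, h3⟩ := (hK s).1 hsK
        exact h1 _ (hS s hs h2) h3
      · right
        exact ⟨k, fun h => hk _⟩
    · exact ind_trans H K _ _ hK _ fun k hk hk' => rfl
  | zero => rw [ind_zero]; exact zero_mem _
  | add a b _ _ ha hb => rw [ind_add]; exact add_mem ha hb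
  | neg a _ ha => rw [ind_neg]; exact neg_mem ha

theorem Mon.infl {R : Type} [Group R] [Finite R] (π : G →* R) (hπ : Function.Surjective π)
    (S : Set G) (SR : Set R) (hS : ∀ s ∈ S, π s ∈ SR) {η : R → ℂ} (hη : η ∈ Mon SR) :
    (fun g => η (π g)) ∈ Mon S := by
  induction hη using AddSubgroup.closure_induction with
  | mem f hf =>
    obtain ⟨H, ψ, h1, rfl⟩ := hf
    let ψ' : H.comap π →* ℂˣ :=
      { toFun := fun k => ψ ⟨π k, k.2⟩
        map_one' := by
          rw [← map_one ψ]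
          congr 1
          apply Subtype.ext
          change π 1 = 1
          exact map_one π
        map_mul' := fun a b => by
          rw [← map_mul]
          congr 1
          apply Subtype.ext
          change π (a * b) = π a * π b
          exact map_mul π _ _ }
    refine AddSubgroup.subset_closure ⟨H.comap π, ψ', ?_, ?_⟩
    · rcases h1 with h1 | ⟨k, hk⟩
      · left
        intro s hs hsK
        exact h1 _ (hS s hs) hsK
      · right
        exact ⟨k, fun h => hk _⟩
    · funext g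
      exact ind_infl π hπ H _ _ (fun g => Iff.rfl) _ (fun g h' h => rfl) g
  | zero => exact zero_mem (Mon S)
  | add a b _ _ ha hb => exact add_mem (S := AddSubgroup (G → ℂ)) ha hb
  | neg a _ ha => exact neg_mem (S := AddSubgroup (G → ℂ)) ha

/-- linear characters -/
theorem lin_mem (ψ : G →* ℂˣ) : (fun g => ((ψ g : ℂˣ) : ℂ)) ∈ Mon (∅ : Set G) := by
  have : Fintype G := Fintype.ofFinite G
  refine AddSubgroup.subset_closure ⟨⊤, ψ.comp (⊤ : Subgroup G).subtype,
    Or.inl fun s hs => absurd hs (Set.notMem_empty s), ?_⟩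
  funext g
  rw [ind_eq]
  have h1 : ∀ x : G, ext (⊤ : Subgroup G)
      (fun h => (((ψ.comp (⊤ : Subgroup G).subtype) h : ℂˣ) : ℂ)) (x⁻¹ * g * x) =
      ((ψ g : ℂˣ) : ℂ) := by
    intro x
    rw [ext_mem (Subgroup.mem_top _)]
    change ((ψ (x⁻¹ * g * x) : ℂˣ) : ℂ) = _
    rw [map_mul, map_mul, map_inv, mul_comm, mul_inv_cancel_left]
  rw [Finset.sum_congr rfl fun x _ => h1 x, Finset.sum_const, nsmul_eq_mul, Finset.card_univ,
    ← Nat.card_eq_fintype_card, ← mul_assoc]
  have h2 : Nat.card (⊤ : Subgroup G) = Nat.card G := Nat.card_congr Subgroup.topEquiv.toEquiv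
  have h3 : (Nat.card G : ℂ) ≠ 0 := by exact_mod_cast Nat.card_pos.ne'
  rw [h2, inv_mul_cancel₀ h3, one_mul]

theorem hypP_of_surjective {p : ℕ} {W V : Type} [Group W] [Finite W] [Group V] (f : W →* V)
    (hf : Function.Surjective f) (hW : HypP p W) : HypP p V := by
  obtain ⟨c, hc, hn, hp⟩ := hW
  refine ⟨f c, Nat.Coprime.coprime_dvd_left (orderOf_map_dvd f c) hc, fun u => ?_, fun u => ?_⟩
  · obtain ⟨w, rfl⟩ := hf u
    obtain ⟨k, hk⟩ := hn w
    refine ⟨k, ?_⟩
    change f c ^ k = _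
    have hk' : c ^ k = w * c * w⁻¹ := hk
    rw [← map_zpow, hk', map_mul, map_mul, map_inv]
  · obtain ⟨w, rfl⟩ := hf u
    obtain ⟨k, j, hj⟩ := hp w
    refine ⟨k, j, ?_⟩
    change f c ^ j = _
    have hj' : c ^ j = w ^ p ^ k := hj
    rw [← map_zpow, hj', map_pow]

/-- a nonabelian hyperelementary group has a normal abelian subgroup which is not central -/
theorem exists_abelian {p : ℕ} (hp : p.Prime) {Q : Type} [Group Q] [Finite Q] (hQ : HypP p Q)
    (hna : ¬ ∀ a b : Q, a * b = b * a) :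
    ∃ A : Subgroup Q, (∀ g a : Q, a ∈ A → g⁻¹ * a * g ∈ A) ∧ (∀ a b : A, a * b = b * a) ∧
      ∃ a ∈ A, ∃ q : Q, q⁻¹ * a * q ≠ a := by
  obtain ⟨c, hc, hn, hpow⟩ := hQ
  by_cases hcen : ∀ q : Q, q⁻¹ * c * q = c
  · have hcZ : c ∈ Subgroup.center Q := by
      rw [Subgroup.mem_center_iff]
      intro g
      have h1 := hcen g
      calc g * c = g * (g⁻¹ * c * g) := by rw [h1]
        _ = c * g := by group
    have hfp : Fact p.Prime := ⟨hp⟩
    have hZ : IsPGroup p (Q ⧸ Subgroup.center Q) := by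
      intro q
      induction q using QuotientGroup.induction_on with | _ u => ?_
      obtain ⟨k, hk⟩ := hpow u
      refine ⟨k, ?_⟩
      rw [← QuotientGroup.mk_pow]
      refine (QuotientGroup.eq_one_iff _).2 ?_
      obtain ⟨j, hj⟩ := hk
      have hj' : c ^ j = u ^ p ^ k := hj
      rw [← hj']
      exact Subgroup.zpow_mem _ hcZ j
    have hnt : Nontrivial (Q ⧸ Subgroup.center Q) := by
      rw [← not_subsingleton_iff_nontrivial]
      intro hsub
      apply hna
      intro a b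
      have h1 : (a : Q ⧸ Subgroup.center Q) = 1 := Subsingleton.elim _ _
      have h2 := (QuotientGroup.eq_one_iff a).1 h1
      exact (Subgroup.mem_center_iff.1 h2 b).symm
    have := hZ.center_nontrivial
    obtain ⟨⟨x', hx'⟩, hx1⟩ := exists_ne (1 : Subgroup.center (Q ⧸ Subgroup.center Q))
    obtain ⟨x, rfl⟩ := QuotientGroup.mk_surjective x'
    have hxZ : x ∉ Subgroup.center Q := by
      intro h
      apply hx1
      apply Subtype.ext
      exact (QuotientGroup.eq_one_iff x).2 h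
    have hxc : ∀ q : Q, x⁻¹ * (q⁻¹ * x * q) ∈ Subgroup.center Q := by
      intro q
      have h1 := Subgroup.mem_center_iff.1 hx' (q : Q ⧸ Subgroup.center Q)
      have h2 : ((q * x : Q) : Q ⧸ Subgroup.center Q) = ((x * q : Q) : Q ⧸ Subgroup.center Q) := h1
      have h3 := QuotientGroup.eq.1 h2.symm
      -- (x q)⁻¹ (q x) ∈ Z
      have h4 : (x * q)⁻¹ * (q * x) = q⁻¹ * (x⁻¹ * (q * x * q⁻¹)) * q := by group
      have h5 := QuotientGroup.eq.1 h2
      have h6 : (q * x)⁻¹ * (x * q) = x⁻¹ * (q⁻¹ * x * q) := by group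
      rw [← h6]
      exact h5
    let A : Subgroup Q :=
      { carrier := {g | ∃ z ∈ Subgroup.center Q, ∃ i : ℤ, g = z * x ^ i}
        one_mem' := ⟨1, one_mem _, 0, by simp⟩
        mul_mem' := by
          rintro _ _ ⟨z, hz, i, rfl⟩ ⟨z', hz', j, rfl⟩
          refine ⟨z * z', mul_mem hz hz', i + j, ?_⟩
          have h1 := Subgroup.mem_center_iff.1 hz' (x ^ i)
          rw [zpow_add]
          calc z * x ^ i * (z' * x ^ j) = z * (x ^ i * z') * x ^ j := by group
            _ = z * (z' * x ^ i) * x ^ j := by rw [h1]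
            _ = z * z' * (x ^ i * x ^ j) := by group
        inv_mem' := by
          rintro _ ⟨z, hz, i, rfl⟩
          refine ⟨z⁻¹, inv_mem hz, -i, ?_⟩
          have h1 := Subgroup.mem_center_iff.1 (inv_mem hz) (x ^ (-i))
          rw [mul_inv_rev, ← zpow_neg, h1] }
    have hmem : ∀ g : Q, g ∈ A ↔ ∃ z ∈ Subgroup.center Q, ∃ i : ℤ, g = z * x ^ i := fun g => Iff.rfl
    refine ⟨A, ?_, ?_, x, (hmem x).2 ⟨1, one_mem _, 1, by simp⟩, ?_⟩
    · rintro g _ ⟨z, hz, i, rfl⟩
      set w := x⁻¹ * (g⁻¹ * x * g) with hw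
      have hwZ : w ∈ Subgroup.center Q := hxc g
      refine (hmem _).2 ⟨z * w ^ i, mul_mem hz (Subgroup.zpow_mem _ hwZ i), i, ?_⟩
      have h1 : g⁻¹ * (z * x ^ i) * g = z * (g⁻¹ * x * g) ^ i := by
        have h2 := Subgroup.mem_center_iff.1 hz g⁻¹
        have h3 : (g⁻¹ * x * g) ^ i = g⁻¹ * x ^ i * g := by
          have := conj_zpow (i := i) (a := g⁻¹) (b := x)
          rwa [inv_inv] at this
        rw [h3]
        calc g⁻¹ * (z * x ^ i) * g = (g⁻¹ * z) * x ^ i * g := by group
          _ = (z * g⁻¹) * x ^ i * g := by rw [h2]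
          _ = z * (g⁻¹ * x ^ i * g) := by group
      have h4 : g⁻¹ * x * g = w * x := by
        have h5 := Subgroup.mem_center_iff.1 hwZ x
        rw [← h5, hw]
        group
      rw [h1, h4]
      have h6 : Commute w x := (Subgroup.mem_center_iff.1 hwZ x).symm
      rw [h6.mul_zpow]
      group
    · rintro ⟨_, ⟨z, hz, i, rfl⟩⟩ ⟨_, ⟨z', hz', j, rfl⟩⟩
      apply Subtype.ext
      change z * x ^ i * (z' * x ^ j) = z' * x ^ j * (z * x ^ i)
      have h1 := Subgroup.mem_center_iff.1 hz' (x ^ i)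
      have h2 := Subgroup.mem_center_iff.1 hz (x ^ j)
      have h3 := Subgroup.mem_center_iff.1 hz z'
      calc z * x ^ i * (z' * x ^ j) = z * (x ^ i * z') * x ^ j := by group
        _ = z * (z' * x ^ i) * x ^ j := by rw [h1]
        _ = (z * z') * x ^ (i + j) := by rw [zpow_add]; group
        _ = (z' * z) * x ^ (i + j) := by rw [h3]
        _ = z' * (z * x ^ j) * x ^ i := by rw [add_comm, zpow_add]; group
        _ = z' * (x ^ j * z) * x ^ i := by rw [h2]
        _ = z' * x ^ j * (z * x ^ i) := by group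
    · by_contra hcon
      push Not at hcon
      apply hxZ
      rw [Subgroup.mem_center_iff]
      intro g
      have h1 := hcon g
      calc g * x = g * (g⁻¹ * x * g) := by rw [h1]
        _ = x * g := by group
  · push Not at hcen
    obtain ⟨q, hq⟩ := hcen
    refine ⟨Subgroup.zpowers c, ?_, ?_, c, Subgroup.mem_zpowers c, q, hq⟩
    · rintro g _ ⟨i, rfl⟩
      have h1 := hn g⁻¹
      rw [inv_inv] at h1
      have h3 : (g⁻¹ * c * g) ^ i = g⁻¹ * c ^ i * g := by
        have := conj_zpow (i := i) (a := g⁻¹) (b := c)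
        rwa [inv_inv] at this
      change g⁻¹ * c ^ i * g ∈ _
      rw [← h3]
      exact Subgroup.zpow_mem _ h1 i
    · rintro ⟨_, ⟨i, rfl⟩⟩ ⟨_, ⟨j, rfl⟩⟩
      apply Subtype.ext
      change c ^ i * c ^ j = c ^ j * c ^ i
      rw [← zpow_add, ← zpow_add, add_comm]

theorem mon_of_quot {H : Type} [Group H] [Finite H] {W : Type} [AddCommGroup W] [Module ℂ W]
    (ρ : H →* Module.End ℂ W) (S : Set H) (S' : Set (H ⧸ ρ.ker))
    (hS : ∀ s ∈ S, QuotientGroup.mk' ρ.ker s ∈ S')
    (h : (fun x => LinearMap.trace ℂ W (QuotientGroup.lift ρ.ker ρ le_rfl x)) ∈ Mon S') :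
    (fun x => LinearMap.trace ℂ W (ρ x)) ∈ Mon S := by
  have h1 := Mon.infl (QuotientGroup.mk' ρ.ker) (QuotientGroup.mk'_surjective _) S S' hS h
  have h2 : (fun x => LinearMap.trace ℂ W (ρ x)) = fun x =>
      (fun x => LinearMap.trace ℂ W (QuotientGroup.lift ρ.ker ρ le_rfl x))
        (QuotientGroup.mk' ρ.ker x) := by
    funext x
    change _ = LinearMap.trace ℂ W (QuotientGroup.lift ρ.ker ρ le_rfl (x : H ⧸ ρ.ker))
    rw [QuotientGroup.lift_mk]
  rw [h2]
  exact h1

/-- **Hyperelementary groups are monomial** (in the Grothendieck group) -/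
theorem hyp_mon {p : ℕ} (hp : p.Prime) (N : ℕ) : ∀ (Q : Type) [Group Q] [Finite Q],
    Nat.card Q = N → HypP p Q → ∀ χ : Q → ℂ, IsCh χ → χ ∈ Mon (∅ : Set Q) := by
  induction N using Nat.strong_induction_on with
  | _ N ih =>
    intro Q _ _ hN hQ χ hχ
    by_cases hab : ∀ a b : Q, a * b = b * a
    · refine clifford (⊤ : Subgroup Q) (fun g a _ => Subgroup.mem_top _)
        (fun a b => Subtype.ext (hab a b)) _ ?_ χ hχ
      intro ψ W _ _ _ ρ hρ
      refine Mon.ind _ _ ∅ (fun s hs => absurd hs (Set.notMem_empty s)) ?_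
      let ψ' : St (⊤ : Subgroup Q) (fun g a _ => Subgroup.mem_top _) ψ →* ℂˣ :=
        { toFun := fun h => ψ ⟨h, Subgroup.mem_top _⟩
          map_one' := map_one ψ
          map_mul' := fun a b => by
            rw [← map_mul]
            rfl }
      have h1 : (fun h => LinearMap.trace ℂ W (ρ h)) =
          Module.finrank ℂ W • fun h => ((ψ' h : ℂˣ) : ℂ) := by
        funext h
        rw [hρ h (Subgroup.mem_top _), map_smul, LinearMap.trace_one, Pi.smul_apply, nsmul_eq_mul,
          smul_eq_mul, mul_comm]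
        rfl
      rw [h1]
      exact AddSubgroup.nsmul_mem _ (lin_mem ψ') _
    · obtain ⟨A, hn, hA, a, ha, q, hq⟩ := exists_abelian hp hQ hab
      refine clifford A hn hA _ ?_ χ hχ
      intro ψ W _ _ _ ρ hρ
      refine Mon.ind _ _ ∅ (fun s hs => absurd hs (Set.notMem_empty s)) ?_
      have hSt : HypP p (St A hn ψ) := hQ.of_injective (St A hn ψ).subtype
        (Subgroup.subtype_injective _)
      by_cases htop : St A hn ψ = ⊤
      · -- the kernel is not trivial
        have hqs : q ∈ St A hn ψ := by rw [htop]; exact Subgroup.mem_top _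
        have hk1 : (q⁻¹ * a * q) * a⁻¹ ∈ A := A.mul_mem (hn q a ha) (A.inv_mem ha)
        have hk2 : (q⁻¹ * a * q) * a⁻¹ ∈ St A hn ψ := by rw [htop]; exact Subgroup.mem_top _
        have hker : (⟨(q⁻¹ * a * q) * a⁻¹, hk2⟩ : St A hn ψ) ∈ ρ.ker := by
          rw [MonoidHom.mem_ker, hρ _ hk1]
          have h1 : (⟨(q⁻¹ * a * q) * a⁻¹, hk1⟩ : A) =
              ⟨q⁻¹ * a * q, hn q a ha⟩ * (⟨a, ha⟩ : A)⁻¹ := rfl
          have h2 : ψ ⟨(q⁻¹ * a * q) * a⁻¹, hk1⟩ = 1 := by
            rw [h1, map_mul, map_inv, hqs ⟨a, ha⟩, mul_inv_cancel]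
          change ((ψ ⟨(q⁻¹ * a * q) * a⁻¹, hk1⟩ : ℂˣ) : ℂ) • (1 : Module.End ℂ W) = 1
          rw [h2, Units.val_one, one_smul]
        have hkne : (⟨(q⁻¹ * a * q) * a⁻¹, hk2⟩ : St A hn ψ) ≠ 1 := by
          intro h
          have h1 := congrArg Subtype.val h
          change (q⁻¹ * a * q) * a⁻¹ = 1 at h1
          exact hq (mul_inv_eq_one.1 h1)
        have hnt : Nontrivial ρ.ker := ⟨⟨_, hker⟩, 1, fun h => hkne (congrArg Subtype.val h)⟩
        have hcard : Nat.card (St A hn ψ ⧸ ρ.ker) < N := by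
          have h1 := Subgroup.card_eq_card_quotient_mul_card_subgroup ρ.ker
          have h2 : 1 < Nat.card ρ.ker := Finite.one_lt_card
          have h3 : Nat.card (St A hn ψ) ≤ N := by
            rw [← hN]
            exact Subgroup.card_le_card_group _
          have h4 : 0 < Nat.card (St A hn ψ ⧸ ρ.ker) := Nat.card_pos
          nlinarith
        have hH : HypP p (St A hn ψ ⧸ ρ.ker) :=
          hypP_of_surjective (QuotientGroup.mk' ρ.ker) (QuotientGroup.mk'_surjective _) hSt
        have h5 := ih _ hcard (St A hn ψ ⧸ ρ.ker) rfl hH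
          (fun x => LinearMap.trace ℂ W (QuotientGroup.lift ρ.ker ρ le_rfl x))
          (isCh_of_rep (QuotientGroup.lift ρ.ker ρ le_rfl))
        exact mon_of_quot ρ ∅ ∅ (fun s hs => absurd hs (Set.notMem_empty s)) h5
      · have hcard : Nat.card (St A hn ψ) < N := by
          rw [← hN]
          refine lt_of_le_of_ne (Subgroup.card_le_card_group _) fun h => htop ?_
          exact Subgroup.eq_top_of_card_eq _ h
        exact ih _ hcard (St A hn ψ) rfl hSt _ (isCh_of_rep ρ)

/-- two-groups -/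
theorem two_mon {Q : Type} [Group Q] [Finite Q] (hQ : IsPGroup 2 Q) (χ : Q → ℂ) (hχ : IsCh χ) :
    χ ∈ Mon (Set.univ : Set Q) := by
  have h1 : HypP 2 Q := by
    refine ⟨1, by simp, fun u => ?_, fun u => ?_⟩
    · rw [mul_one, mul_inv_cancel]
      exact one_mem _
    · obtain ⟨k, hk⟩ := hQ u
      exact ⟨k, by rw [hk]; exact one_mem _⟩
  have h2 := hyp_mon Nat.prime_two _ Q rfl h1 χ hχ
  refine (?_ : Mon (∅ : Set Q) ≤ Mon Set.univ) h2
  apply AddSubgroup.closure_mono
  rintro f ⟨H, ψ, -, rfl⟩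
  refine ⟨H, ψ, Or.inr ?_, rfl⟩
  have hf2 : Fact (Nat.Prime 2) := ⟨Nat.prime_two⟩
  obtain ⟨n, hn⟩ := IsPGroup.iff_card.1 hQ
  refine ⟨n, fun h => ?_⟩
  rw [← hn, ← map_pow]
  have h3 : h ^ Nat.card Q = 1 := by
    apply Subtype.ext
    rw [Subgroup.coe_pow]
    exact pow_card_eq_one'
  rw [h3, map_one]

end

end Pool.Agent.Q246.BI
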