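import Pool.Agent.Q246.BI.Mono

/-! Solomon's induction theorem (with Banaschewski's lemma) and the main theorem for finite groups. -/

set_option autoImplicit false
set_option linter.unusedSectionVars false

namespace Pool.Agent.Q246.BI

open Pool.Agent.H302R3 MulAction
open scoped Classical

section
variable {G : Type} [Group G] [Finite G]

/-- fixed point counts of finite `G`-sets with hyperelementary stabilizers -/
def PermHyp {G : Type} [Group G] (f : G → ℕ) : Prop :=
  ∃ (X : Type) (_ : MulAction G X) (_ : Finite X),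
    (∀ x : X, ∃ p : ℕ, p.Prime ∧ HypP p (stabilizer G x)) ∧
      ∀ g : G, f g = Nat.card {x : X // g • x = x}

theorem PermHyp.zero : PermHyp (fun _ : G => 0) := by
  let _ : MulAction G Empty := { smul := fun _ x => x, one_smul := fun x => rfl, mul_smul := fun _ _ x => rfl }
  exact ⟨Empty, inferInstance, inferInstance, fun x => x.elim, fun g => by simp⟩

theorem PermHyp.add {f f' : G → ℕ} (hf : PermHyp f) (hf' : PermHyp f') :
    PermHyp (fun g => f g + f' g) := by
  obtain ⟨X, _, _, h1, h2⟩ := hf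
  obtain ⟨X', _, _, h1', h2'⟩ := hf'
  refine ⟨X ⊕ X', inferInstance, inferInstance, ?_, fun g => ?_⟩
  · rintro (x | x)
    · have hle : stabilizer G (Sum.inl x : X ⊕ X') ≤ stabilizer G x := by
        intro g hg
        rw [mem_stabilizer_iff] at hg ⊢
        exact Sum.inl_injective hg
      obtain ⟨p, hp, h⟩ := h1 x
      exact ⟨p, hp,
        HypP.of_injective (Subgroup.inclusion hle) (Subgroup.inclusion_injective hle) h⟩
    · have hle : stabilizer G (Sum.inr x : X ⊕ X') ≤ stabilizer G x := by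
        intro g hg
        rw [mem_stabilizer_iff] at hg ⊢
        exact Sum.inr_injective hg
      obtain ⟨p, hp, h⟩ := h1' x
      exact ⟨p, hp,
        HypP.of_injective (Subgroup.inclusion hle) (Subgroup.inclusion_injective hle) h⟩
  · rw [Nat.card_congr (Equiv.subtypeSum (α := X) (β := X') (p := fun c => g • c = c)),
      Nat.card_sum]
    simp only
    rw [h2, h2']
    congr 1
    · refine Nat.card_congr (Equiv.subtypeEquivRight fun x => ?_)
      exact ⟨fun h => by rw [Sum.smul_inl, h], fun h => Sum.inl_injective h⟩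
    · refine Nat.card_congr (Equiv.subtypeEquivRight fun x => ?_)
      exact ⟨fun h => by rw [Sum.smul_inr, h], fun h => Sum.inr_injective h⟩

theorem PermHyp.mul {f f' : G → ℕ} (hf : PermHyp f) (hf' : PermHyp f') :
    PermHyp (fun g => f g * f' g) := by
  obtain ⟨X, _, _, h1, h2⟩ := hf
  obtain ⟨X', _, _, h1', h2'⟩ := hf'
  refine ⟨X × X', inferInstance, inferInstance, ?_, fun g => ?_⟩
  · rintro ⟨x, y⟩
    have hle : stabilizer G ((x, y) : X × X') ≤ stabilizer G x := by
      intro g hg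
      rw [mem_stabilizer_iff] at hg ⊢
      exact congrArg Prod.fst hg
    obtain ⟨p, hp, h⟩ := h1 x
    exact ⟨p, hp,
      HypP.of_injective (Subgroup.inclusion hle) (Subgroup.inclusion_injective hle) h⟩
  · simp only
    rw [h2, h2', ← Nat.card_prod]
    refine Nat.card_congr (Equiv.trans (Equiv.subtypeProdEquivProd).symm
      (Equiv.subtypeEquivRight fun x => ?_))
    rw [Prod.ext_iff]
    rfl

theorem permHyp_of_count {p : ℕ} (hp : p.Prime) {f : G → ℕ} (hf : HypPCount p f) : PermHyp f := by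
  obtain ⟨X, i1, i2, h1, h2⟩ := hf
  exact ⟨X, i1, i2, fun x => ⟨p, hp, h1 x⟩, h2⟩

theorem solomon_at (g : G) : ∃ f₁ f₂ : G → ℕ, PermHyp f₁ ∧ PermHyp f₂ ∧ f₁ g = f₂ g + 1 := by
  let I : AddSubgroup ℤ :=
    { carrier := {m | ∃ f₁ f₂ : G → ℕ, PermHyp f₁ ∧ PermHyp f₂ ∧ m = f₁ g - f₂ g}
      zero_mem' := ⟨_, _, PermHyp.zero, PermHyp.zero, by simp⟩
      add_mem' := by
        rintro _ _ ⟨f₁, f₂, h1, h2, rfl⟩ ⟨k₁, k₂, h3, h4, rfl⟩
        exact ⟨_, _, h1.add h3, h2.add h4, by push_cast; ring⟩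
      neg_mem' := by
        rintro _ ⟨f₁, f₂, h1, h2, rfl⟩
        exact ⟨_, _, h2, h1, by ring⟩ }
  have hI : ∀ m : ℤ, m ∈ I ↔ ∃ f₁ f₂ : G → ℕ, PermHyp f₁ ∧ PermHyp f₂ ∧ m = f₁ g - f₂ g :=
    fun m => Iff.rfl
  obtain ⟨a, ha⟩ := Int.subgroup_cyclic I
  have h1 : a.natAbs = 1 := by
    by_contra hne
    obtain ⟨p, hp, hpa⟩ := Nat.exists_prime_and_dvd hne
    obtain ⟨f, hf, hpf⟩ := exists_prime_to hp g
    have h2 : ((f g : ℕ) : ℤ) ∈ I := (hI _).2 ⟨f, _, permHyp_of_count hp hf, PermHyp.zero, by simp⟩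
    rw [ha, AddSubgroup.mem_closure_singleton] at h2
    obtain ⟨k, hk⟩ := h2
    apply hpf
    have h3 : (p : ℤ) ∣ a := Int.natCast_dvd.2 hpa
    have h4 : (p : ℤ) ∣ (f g : ℕ) := by
      rw [← hk, smul_eq_mul]
      exact Dvd.dvd.mul_left h3 k
    exact Int.natCast_dvd_natCast.1 h4
  have h2 : (1 : ℤ) ∈ I := by
    rw [ha, AddSubgroup.mem_closure_singleton]
    rcases Int.natAbs_eq a with h | h
    · exact ⟨1, by rw [h, h1]; simp⟩
    · exact ⟨-1, by rw [h, h1]; simp⟩
  obtain ⟨f₁, f₂, h3, h4, h5⟩ := (hI 1).1 h2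
  exact ⟨f₁, f₂, h3, h4, by omega⟩

/-- **Solomon's theorem** -/
theorem solomon : ∃ f₁ f₂ : G → ℕ, PermHyp f₁ ∧ PermHyp f₂ ∧ ∀ g, f₁ g = f₂ g + 1 := by
  have : Fintype G := Fintype.ofFinite G
  have key : ∀ s : Finset G, ∃ f₁ f₂ : G → ℕ, PermHyp f₁ ∧ PermHyp f₂ ∧ ∀ g ∈ s, f₁ g = f₂ g + 1 := by
    intro s
    induction s using Finset.induction_on with
    | empty => exact ⟨_, _, PermHyp.zero, PermHyp.zero, fun g hg => absurd hg (Finset.notMem_empty g)⟩
    | insert a s ha ih =>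
      obtain ⟨f₁, f₂, h1, h2, h3⟩ := ih
      obtain ⟨k₁, k₂, h4, h5, h6⟩ := solomon_at a
      refine ⟨_, _, ((h1.add h4).add (h1.mul h5)).add (h2.mul h4),
        ((h2.add h5).add (h1.mul h4)).add (h2.mul h5), fun g hg => ?_⟩
      rcases Finset.mem_insert.1 hg with rfl | hg
      · rw [h6]
        ring
      · rw [h3 g hg]
        ring
  obtain ⟨f₁, f₂, h1, h2, h3⟩ := key Finset.univ
  exact ⟨f₁, f₂, h1, h2, fun g => h3 g (Finset.mem_univ g)⟩

theorem isCh_comp {G' : Type} [Group G'] (π : G' →* G) {χ : G → ℂ} (h : IsCh χ) :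
    IsCh (fun g => χ (π g)) := by
  obtain ⟨n, τ, hτ⟩ := h
  exact ⟨n, τ.comp π, fun g => hτ _⟩

/-- projection formula for permutation characters -/
theorem perm_mul {f : G → ℕ} {X : Type} [MulAction G X] [Finite X]
    (hf : ∀ g : G, f g = Nat.card {x : X // g • x = x}) (φ : G → ℂ)
    (hφ : ∀ g h : G, φ (h * g * h⁻¹) = φ g) (N : AddSubgroup (G → ℂ))
    (hN : ∀ x : X, Ind (stabilizer G x) (fun h => φ h) ∈ N) :
    (fun g => (f g : ℂ) * φ g) ∈ N := by
  have : Fintype X := Fintype.ofFinite X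
  let F : X → G → ℂ := fun x g => if g • x = x then φ g else 0
  have h1 : (fun g => (f g : ℂ) * φ g) = fun g => ∑ᶠ x : X, F x g := by
    funext g
    rw [finsum_eq_sum_of_fintype]
    change _ = ∑ x : X, if g • x = x then φ g else 0
    rw [← Finset.sum_filter, Finset.sum_const, nsmul_eq_mul, hf, Nat.card_eq_fintype_card,
      Fintype.card_subtype]
  rw [h1]
  refine bundle F (fun x g hg => if_neg hg) (fun h x g => ?_) N fun x => ?_
  · change (if (h * g * h⁻¹) • h • x = h • x then φ (h * g * h⁻¹) else 0) =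
      if g • x = x then φ g else 0
    have h2 : ((h * g * h⁻¹) • h • x = h • x) ↔ g • x = x := by
      rw [smul_smul, inv_mul_cancel_right, mul_smul]
      exact smul_left_cancel_iff h
    rw [hφ]
    by_cases h3 : g • x = x
    · rw [if_pos h3, if_pos (h2.2 h3)]
    · rw [if_neg h3, if_neg (fun h => h3 (h2.1 h))]
  · have h2 : (fun h : stabilizer G x => F x h) = fun h : stabilizer G x => φ h := by
      funext h
      exact if_pos h.2
    rw [h2]
    exact hN x

/-- odd order kills squares -/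
theorem odd_sq {R : Type} [Group R] {c a : R} (hc : Odd (orderOf c)) (ha : a ∈ Subgroup.zpowers c)
    (h2 : a * a = 1) : a = 1 := by
  have h1 : orderOf a ∣ 2 := orderOf_dvd_of_pow_eq_one (by rw [pow_two, h2])
  have h3 : orderOf a ∣ orderOf c := orderOf_dvd_of_mem_zpowers ha
  have h4 : Nat.Coprime 2 (orderOf c) := Nat.coprime_two_left.2 hc
  have h5 : orderOf a = 1 := Nat.eq_one_of_dvd_coprimes h4 h1 h3
  exact orderOf_eq_one_iff.1 h5

variable {R : Type} [Group R] [Finite R]

/-- odd primes: the hyperelementary group maps to a group of order two -/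
theorem case_odd (π : G →* R) (S : Set G) (hS2 : ∀ t ∈ S, t * t = 1)
    (hcent : ∀ t ∈ S, ∀ g, g * t = t * g → π g = 1 ∨ π g = π t)
    (χ : R → ℂ) (hχ : IsCh χ) (H : Subgroup G) {p : ℕ} (hp : p.Prime) (hp2 : p ≠ 2)
    (hH : HypP p H) (t : G) (ht : t ∈ S) (htH : t ∈ H) :
    (fun h : H => χ (π h)) ∈ Mon (Set.univ : Set H) := by
  obtain ⟨c, hc, hn, hpw⟩ := hH
  have hpo : Odd p := hp.odd_of_ne_two hp2
  have h1 : (⟨t, htH⟩ : H) ∈ Subgroup.zpowers c := by
    obtain ⟨k, hk⟩ := hpw ⟨t, htH⟩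
    have h2 : Odd (p ^ k) := hpo.pow
    obtain ⟨m, hm⟩ := h2
    have h3 : (⟨t, htH⟩ : H) ^ (p ^ k) = ⟨t, htH⟩ := by
      have h4 : (⟨t, htH⟩ : H) ^ 2 = 1 := by
        apply Subtype.ext
        rw [pow_two]
        exact hS2 t ht
      rw [hm, pow_add, pow_mul, h4, one_pow, one_mul, pow_one]
    rwa [h3] at hk
  have hcomm : ∀ u : H, (u : G) * t = t * u := by
    intro u
    by_cases ht1 : t = 1
    · rw [ht1, mul_one, one_mul]
    have h2 : u * ⟨t, htH⟩ * u⁻¹ ∈ Subgroup.zpowers c := by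
      obtain ⟨j, hj⟩ := h1
      have hj' : c ^ j = ⟨t, htH⟩ := hj
      rw [← hj', ← conj_zpow]
      exact Subgroup.zpow_mem _ (hn u) j
    let x : Subgroup.zpowers c := ⟨_, h1⟩
    let y : Subgroup.zpowers c := ⟨_, h2⟩
    have hx : x ^ 2 = 1 := by
      apply Subtype.ext
      apply Subtype.ext
      change t ^ 2 = 1
      rw [pow_two]
      exact hS2 t ht
    have hx1 : x ≠ 1 := by
      intro h
      exact ht1 (congrArg (fun z : Subgroup.zpowers c => ((z : H) : G)) h)
    have hy : y ^ 2 = 1 := by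
      apply Subtype.ext
      apply Subtype.ext
      change ((u : G) * t * (u : G)⁻¹) ^ 2 = 1
      rw [conj_pow, pow_two, hS2 t ht, mul_one, mul_inv_cancel]
    have hy1 : y ≠ 1 := by
      intro h
      have h3 := congrArg (fun z : Subgroup.zpowers c => ((z : H) : G)) h
      change (u : G) * t * (u : G)⁻¹ = 1 at h3
      apply ht1
      have h4 := conj_eq_one_iff.1 h3
      exact h4
    have hcyc : IsCyclic (Subgroup.zpowers c) := inferInstance
    have hxy : x = y := by
      by_contra hne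
      have : Fintype (Subgroup.zpowers c) := Fintype.ofFinite _
      have h5 := IsCyclic.card_pow_eq_one_le (α := Subgroup.zpowers c) (n := 2) (by norm_num)
      have h6 : ({1, x, y} : Finset (Subgroup.zpowers c)) ⊆
          Finset.univ.filter fun a : Subgroup.zpowers c => a ^ 2 = 1 := by
        intro z hz
        simp only [Finset.mem_insert, Finset.mem_singleton] at hz
        rw [Finset.mem_filter]
        refine ⟨Finset.mem_univ _, ?_⟩
        rcases hz with rfl | rfl | rfl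
        · exact one_pow 2
        · exact hx
        · exact hy
      have h7 := Finset.card_le_card h6
      have h8 : ({1, x, y} : Finset (Subgroup.zpowers c)).card = 3 := by
        rw [Finset.card_eq_three]
        exact ⟨1, x, y, hx1.symm, hy1.symm, hne, rfl⟩
      omega
    have h3 := congrArg (fun z : Subgroup.zpowers c => ((z : H) : G)) hxy
    change t = (u : G) * t * (u : G)⁻¹ at h3
    calc (u : G) * t = ((u : G) * t * (u : G)⁻¹) * u := by group
      _ = t * u := by rw [← h3]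
  -- the image
  let f : H →* R := π.comp H.subtype
  have hf : ∀ u : H, f u = 1 ∨ f u = π t := fun u => hcent t ht u (hcomm u)
  have hpt : π t * π t = 1 := by rw [← map_mul, hS2 t ht, map_one]
  have h2 : IsPGroup 2 f.range := by
    rintro ⟨_, ⟨u, rfl⟩⟩
    refine ⟨1, ?_⟩
    apply Subtype.ext
    change f u ^ 2 ^ 1 = 1
    rw [pow_one, pow_two]
    rcases hf u with h | h
    · rw [h, mul_one]
    · rw [h, hpt]
  have h3 := two_mon h2 (fun r : f.range => χ r) (isCh_comp f.range.subtype hχ)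
  exact Mon.infl f.rangeRestrict f.rangeRestrict_surjective Set.univ Set.univ
    (fun s _ => Set.mem_univ _) h3

/-- the prime two -/
theorem case_two (π : G →* R) (S : Set G) (hS2 : ∀ t ∈ S, t * t = 1)
    (hcent : ∀ t ∈ S, ∀ g, g * t = t * g → π g = 1 ∨ π g = π t)
    (χ : R → ℂ) (hχ : IsCh χ) (H : Subgroup G) (hH : HypP 2 H) :
    (fun h : H => χ (π h)) ∈ Mon {h : H | (h : G) ∈ S} := by
  obtain ⟨c, hc, hn, hpw⟩ := hH
  have hco : Odd (orderOf c) := Nat.coprime_two_right.1 hc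
  let f : H →* R := π.comp H.subtype
  let Q := f.range
  let q : H →* Q := f.rangeRestrict
  have hq : Function.Surjective q := f.rangeRestrict_surjective
  let SQ : Set Q := {r | ∃ s : H, (s : G) ∈ S ∧ q s = r}
  refine Mon.infl q hq {h : H | (h : G) ∈ S} SQ (fun s hs => ⟨s, hs, rfl⟩)
    (η := fun r : Q => χ r) ?_
  have hHQ : HypP 2 Q := hypP_of_surjective q hq ⟨c, hc, hn, hpw⟩
  let A : Subgroup Q := Subgroup.zpowers (q c)
  have hcQ : Odd (orderOf (q c)) := by
    have h1 : orderOf (q c) ∣ orderOf c := orderOf_map_dvd q c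
    exact Odd.of_dvd_nat hco h1
  have hA : ∀ a b : A, a * b = b * a := by
    rintro ⟨_, ⟨i, rfl⟩⟩ ⟨_, ⟨j, rfl⟩⟩
    apply Subtype.ext
    change q c ^ i * q c ^ j = q c ^ j * q c ^ i
    rw [← zpow_add, ← zpow_add, add_comm]
  have hnA : ∀ g a : Q, a ∈ A → g⁻¹ * a * g ∈ A := by
    rintro g _ ⟨i, rfl⟩
    obtain ⟨u, hu⟩ := hq g⁻¹
    obtain ⟨j, hj⟩ := hn u
    have hj' : c ^ j = u * c * u⁻¹ := hj
    have h1 : g⁻¹ * q c * g = q c ^ j := by
      rw [← map_zpow, hj', map_mul, map_mul, map_inv, hu, inv_inv]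
    have h2 : (g⁻¹ * q c * g) ^ i = g⁻¹ * q c ^ i * g := by
      have := conj_zpow (i := i) (a := g⁻¹) (b := q c)
      rwa [inv_inv] at this
    change g⁻¹ * q c ^ i * g ∈ A
    rw [← h2, h1]
    exact Subgroup.zpow_mem _ (Subgroup.zpow_mem _ (Subgroup.mem_zpowers _) j) i
  -- conjugations invert `A`
  have hinv : ∀ r ∈ SQ, ∀ a ∈ A, r⁻¹ * a * r = a⁻¹ := by
    rintro _ ⟨s, hs, rfl⟩ _ ⟨i, rfl⟩
    have hss : (s : G) * s = 1 := hS2 _ hs
    have hsinv : (s : G)⁻¹ = s := inv_eq_of_mul_eq_one_left hss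
    set x : G := (c : G) ^ i with hx
    -- `x` and its conjugate commute
    have h1 : (s : G)⁻¹ * x * s ∈ (Subgroup.zpowers (c : G)) := by
      obtain ⟨j, hj⟩ := hn s⁻¹
      have hj' : c ^ j = s⁻¹ * c * s⁻¹⁻¹ := hj
      have hj2 : (c : G) ^ j = (s : G)⁻¹ * c * s := by
        have h3 := congrArg Subtype.val hj'
        rw [inv_inv] at h3
        simpa using h3
      refine ⟨j * i, ?_⟩
      change (c : G) ^ (j * i) = _
      rw [zpow_mul, hj2]
      have := conj_zpow (i := i) (a := (s : G)⁻¹) (b := (c : G))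
      rwa [inv_inv] at this
    obtain ⟨m, hm⟩ := h1
    have hm' : (c : G) ^ m = (s : G)⁻¹ * x * s := hm
    have hcx : x * ((s : G)⁻¹ * x * s) = ((s : G)⁻¹ * x * s) * x := by
      rw [← hm', hx, ← zpow_add, ← zpow_add, add_comm]
    set y : G := x * ((s : G)⁻¹ * x * s) with hy
    have hys : y * s = s * y := by
      have h3 : y * s = (s : G) * (((s : G)⁻¹ * x * s) * ((s * s : G)⁻¹ * x * (s * s))) := by
        rw [hy]
        group
      rw [h3, hss, inv_one, one_mul, mul_one, ← hcx]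
    have hyA : π y ∈ Subgroup.zpowers (π c) := by
      rw [hy, ← hm', hx, ← zpow_add]
      exact ⟨i + m, (map_zpow π _ _).symm⟩
    have hcπ : Odd (orderOf (π c)) := by
      have h3 : orderOf (π (c : G)) ∣ orderOf c := by
        have := orderOf_map_dvd f c
        exact this
      exact Odd.of_dvd_nat hco h3
    have hy1 : π y = 1 := by
      rcases hcent s hs y hys with h | h
      · exact h
      · refine odd_sq hcπ hyA ?_
        rw [h, ← map_mul, hss, map_one]
    apply Subtype.ext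
    have h4 : π x * (π (s : G)⁻¹ * π x * π s) = 1 := by
      rw [← map_mul, ← map_mul, ← map_mul]
      exact hy1
    have h5 : (π (s : G)⁻¹ * π x * π s) = (π x)⁻¹ := eq_inv_of_mul_eq_one_right h4
    have h6 : π x = π c ^ i := by rw [hx, map_zpow]
    change (π s)⁻¹ * (π c) ^ i * π s = ((π c) ^ i)⁻¹
    rw [← h6, ← map_inv]
    exact h5
  refine clifford A hnA hA _ ?_ _ (isCh_comp Q.subtype hχ)
  intro ψ W _ _ _ ρ hρ
  have hSt : HypP 2 (St A hnA ψ) := hHQ.of_injective (St A hnA ψ).subtype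
    (Subgroup.subtype_injective _)
  by_cases hψ : ψ = 1
  · -- the trivial character: a two-group acts
    subst hψ
    refine Mon.ind _ _ Set.univ (fun s _ _ => Set.mem_univ _) ?_
    refine mon_of_quot ρ Set.univ Set.univ (fun s _ => Set.mem_univ _) ?_
    refine two_mon ?_ _ (isCh_of_rep _)
    intro r
    induction r using QuotientGroup.induction_on with | _ u => ?_
    obtain ⟨w, hw⟩ := hq (u : Q)
    obtain ⟨k, j, hj⟩ := hpw w
    have hj' : c ^ j = w ^ 2 ^ k := hj
    refine ⟨k, ?_⟩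
    rw [← QuotientGroup.mk_pow]
    refine (QuotientGroup.eq_one_iff _).2 ?_
    rw [MonoidHom.mem_ker]
    have hmem : ((u ^ 2 ^ k : St A hnA 1) : Q) ∈ A := by
      refine ⟨j, ?_⟩
      change q c ^ j = _
      rw [Subgroup.coe_pow, ← hw, ← map_zpow, hj', map_pow]
    rw [hρ _ hmem]
    simp
  · refine Mon.ind _ _ ∅ ?_ (hyp_mon Nat.prime_two _ _ rfl hSt _ (isCh_of_rep ρ))
    intro r hr hrs
    exfalso
    apply hψ
    apply MonoidHom.ext
    intro a
    have h1 := hrs a
    have h2 : (⟨r⁻¹ * (a : Q) * r, hnA r a a.2⟩ : A) = a⁻¹ := Subtype.ext (hinv r hr a a.2)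
    rw [h2, map_inv] at h1
    have h3 : ψ a * ψ a = 1 := by
      nth_rewrite 1 [← h1]
      exact inv_mul_cancel _
    have h4 : orderOf (ψ a) ∣ 2 := orderOf_dvd_of_pow_eq_one (by rw [pow_two, h3])
    have h5 : orderOf (ψ a) ∣ orderOf (q c) := by
      refine (orderOf_map_dvd ψ a).trans ?_
      rw [← Subgroup.orderOf_coe]
      exact orderOf_dvd_of_mem_zpowers a.2
    have h6 : orderOf (ψ a) = 1 :=
      Nat.eq_one_of_dvd_coprimes (Nat.coprime_two_left.2 hcQ) h4 h5
    exact orderOf_eq_one_iff.1 h6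

theorem ch_conj {χ : R → ℂ} (hχ : IsCh χ) (g h : R) : χ (h * g * h⁻¹) = χ g := by
  obtain ⟨n, τ, hτ⟩ := hχ
  rw [hτ, hτ, map_mul, map_mul, Matrix.trace_mul_comm, ← mul_assoc, ← map_mul, inv_mul_cancel,
    map_one, one_mul]

/-- **The finite theorem.** -/
theorem finite_main (π : G →* R) (S : Set G) (hS2 : ∀ t ∈ S, t * t = 1)
    (hcent : ∀ t ∈ S, ∀ g, g * t = t * g → π g = 1 ∨ π g = π t)
    (χ : R → ℂ) (hχ : IsCh χ) : (fun g => χ (π g)) ∈ Mon S := by
  obtain ⟨f₁, f₂, ⟨X, i1, i2, h1, h2⟩, ⟨X', i3, i4, h3, h4⟩, h5⟩ := solomon (G := G)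
  have hcl : ∀ g h : G, χ (π (h * g * h⁻¹)) = χ (π g) := by
    intro g h
    rw [map_mul, map_mul, map_inv, ch_conj hχ]
  have key : ∀ H : Subgroup G, (∃ p : ℕ, p.Prime ∧ HypP p H) →
      Ind H (fun h => χ (π h)) ∈ Mon S := by
    rintro H ⟨p, hp, hH⟩
    by_cases hST : ∃ t ∈ S, t ∈ H
    · obtain ⟨t, ht, htH⟩ := hST
      by_cases hp2 : p = 2
      · subst hp2
        exact Mon.ind H S {h : H | (h : G) ∈ S} (fun s hs h => hs)
          (case_two π S hS2 hcent χ hχ H hH)
      · exact Mon.ind H S Set.univ (fun s _ _ => Set.mem_univ _)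
          (case_odd π S hS2 hcent χ hχ H hp hp2 hH t ht htH)
    · push Not at hST
      exact Mon.ind H S ∅ (fun s hs h => absurd h (hST s hs))
        (hyp_mon hp _ H rfl hH _ (isCh_comp H.subtype (isCh_comp π hχ)))
  have h6 := perm_mul h2 (fun g => χ (π g)) hcl (Mon S) fun x => key _ (h1 x)
  have h7 := perm_mul h4 (fun g => χ (π g)) hcl (Mon S) fun x => key _ (h3 x)
  have h8 : (fun g => χ (π g)) =
      (fun g => (f₁ g : ℂ) * χ (π g)) - fun g => (f₂ g : ℂ) * χ (π g) := by
    funext g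
    rw [Pi.sub_apply, h5]
    push_cast
    ring
  rw [h8]
  exact (Mon S).sub_mem h6 h7

end

end Pool.Agent.Q246.BI
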