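import Pool.Agent.Q246.BI.Main

/-! Characters with equal values at the complex conjugations. -/

set_option autoImplicit false
set_option linter.unusedSectionVars false

namespace Pool.Agent.Q246.BI

open NumberField Pool.Agent.Q246.RP MulAction
open scoped Classical

section
variable {G : Type} [Group G] [Finite G]

/-- the group generated by functions induced from linear characters of the subgroups with a
property -/
def TorP (P : Subgroup G → Prop) : AddSubgroup (G → ℂ) :=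
  AddSubgroup.closure {f | ∃ (H : Subgroup G) (ψ : H →* ℂˣ), P H ∧
    f = Ind H (fun h => ((ψ h : ℂˣ) : ℂ))}

theorem torP_abel (P : Subgroup G → Prop) (H : Subgroup G) (hP : P H)
    (hab : ∀ a b : H, a * b = b * a) (η : H → ℂ) (hη : IsCh η) : Ind H η ∈ TorP P := by
  have h6 := abel_mem hab η hη
  clear hη
  induction h6 using AddSubgroup.closure_induction with
  | mem f' hf' =>
    obtain ⟨ψ, rfl⟩ := hf'
    exact AddSubgroup.subset_closure ⟨H, ψ, hP, rfl⟩
  | zero => rw [ind_zero]; exact zero_mem _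
  | add a b _ _ ha hb => rw [ind_add]; exact add_mem ha hb
  | neg a _ ha => rw [ind_neg]; exact neg_mem ha

theorem torP_one (P : Subgroup G → Prop) (H : Subgroup G) (hP : P H) :
    Ind H (fun _ => 1) ∈ TorP P := by
  refine AddSubgroup.subset_closure ⟨H, 1, hP, ?_⟩
  simp

theorem ind_two (K : Subgroup G) [K.Normal] (hK : K.index = 2) (g : G) :
    Ind K (fun _ => 1) g = if g ∈ K then 2 else 0 := by
  have : Fintype G := Fintype.ofFinite G
  rw [ind_eq]
  have hconj : ∀ x : G, ext K (fun _ => (1 : ℂ)) (x⁻¹ * g * x) = if g ∈ K then 1 else 0 := by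
    intro x
    split_ifs with hg
    · apply ext_mem
      have h1 := (inferInstance : K.Normal).conj_mem g hg x⁻¹
      rwa [inv_inv] at h1
    · apply ext_not_mem
      intro h
      apply hg
      have h1 := (inferInstance : K.Normal).conj_mem _ h x
      have h2 : x * (x⁻¹ * g * x) * x⁻¹ = g := by group
      rwa [h2] at h1
  rw [Finset.sum_congr rfl fun x _ => hconj x, Finset.sum_const, nsmul_eq_mul, Finset.card_univ,
    ← Nat.card_eq_fintype_card, ← Subgroup.card_mul_index K, hK]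
  have hk := card_ne K
  split_ifs with hg
  · push_cast
    field_simp
  · simp

theorem ind_nsmul (H : Subgroup G) (η : H → ℂ) (m : ℕ) : Ind H (m • η) = m • Ind H η := by
  induction m with
  | zero => rw [zero_smul, zero_smul, ind_zero]
  | succ m ih => rw [succ_nsmul, succ_nsmul, ind_add, ih]

variable {R : Type} [Group R] [Finite R]

/-- **Equal values at the conjugations, finite level.** -/
theorem van_main (π : G →* R) (S : Set G)
    (hcent : ∀ t ∈ S, ∀ g, g * t = t * g → π g = 1 ∨ π g = π t)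
    (P : Subgroup G → Prop) (hP : ∀ H : Subgroup G, IsCyclic H → (∀ s ∈ S, s ∉ H) → P H)
    (χ₁ χ₂ : R → ℂ) (hχ₁ : IsCh χ₁) (hχ₂ : IsCh χ₂) (heq : ∀ t ∈ S, χ₁ (π t) = χ₂ (π t)) :
    ∃ m : ℕ, 0 < m ∧ (m • fun g => χ₁ (π g) - χ₂ (π g)) ∈ TorP P := by
  obtain ⟨m, f₁, f₂, hm, ⟨X, i1, i2, h1, h2⟩, ⟨X', i3, i4, h3, h4⟩, h5⟩ := artin_cyc (G := G)
  let φ : G → ℂ := fun g => χ₁ (π g) - χ₂ (π g)
  have hcl : ∀ g h : G, (2 • φ) (h * g * h⁻¹) = (2 • φ) g := by
    intro g h
    rw [Pi.smul_apply, Pi.smul_apply]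
    change 2 • (χ₁ (π (h * g * h⁻¹)) - χ₂ (π (h * g * h⁻¹))) = 2 • (χ₁ (π g) - χ₂ (π g))
    rw [map_mul, map_mul, map_inv, ch_conj hχ₁, ch_conj hχ₂]
  have key : ∀ H : Subgroup G, IsCyclic H → Ind H (fun h => (2 • φ) h) ∈ TorP P := by
    intro H hH
    have hab : ∀ a b : H, a * b = b * a := by
      obtain ⟨c, hc⟩ := hH
      intro a b
      obtain ⟨i, rfl⟩ := hc a
      obtain ⟨j, rfl⟩ := hc b
      change c ^ i * c ^ j = c ^ j * c ^ i
      rw [← zpow_add, ← zpow_add, add_comm]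
    by_cases hST : ∃ t ∈ S, t ∈ H
    · obtain ⟨t, ht, htH⟩ := hST
      let f : H →* R := π.comp H.subtype
      have hf : ∀ u : H, f u = 1 ∨ f u = π t := fun u => by
        refine hcent t ht u ?_
        exact congrArg Subtype.val (hab u ⟨t, htH⟩)
      by_cases hpt : π t = 1
      · have h6 : (fun h : H => (2 • φ) h) = 0 := by
          funext u
          have h7 : π u = π t := by
            rcases hf u with h | h
            · rw [hpt]; exact h
            · exact h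
          change 2 • (χ₁ (π u) - χ₂ (π u)) = 0
          rw [h7, heq t ht, sub_self, smul_zero]
        rw [h6, ind_zero]
        exact zero_mem _
      · obtain ⟨n₁, τ₁, hτ₁⟩ := hχ₁
        obtain ⟨n₂, τ₂, hτ₂⟩ := hχ₂
        have hone : χ₁ 1 - χ₂ 1 = (n₁ : ℂ) - n₂ := by
          rw [hτ₁, hτ₂, map_one, map_one, Matrix.trace_one, Matrix.trace_one]
          simp
        have hidx : f.ker.index = 2 := by
          rw [Subgroup.index_eq_two_iff]
          refine ⟨⟨t, htH⟩, fun b => ?_⟩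
          rw [MonoidHom.mem_ker, MonoidHom.mem_ker, map_mul]
          have h7 : f ⟨t, htH⟩ = π t := rfl
          have h8 : π t * π t = 1 := by
            rcases hf (⟨t, htH⟩ * ⟨t, htH⟩) with h | h
            · rw [map_mul] at h
              exact h
            · rw [map_mul] at h
              exact absurd (mul_eq_left.1 h) hpt
          rw [h7]
          rcases hf b with h | h
          · rw [h, one_mul]
            exact Or.inr ⟨rfl, hpt⟩
          · rw [h, h8]
            exact Or.inl ⟨rfl, hpt⟩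
        have h6 : (fun h : H => (2 • φ) h) =
            n₁ • Ind f.ker (fun _ => 1) - n₂ • Ind f.ker (fun _ => 1) := by
          funext u
          have hi2 := ind_two f.ker hidx u
          change 2 • (χ₁ (f u) - χ₂ (f u)) =
            n₁ • (Ind f.ker (fun _ => (1 : ℂ)) u) - n₂ • (Ind f.ker (fun _ => (1 : ℂ)) u)
          by_cases hu : u ∈ f.ker
          · rw [if_pos hu] at hi2
            rw [hi2, MonoidHom.mem_ker.1 hu, hone, nsmul_eq_mul, nsmul_eq_mul, nsmul_eq_mul]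
            push_cast
            ring
          · rw [if_neg hu] at hi2
            have h7 : f u = π t := (hf u).resolve_left hu
            rw [hi2, h7, heq t ht, sub_self]
            simp
        rw [h6, ind_sub, ind_nsmul, ind_nsmul, ind_perm]
        have hPK : P (f.ker.map H.subtype) := by
          refine hP _ ?_ ?_
          · have hle : f.ker.map H.subtype ≤ H := by
              rintro _ ⟨k, -, rfl⟩
              exact k.2
            exact cyc_inj (Subgroup.inclusion hle) (Subgroup.inclusion_injective hle) hH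
          · rintro s hs ⟨k, hk, rfl⟩
            have h7 : π (k : G) = 1 := hk
            rcases hcent (k : G) hs t (congrArg Subtype.val (hab ⟨t, htH⟩ k)) with h | h
            · exact hpt h
            · exact hpt (h.trans h7)
        exact (TorP P).sub_mem (AddSubgroup.nsmul_mem _ (torP_one P _ hPK) _)
          (AddSubgroup.nsmul_mem _ (torP_one P _ hPK) _)
    · push Not at hST
      have hPH := hP H hH hST
      have h6 : (fun h : H => (2 • φ) h) =
          2 • ((fun h : H => χ₁ (π h)) - fun h : H => χ₂ (π h)) := rfl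
      rw [h6, ind_nsmul, ind_sub]
      exact AddSubgroup.nsmul_mem _ ((TorP P).sub_mem
        (torP_abel P H hPH hab _ (isCh_comp H.subtype (isCh_comp π hχ₁)))
        (torP_abel P H hPH hab _ (isCh_comp H.subtype (isCh_comp π hχ₂)))) _
  have h6 := perm_mul h2 (2 • φ) hcl (TorP P) fun x => key _ (h1 x)
  have h7 := perm_mul h4 (2 • φ) hcl (TorP P) fun x => key _ (h3 x)
  refine ⟨2 * m, by omega, ?_⟩
  have h8 : ((2 * m) • fun g => χ₁ (π g) - χ₂ (π g)) =
      (fun g => (f₁ g : ℂ) * (2 • φ) g) - fun g => (f₂ g : ℂ) * (2 • φ) g := by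
    funext g
    rw [Pi.sub_apply, Pi.smul_apply, Pi.smul_apply, h5]
    change (2 * m) • (χ₁ (π g) - χ₂ (π g)) = _
    rw [nsmul_eq_mul, nsmul_eq_mul]
    push_cast
    ring
  rw [h8]
  exact (TorP P).sub_mem h6 h7

end

section
variable {K : Type} [Field K] [NumberField K]

/-- characters of smooth finite-dimensional complex representations of `Gal(K̄/K)` -/
def IsGalChar (χ : Gal(AlgebraicClosure K/K) → ℂ) : Prop :=
  ∃ (n : ℕ) (τ : Gal(AlgebraicClosure K/K) →* GL (Fin n) ℂ),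
    (∃ E : IntermediateField K (AlgebraicClosure K), FiniteDimensional K E ∧
      ∀ g ∈ E.fixingSubgroup, τ g = 1) ∧
    ∀ g, χ g = (τ g : Matrix (Fin n) (Fin n) ℂ).trace

/-- induction from `Gal(K̄/F)` to `Gal(K̄/K)` -/
noncomputable def indGal (F : IntermediateField K (AlgebraicClosure K))
    (χ : F.fixingSubgroup → ℂ) (g : Gal(AlgebraicClosure K/K)) : ℂ :=
  ∑ᶠ x : Gal(AlgebraicClosure K/K) ⧸ F.fixingSubgroup,
    if h : x.out⁻¹ * g * x.out ∈ F.fixingSubgroup then χ ⟨_, h⟩ else 0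

/-- the group `Gal(K̄/K)` as the fixing subgroup of the base field -/
noncomputable def toBot : Gal(AlgebraicClosure K/K) →*
    (⊥ : IntermediateField K (AlgebraicClosure K)).fixingSubgroup where
  toFun g := ⟨g, by rw [IntermediateField.fixingSubgroup_bot]; exact Subgroup.mem_top g⟩
  map_one' := rfl
  map_mul' _ _ := rfl

theorem toBot_surj : Function.Surjective (toBot (K := K)) := fun g => ⟨g.1, rfl⟩

theorem isCharacter_bot {χ : Gal(AlgebraicClosure K/K) → ℂ} (h : IsGalChar χ) :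
    IsCharacter ⊥ (fun g : (⊥ : IntermediateField K (AlgebraicClosure K)).fixingSubgroup =>
      χ g.1) := by
  obtain ⟨n, τ, ⟨E, hE, hs⟩, hτ⟩ := h
  exact ⟨n, τ.comp (Subgroup.subtype _), ⟨E, hE, fun g hg => hs g hg⟩, fun g => hτ g⟩

/-- `F` is contained in a finite Galois extension `L` of `K` such that `L/F` is cyclic and `ψ` is
trivial on `Gal(K̄/L)` -/
def Cyc (F : IntermediateField K (AlgebraicClosure K)) (ψ : F.fixingSubgroup →* ℂˣ) : Prop :=
  ∃ L : IntermediateField K (AlgebraicClosure K), FiniteDimensional K L ∧ Normal K L ∧ F ≤ L ∧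
    (∃ σ ∈ F.fixingSubgroup, ∀ g ∈ F.fixingSubgroup, ∃ k : ℤ, ∀ x ∈ L, g x = (σ ^ k) x) ∧
    ∀ g : F.fixingSubgroup, (g : Gal(AlgebraicClosure K/K)) ∈ L.fixingSubgroup → ψ g = 1

/-- the generators -/
def GenV (K : Type) [Field K] [NumberField K] (M : ℕ) : Set (Gal(AlgebraicClosure K/K) → ℂ) :=
  {f | ∃ (F : IntermediateField K (AlgebraicClosure K)) (ψ : F.fixingSubgroup →* ℂˣ),
    FiniteDimensional K F ∧ Cyc F ψ ∧ IsEmpty (F →+* ℝ) ∧ M ∣ Module.finrank K F ∧
    f = indGal F (fun g => ((ψ g : ℂˣ) : ℂ))}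

theorem isGalChar_of_isCh (L : IntermediateField K (AlgebraicClosure K)) [FiniteDimensional K L]
    [Normal K L] {χ : ((⊥ : IntermediateField K (AlgebraicClosure K)).fixingSubgroup ⧸ NN ⊥ L) → ℂ}
    (h : IsCh χ) : IsGalChar (fun g => χ (QuotientGroup.mk' (NN ⊥ L) (toBot g))) := by
  obtain ⟨n, τ, hτ⟩ := h
  refine ⟨n, (τ.comp ((QuotientGroup.mk' (NN ⊥ L)).comp toBot)).toHomUnits,
    ⟨L, inferInstance, fun g hg => ?_⟩, fun g => hτ _⟩
  apply Units.ext
  change τ (QuotientGroup.mk' (NN ⊥ L) (toBot g)) = 1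
  have h1 : QuotientGroup.mk' (NN ⊥ L) (toBot g) = 1 :=
    (QuotientGroup.eq_one_iff _).2 (Subgroup.mem_subgroupOf.2 hg)
  rw [h1, map_one]

/-- the level for two characters -/
theorem levels₂ {χ₁ χ₂ : Gal(AlgebraicClosure K/K) → ℂ} (h₁ : IsGalChar χ₁) (h₂ : IsGalChar χ₂)
    (heq : ∀ c, IsCC c → χ₁ c = χ₂ c) {M : ℕ} (hM : 0 < M) :
    ∃ (L : IntermediateField K (AlgebraicClosure K)) (_ : FiniteDimensional K L)
      (_ : Normal K L) (f₁ f₂ : ((⊥ : IntermediateField K (AlgebraicClosure K)).fixingSubgroup ⧸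
        NN ⊥ L) → ℂ), IsCh f₁ ∧ IsCh f₂ ∧
      (∀ g, χ₁ g = f₁ (QuotientGroup.mk' (NN ⊥ L) (toBot g))) ∧
      (∀ g, χ₂ g = f₂ (QuotientGroup.mk' (NN ⊥ L) (toBot g))) ∧
      ∃ m : ℕ, 0 < m ∧ m • (f₁ - f₂) ∈ AddSubgroup.closure
        {f | ∃ (H : Subgroup ((⊥ : IntermediateField K (AlgebraicClosure K)).fixingSubgroup ⧸
            NN ⊥ L)) (ψ : H →* ℂˣ),
          ((fun g => f (QuotientGroup.mk' (NN ⊥ L) (toBot g))) ∈ GenV K M) ∧
          f = Ind H (fun h => ((ψ h : ℂˣ) : ℂ))} := by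
  -- the direct sum gives a common level
  obtain ⟨n₁, τ₁, ⟨E₁, hE₁, hs₁⟩, hτ₁⟩ := h₁
  obtain ⟨n₂, τ₂, ⟨E₂, hE₂, hs₂⟩, hτ₂⟩ := h₂
  obtain ⟨L₂, hL₂, hdeg⟩ := exists_deg (K := K) hM
  let S₀ : IntermediateField K (AlgebraicClosure K) := E₁ ⊔ E₂
  have hS₀ : FiniteDimensional K S₀ := IntermediateField.finiteDimensional_sup _ _
  let S : IntermediateField K (AlgebraicClosure K) := S₀ ⊔ L₂
  have hS : FiniteDimensional K S := IntermediateField.finiteDimensional_sup _ _
  let L : IntermediateField K (AlgebraicClosure K) :=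
    IntermediateField.normalClosure K S (AlgebraicClosure K)
  have hLfd : FiniteDimensional K L := inferInstance
  have hLn : Normal K L := inferInstance
  have hSL : S ≤ L := IntermediateField.le_normalClosure S
  have hE₁L : E₁ ≤ L := ((le_sup_left : E₁ ≤ S₀).trans (le_sup_left : S₀ ≤ S)).trans hSL
  have hE₂L : E₂ ≤ L := ((le_sup_right : E₂ ≤ S₀).trans (le_sup_left : S₀ ≤ S)).trans hSL
  have hL₂L : L₂ ≤ L := (le_sup_right : L₂ ≤ S).trans hSL
  obtain ⟨L', hfd', hn', hLL', hbig⟩ := exists_big L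
  obtain ⟨χ₁', hχ₁', hχχ₁⟩ := isCh_of_isCharacter ⊥ L
    (χ := fun g : (⊥ : IntermediateField K (AlgebraicClosure K)).fixingSubgroup => χ₁ g)
    (τ := τ₁.comp (Subgroup.subtype _)) (fun g => hτ₁ g) (fun g hg => hs₁ g
      (IntermediateField.fixingSubgroup_antitone hE₁L hg))
  obtain ⟨χ₂', hχ₂', hχχ₂⟩ := isCh_of_isCharacter ⊥ L
    (χ := fun g : (⊥ : IntermediateField K (AlgebraicClosure K)).fixingSubgroup => χ₂ g)
    (τ := τ₂.comp (Subgroup.subtype _)) (fun g => hτ₂ g) (fun g hg => hs₂ g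
      (IntermediateField.fixingSubgroup_antitone hE₂L hg))
  have hle : NN ⊥ L' ≤ (NN ⊥ L).comap (MonoidHom.id _) := by
    intro v hv
    exact Subgroup.mem_subgroupOf.2 (IntermediateField.fixingSubgroup_antitone hLL'
      (Subgroup.mem_subgroupOf.1 hv))
  let π : ((⊥ : IntermediateField K (AlgebraicClosure K)).fixingSubgroup ⧸ NN ⊥ L') →*
      ((⊥ : IntermediateField K (AlgebraicClosure K)).fixingSubgroup ⧸ NN ⊥ L) :=
    QuotientGroup.map (NN ⊥ L') (NN ⊥ L) (MonoidHom.id _) hle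
  have hπ : ∀ v, π (QuotientGroup.mk' (NN ⊥ L') v) = QuotientGroup.mk' (NN ⊥ L) v := fun v => rfl
  have hcent : ∀ t ∈ SS (⊥ : IntermediateField K (AlgebraicClosure K)) L', ∀ g, g * t = t * g →
      π g = 1 ∨ π g = π t := by
    rintro _ ⟨t, ht, rfl⟩ g hg
    obtain ⟨g, rfl⟩ := QuotientGroup.mk'_surjective _ g
    rw [hπ, hπ]
    rw [← map_mul, ← map_mul] at hg
    have h1 : (g * t)⁻¹ * (t * g) ∈ NN ⊥ L' := QuotientGroup.eq.1 hg
    rw [mem_nn] at h1
    have h2 : ∀ x ∈ L', (g : Gal(AlgebraicClosure K/K)) ((t : Gal(AlgebraicClosure K/K)) x) =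
        (t : Gal(AlgebraicClosure K/K)) ((g : Gal(AlgebraicClosure K/K)) x) := by
      intro x hx
      have h3 := h1 x hx
      change ((g : Gal(AlgebraicClosure K/K)) * (t : Gal(AlgebraicClosure K/K))).symm
        ((t : Gal(AlgebraicClosure K/K)) ((g : Gal(AlgebraicClosure K/K)) x)) = x at h3
      rw [AlgEquiv.symm_apply_eq] at h3
      exact h3.symm
    rcases hbig t g ht h2 with h3 | h3
    · left
      exact (QuotientGroup.eq_one_iff _).2 ((mem_nn ⊥ L g).2 h3)
    · right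
      refine (QuotientGroup.eq.2 ?_).symm
      rw [mem_nn]
      intro x hx
      change (t : Gal(AlgebraicClosure K/K)).symm ((g : Gal(AlgebraicClosure K/K)) x) = x
      rw [AlgEquiv.symm_apply_eq]
      exact h3 x hx
  have hcyc : ∀ H : Subgroup ((⊥ : IntermediateField K (AlgebraicClosure K)).fixingSubgroup ⧸
      NN ⊥ L'), IsCyclic H → ∀ F : IntermediateField K (AlgebraicClosure K),
            (∀ g : Gal(AlgebraicClosure K/K), g ∈ F.fixingSubgroup ↔
              ∃ hv : g ∈ (⊥ : IntermediateField K (AlgebraicClosure K)).fixingSubgroup,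
                QuotientGroup.mk' (NN ⊥ L') ⟨g, hv⟩ ∈ H) →
            M ∣ Module.finrank K F := by
    rintro H ⟨⟨c, hcH⟩, hc⟩ F hF
    obtain ⟨σ, rfl⟩ := QuotientGroup.mk'_surjective _ c
    obtain ⟨F₁, hF₁, hσ, hfd₁, hM₁⟩ := hdeg (σ : Gal(AlgebraicClosure K/K))
    have hF₁L' : F₁ ≤ L' := (hF₁.trans hL₂L).trans hLL'
    have hle₁ : F.fixingSubgroup ≤ F₁.fixingSubgroup := by
      intro g hg
      obtain ⟨hv, hgH⟩ := (hF g).1 hg
      obtain ⟨k, hk⟩ := hc ⟨_, hgH⟩
      have hk' : QuotientGroup.mk' (NN ⊥ L') (σ ^ k) = QuotientGroup.mk' (NN ⊥ L') ⟨g, hv⟩ := by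
        rw [map_zpow]
        exact congrArg Subtype.val hk
      have h1 : (σ ^ k)⁻¹ * ⟨g, hv⟩ ∈ NN ⊥ L' := QuotientGroup.eq.1 hk'
      rw [mem_nn] at h1
      rw [IntermediateField.mem_fixingSubgroup_iff]
      intro x hx
      have h2 := h1 x (hF₁L' hx)
      change ((σ ^ k : (⊥ : IntermediateField K (AlgebraicClosure K)).fixingSubgroup) :
        Gal(AlgebraicClosure K/K)).symm (g x) = x at h2
      rw [AlgEquiv.symm_apply_eq] at h2
      change g x = x
      rw [h2, Subgroup.coe_zpow]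
      have h4 : (σ : Gal(AlgebraicClosure K/K)) ∈
        MulAction.stabilizer (Gal(AlgebraicClosure K/K)) x := hσ x hx
      exact Subgroup.zpow_mem _ h4 k
    have hle₂ : F₁ ≤ F := by
      have h2 : IntermediateField.fixedField F₁.fixingSubgroup ≤
          IntermediateField.fixedField F.fixingSubgroup := by
        intro x hx
        rw [IntermediateField.mem_fixedField_iff] at hx ⊢
        exact fun g hg => hx g (hle₁ hg)
      rwa [InfiniteGalois.fixedField_fixingSubgroup, InfiniteGalois.fixedField_fixingSubgroup] at h2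
    exact hM₁.trans (IntermediateField.finrank_dvd_of_le_right hle₂)
  obtain ⟨m, hm, h1⟩ := van_main π (SS ⊥ L') hcent
    (fun H => IsCyclic H ∧ (∀ s ∈ SS (⊥ : IntermediateField K (AlgebraicClosure K)) L', s ∉ H) ∧
      ∀ F : IntermediateField K (AlgebraicClosure K),
            (∀ g : Gal(AlgebraicClosure K/K), g ∈ F.fixingSubgroup ↔
              ∃ hv : g ∈ (⊥ : IntermediateField K (AlgebraicClosure K)).fixingSubgroup,
                QuotientGroup.mk' (NN ⊥ L') ⟨g, hv⟩ ∈ H) →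
            M ∣ Module.finrank K F)
    (fun H hH h1 => ⟨hH, h1, hcyc H hH⟩) χ₁' χ₂' hχ₁' hχ₂' (by
      rintro _ ⟨t, ht, rfl⟩
      rw [hπ, ← hχχ₁, ← hχχ₂]
      exact heq _ ht)
  refine ⟨L', hfd', hn', fun g => χ₁' (π g), fun g => χ₂' (π g), isCh_comp π hχ₁',
    isCh_comp π hχ₂', fun g => ?_, fun g => ?_, m, hm, ?_⟩
  · exact hχχ₁ (toBot g)
  · exact hχχ₂ (toBot g)
  · refine (AddSubgroup.closure_mono ?_ : TorP _ ≤ _) h1
    rintro f ⟨H, ψ, ⟨hHc, hH1, hH2⟩, rfl⟩
    refine ⟨H, ψ, ?_, rfl⟩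
    obtain ⟨F, hF₀F, hFL, hF⟩ := exists_field ⊥ L' bot_le H
    have hfd : FiniteDimensional K F := FiniteDimensional.of_injective
      (IntermediateField.inclusion hFL).toLinearMap (IntermediateField.inclusion_injective hFL)
    obtain ⟨ψ', hψ's, hψ'v, -⟩ := exists_lin ⊥ L' bot_le H ψ F hF
    let ψ'' : F.fixingSubgroup →* ℂˣ :=
      { toFun := fun g => ψ ⟨QuotientGroup.mk' (NN ⊥ L') (toBot g), ((hF g).1 g.2).choose_spec⟩
        map_one' := map_one ψ
        map_mul' := fun a b => by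
          rw [← map_mul]
          rfl }
    have hF' : ∀ g : Gal(AlgebraicClosure K/K), g ∈ F.fixingSubgroup ↔
        (QuotientGroup.mk' (NN ⊥ L')).comp toBot g ∈ H := by
      intro g
      rw [hF]
      exact ⟨fun ⟨_, h⟩ => h, fun h => ⟨(toBot g).2, h⟩⟩
    refine ⟨F, ψ'', hfd, ⟨L', inferInstance, inferInstance, hFL, ?_, fun g hg => ?_⟩,
      totally_complex ⊥ L' H hH1 F hF, hH2 F hF, ?_⟩
    · obtain ⟨⟨c, hcH⟩, hc⟩ := hHc
      obtain ⟨σ, rfl⟩ := QuotientGroup.mk'_surjective _ c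
      refine ⟨σ, (hF σ).2 ⟨σ.2, hcH⟩, fun g hg => ?_⟩
      obtain ⟨hv, hgH⟩ := (hF g).1 hg
      obtain ⟨k, hk⟩ := hc ⟨_, hgH⟩
      have hk' : QuotientGroup.mk' (NN ⊥ L') (σ ^ k) = QuotientGroup.mk' (NN ⊥ L') ⟨g, hv⟩ := by
        rw [map_zpow]
        exact congrArg Subtype.val hk
      have h1 : (σ ^ k)⁻¹ * ⟨g, hv⟩ ∈ NN ⊥ L' := QuotientGroup.eq.1 hk'
      rw [mem_nn] at h1
      refine ⟨k, fun x hx => ?_⟩
      have h2 := h1 x hx
      change ((σ ^ k : (⊥ : IntermediateField K (AlgebraicClosure K)).fixingSubgroup) :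
        Gal(AlgebraicClosure K/K)).symm (g x) = x at h2
      rw [AlgEquiv.symm_apply_eq, Subgroup.coe_zpow] at h2
      exact h2
    · have h1 : QuotientGroup.mk' (NN ⊥ L') (toBot g) = 1 :=
        (QuotientGroup.eq_one_iff _).2 (Subgroup.mem_subgroupOf.2 hg)
      change ψ ⟨QuotientGroup.mk' (NN ⊥ L') (toBot g), _⟩ = 1
      rw [← map_one ψ]
      congr 1
      exact Subtype.ext h1
    · funext g
      change Ind H _ (((QuotientGroup.mk' (NN ⊥ L')).comp toBot) g) = _
      rw [← ind_coset ((QuotientGroup.mk' (NN ⊥ L')).comp toBot)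
        ((QuotientGroup.mk'_surjective _).comp toBot_surj) H _
        (fun a b => by rw [map_mul, map_mul, map_inv, mul_comm, mul_inv_cancel_left])
        F.fixingSubgroup hF' g]
      unfold indGal
      refine finsum_congr fun x => ?_
      by_cases hx : x.out⁻¹ * g * x.out ∈ F.fixingSubgroup
      · rw [dif_pos hx, ext_mem ((hF' _).1 hx)]
        rfl
      · rw [dif_neg hx, ext_not_mem fun h => hx ((hF' _).2 h)]

/-- **Characters with equal values at the complex conjugations.** -/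
theorem conj_induction {χ₁ χ₂ : Gal(AlgebraicClosure K/K) → ℂ} (h₁ : IsGalChar χ₁)
    (h₂ : IsGalChar χ₂) (heq : ∀ c, IsCC c → χ₁ c = χ₂ c) {M : ℕ} (hM : 0 < M) :
    ∃ m : ℕ, 0 < m ∧ m • (χ₁ - χ₂) ∈ AddSubgroup.closure (GenV K M) := by
  obtain ⟨L, hL, hn, f₁, f₂, hf₁, hf₂, e₁, e₂, m, hm, h⟩ := levels₂ h₁ h₂ heq hM
  refine ⟨m, hm, ?_⟩
  have h3 := closure_infl ((QuotientGroup.mk' (NN ⊥ L)).comp toBot) _ (GenV K M)
    (fun f hf => by
      obtain ⟨H, ψ, h4, -⟩ := hf
      exact h4) h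
  have h4 : m • (χ₁ - χ₂) = fun v => (m • (f₁ - f₂)) (((QuotientGroup.mk' (NN ⊥ L)).comp toBot) v) := by
    funext v
    rw [Pi.smul_apply, Pi.smul_apply, Pi.sub_apply, Pi.sub_apply, e₁, e₂]
    rfl
  rwa [h4]

/-- **Additive functions**: equal values at the complex conjugations, up to torsion -/
theorem conj_additive {A : Type} [AddCommGroup A] (D : (Gal(AlgebraicClosure K/K) → ℂ) → A)
    (hadd : ∀ χ χ', IsGalChar χ → IsGalChar χ' → D (χ + χ') = D χ + D χ') {M : ℕ} (hM : 0 < M)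
    (hD : ∀ f ∈ GenV K M, IsGalChar f → D f = 0)
    {χ₁ χ₂ : Gal(AlgebraicClosure K/K) → ℂ} (h₁ : IsGalChar χ₁)
    (h₂ : IsGalChar χ₂) (heq : ∀ c, IsCC c → χ₁ c = χ₂ c) :
    ∃ m : ℕ, 0 < m ∧ m • D χ₁ = m • D χ₂ := by
  obtain ⟨L, hL, hn, f₁, f₂, hf₁, hf₂, e₁, e₂, m, hm, h⟩ := levels₂ h₁ h₂ heq hM
  refine ⟨m, hm, ?_⟩
  let D' : (((⊥ : IntermediateField K (AlgebraicClosure K)).fixingSubgroup ⧸ NN ⊥ L) → ℂ) → A :=
    fun k => D (fun g => k (QuotientGroup.mk' (NN ⊥ L) (toBot g)))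
  have hadd' : ∀ a b, IsCh a → IsCh b → D' (a + b) = D' a + D' b := fun a b ha hb =>
    hadd _ _ (isGalChar_of_isCh L ha) (isGalChar_of_isCh L hb)
  have h0 : D' 0 = 0 := by
    have h1 := hadd' 0 0 IsCh.zero IsCh.zero
    rw [add_zero] at h1
    exact left_eq_add.1 h1
  have key : ∀ f ∈ AddSubgroup.closure
        {f | ∃ (H : Subgroup ((⊥ : IntermediateField K (AlgebraicClosure K)).fixingSubgroup ⧸
            NN ⊥ L)) (ψ : H →* ℂˣ),
          ((fun g => f (QuotientGroup.mk' (NN ⊥ L) (toBot g))) ∈ GenV K M) ∧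
          f = Ind H (fun h => ((ψ h : ℂˣ) : ℂ))},
      ∃ a₁ a₂, IsCh a₁ ∧ IsCh a₂ ∧ f + a₂ = a₁ ∧ D' a₁ = 0 ∧ D' a₂ = 0 := by
    intro f hf
    induction hf using AddSubgroup.closure_induction with
    | mem f hf =>
      obtain ⟨H, ψ, h4, rfl⟩ := hf
      exact ⟨_, 0, isCh_ind H ψ, IsCh.zero, add_zero _,
        hD _ h4 (isGalChar_of_isCh L (isCh_ind H ψ)), h0⟩
    | zero => exact ⟨0, 0, IsCh.zero, IsCh.zero, add_zero 0, h0, h0⟩
    | add a b _ _ ha hb =>
      obtain ⟨a₁, a₂, h1, h2, h3, h4, h5⟩ := ha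
      obtain ⟨b₁, b₂, k1, k2, k3, k4, k5⟩ := hb
      refine ⟨a₁ + b₁, a₂ + b₂, h1.add k1, h2.add k2, ?_, ?_, ?_⟩
      · rw [← h3, ← k3]
        abel
      · rw [hadd' _ _ h1 k1, h4, k4, add_zero]
      · rw [hadd' _ _ h2 k2, h5, k5, add_zero]
    | neg a _ ha =>
      obtain ⟨a₁, a₂, h1, h2, h3, h4, h5⟩ := ha
      refine ⟨a₂, a₁, h2, h1, ?_, h5, h4⟩
      rw [← h3]
      abel
  obtain ⟨a₁, a₂, h1, h2, h3, h4, h5⟩ := key _ h
  have h6 : m • f₁ + a₂ = m • f₂ + a₁ := by
    rw [← h3, smul_sub]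
    abel
  have h7 : D' (m • f₁ + a₂) = m • D' f₁ := by
    rw [hadd' _ _ (hf₁.nsmul m) h2, h5, add_zero, nsmul_D D' hadd' hf₁]
  have h8 : D' (m • f₂ + a₁) = m • D' f₂ := by
    rw [hadd' _ _ (hf₂.nsmul m) h1, h4, add_zero, nsmul_D D' hadd' hf₂]
  rw [funext e₁, funext e₂]
  change m • D' f₁ = m • D' f₂
  rw [← h7, ← h8, h6]

end

end Pool.Agent.Q246.BI
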